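import Mathlib

set_option autoImplicit false
open Complex Metric Set Polynomial
open scoped ComplexConjugate

namespace Pool.Agent.Helper654.Ptak

/-- circle average over the unit circle -/
noncomputable def av {E : Type*} [NormedAddCommGroup E] [NormedSpace ℝ E] (g : ℂ → E) : E :=
  Real.circleAverage g 0 1

/-- clamped Klein weight -/
noncomputable def wt (ρ : ℝ) (β ζ : ℂ) : ℝ := (max (1 - 2 * ρ) (1 - 2 * (conj β * ζ).re))⁻¹

lemma den_pos {ρ : ℝ} (hρ : ρ < 1 / 2) (β ζ : ℂ) : 0 < max (1 - 2 * ρ) (1 - 2 * (conj β * ζ).re) :=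
  lt_max_of_lt_left (by linarith)

lemma wt_pos {ρ : ℝ} (hρ : ρ < 1 / 2) (β ζ : ℂ) : 0 < wt ρ β ζ := inv_pos.mpr (den_pos hρ β ζ)

lemma wt_cont {ρ : ℝ} (hρ : ρ < 1 / 2) : Continuous (fun p : ℂ × ℂ => wt ρ p.1 p.2) := by
  unfold wt
  apply Continuous.inv₀
  · fun_prop
  · intro p; exact (den_pos hρ _ _).ne'

lemma wt_cont1 {ρ : ℝ} (hρ : ρ < 1 / 2) (β : ℂ) : Continuous (fun ζ : ℂ => wt ρ β ζ) := by
  have h1 : Continuous fun ζ : ℂ => (β, ζ) := by fun_prop
  have h2 := (wt_cont hρ).comp h1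
  exact h2

lemma wt_eq {ρ : ℝ} {β ζ : ℂ} (hβ : ‖β‖ ≤ ρ) (hζ : ‖ζ‖ = 1) :
    wt ρ β ζ = (1 - 2 * (conj β * ζ).re)⁻¹ := by
  unfold wt
  congr 1
  apply max_eq_right
  have : (conj β * ζ).re ≤ ‖conj β * ζ‖ := Complex.re_le_norm _
  rw [norm_mul, hζ, mul_one, RCLike.norm_conj] at this
  linarith

/-- total weight -/
noncomputable def W {n : ℕ} (ρ : ℝ) (B : Fin n → ℂ) (ζ : ℂ) : ℝ := ∏ j, wt ρ (B j) ζ

lemma W_pos {n : ℕ} {ρ : ℝ} (hρ : ρ < 1 / 2) (B : Fin n → ℂ) (ζ : ℂ) : 0 < W ρ B ζ :=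
  Finset.prod_pos (fun _ _ => wt_pos hρ _ _)

lemma W_cont {n : ℕ} {ρ : ℝ} (hρ : ρ < 1 / 2) :
    Continuous (fun p : (Fin n → ℂ) × ℂ => W ρ p.1 p.2) := by
  unfold W
  apply continuous_finsetProd
  intro j _
  have h1 : Continuous fun p : (Fin n → ℂ) × ℂ => (p.1 j, p.2) := by fun_prop
  have h2 := (wt_cont hρ).comp h1
  exact h2

lemma W_cont1 {n : ℕ} {ρ : ℝ} (hρ : ρ < 1 / 2) (B : Fin n → ℂ) : Continuous (fun ζ : ℂ => W ρ B ζ) := by
  have h1 : Continuous fun ζ : ℂ => (B, ζ) := by fun_prop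
  have h2 := (W_cont hρ).comp h1
  exact h2

/-- the functional -/
noncomputable def Hf {n : ℕ} (ρ : ℝ) (h : ℂ → ℝ) (B : Fin n → ℂ) : ℝ := av (fun ζ => h ζ * W ρ B ζ)

lemma ci {E : Type*} [NormedAddCommGroup E] [NormedSpace ℝ E] {g : ℂ → E} (hg : Continuous g) : CircleIntegrable g 0 1 :=
  hg.continuousOn.circleIntegrable'

lemma Hf_cont {n : ℕ} {ρ : ℝ} (hρ : ρ < 1 / 2) {h : ℂ → ℝ} (hh : Continuous h) :
    Continuous (fun B : Fin n → ℂ => Hf ρ h B) := by
  have h1 : Continuous (fun p : (Fin n → ℂ) × ℝ => W ρ p.1 (circleMap 0 1 p.2)) := by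
    have h1 : Continuous fun p : (Fin n → ℂ) × ℝ => (p.1, circleMap 0 1 p.2) := by fun_prop
    have h2 := (W_cont hρ).comp h1
    exact h2
  have h2 : Continuous (fun p : (Fin n → ℂ) × ℝ => h (circleMap 0 1 p.2) * W ρ p.1 (circleMap 0 1 p.2)) := by
    have h3 : Continuous fun p : (Fin n → ℂ) × ℝ => circleMap 0 1 p.2 := by fun_prop
    exact (hh.comp h3).mul h1
  have hI : Continuous (fun B : Fin n → ℂ =>
      ∫ θ in (0 : ℝ)..(2 * Real.pi), h (circleMap 0 1 θ) * W ρ B (circleMap 0 1 θ)) :=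
    intervalIntegral.continuous_parametric_intervalIntegral_of_continuous'
      (f := fun (B : Fin n → ℂ) (θ : ℝ) => h (circleMap 0 1 θ) * W ρ B (circleMap 0 1 θ)) h2 _ _
  exact hI.const_smul ((2 * Real.pi)⁻¹)

lemma W_update {n : ℕ} (ρ : ℝ) (B : Fin n → ℂ) (j : Fin n) (β ζ : ℂ) :
    W ρ (Function.update B j β) ζ = wt ρ β ζ * ∏ k ∈ Finset.univ.erase j, wt ρ (B k) ζ := by
  unfold W
  rw [← Finset.mul_prod_erase Finset.univ _ (Finset.mem_univ j)]
  congr 1
  · simp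
  · apply Finset.prod_congr rfl
    intro k hk
    rw [Function.update_of_ne (Finset.ne_of_mem_erase hk)]

lemma mid_identity {x y : ℝ} (hx : 0 < x) (hy : 0 < y) :
    x⁻¹ * y⁻¹ = (1 / 2) * (x⁻¹ * ((x + y) / 2)⁻¹ + y⁻¹ * ((x + y) / 2)⁻¹) := by
  have : x + y ≠ 0 := by positivity
  field_simp
  ring

lemma A_pos {ρ : ℝ} (hρ : ρ < 1 / 2) {β ζ : ℂ} (hβ : ‖β‖ ≤ ρ) (hζ : ‖ζ‖ = 1) :
    0 < 1 - 2 * (conj β * ζ).re := by
  have : (conj β * ζ).re ≤ ‖conj β * ζ‖ := Complex.re_le_norm _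
  rw [norm_mul, hζ, mul_one, RCLike.norm_conj] at this
  linarith

lemma norm_mid {ρ : ℝ} {b β : ℂ} (hb : ‖b‖ ≤ ρ) (hβ : ‖β‖ ≤ ρ) : ‖(b + β) / 2‖ ≤ ρ := by
  rw [norm_div]
  have := norm_add_le b β
  simp
  linarith

lemma W_mid {n : ℕ} {ρ : ℝ} (hρ : ρ < 1 / 2) (B : Fin n → ℂ) (hB : ∀ k, ‖B k‖ ≤ ρ) (i j : Fin n)
    (hij : i ≠ j) (ζ : ℂ) (hζ : ‖ζ‖ = 1) :
    W ρ B ζ = (1 / 2) * (W ρ (Function.update B j ((B i + B j) / 2)) ζ +
      W ρ (Function.update B i ((B i + B j) / 2)) ζ) := by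
  have e0 : W ρ B ζ = wt ρ (B j) ζ * ∏ k ∈ Finset.univ.erase j, wt ρ (B k) ζ := by
    conv_lhs => rw [← Function.update_eq_self j B]
    rw [W_update]
  have ej : ∏ k ∈ Finset.univ.erase j, wt ρ (B k) ζ =
      wt ρ (B i) ζ * ∏ k ∈ (Finset.univ.erase j).erase i, wt ρ (B k) ζ := by
    rw [Finset.mul_prod_erase _ (fun k => wt ρ (B k) ζ) (Finset.mem_erase.mpr ⟨hij, Finset.mem_univ i⟩)]
  have ei : ∏ k ∈ Finset.univ.erase i, wt ρ (B k) ζ =
      wt ρ (B j) ζ * ∏ k ∈ (Finset.univ.erase j).erase i, wt ρ (B k) ζ := by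
    rw [Finset.erase_right_comm,
      Finset.mul_prod_erase _ (fun k => wt ρ (B k) ζ) (Finset.mem_erase.mpr ⟨hij.symm, Finset.mem_univ j⟩)]
  rw [e0, W_update, W_update, ej, ei]
  set R := ∏ k ∈ (Finset.univ.erase j).erase i, wt ρ (B k) ζ
  rw [wt_eq (hB i) hζ, wt_eq (hB j) hζ, wt_eq (norm_mid (hB i) (hB j)) hζ]
  have hm : (1 - 2 * (conj ((B i + B j) / 2) * ζ).re) =
      ((1 - 2 * (conj (B i) * ζ).re) + (1 - 2 * (conj (B j) * ζ).re)) / 2 := by
    have e1 : conj ((B i + B j) / 2) = ((1 / 2 : ℝ) : ℂ) * (conj (B i) + conj (B j)) := by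
      rw [map_div₀, map_add, map_ofNat]
      push_cast
      ring
    rw [e1, mul_assoc, re_ofReal_mul, add_mul, add_re]
    ring
  rw [hm]
  have := mid_identity (A_pos hρ (hB i) hζ) (A_pos hρ (hB j) hζ)
  linear_combination R * this

lemma Hf_mid {n : ℕ} {ρ : ℝ} (hρ : ρ < 1 / 2) {h : ℂ → ℝ} (hh : Continuous h)
    (B : Fin n → ℂ) (hB : ∀ k, ‖B k‖ ≤ ρ) (i j : Fin n) (hij : i ≠ j) :
    Hf ρ h B = (1 / 2) * (Hf ρ h (Function.update B j ((B i + B j) / 2)) +
      Hf ρ h (Function.update B i ((B i + B j) / 2))) := by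
  unfold Hf av
  have add := Real.circleAverage_fun_add (c := 0) (R := 1)
    (f₁ := fun z => h z * W ρ (Function.update B j ((B i + B j) / 2)) z)
    (f₂ := fun z => h z * W ρ (Function.update B i ((B i + B j) / 2)) z)
    (ci (hh.mul (W_cont1 hρ _))) (ci (hh.mul (W_cont1 hρ _)))
  rw [← add]
  have := Real.circleAverage_fun_smul (a := (1 / 2 : ℝ)) (c := 0) (R := 1)
    (f := fun z => h z * W ρ (Function.update B j ((B i + B j) / 2)) z +
      h z * W ρ (Function.update B i ((B i + B j) / 2)) z)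
  simp only [smul_eq_mul] at this
  rw [← this]
  apply Real.circleAverage_congr_sphere
  intro ζ hζ
  have hζ1 : ‖ζ‖ = 1 := by simpa using hζ
  simp only
  rw [W_mid hρ B hB i j hij ζ hζ1]
  ring

/-- merging two coordinates -/
lemma merge_one {n : ℕ} {ρ : ℝ} (hρ : ρ < 1 / 2) {h : ℂ → ℝ} (hh : Continuous h)
    (hpos : ∀ B : Fin n → ℂ, (∀ k, ‖B k‖ ≤ ρ) → 0 ≤ Hf ρ h B)
    (B : Fin n → ℂ) (hB : ∀ k, ‖B k‖ ≤ ρ) (h0 : Hf ρ h B = 0) (i j : Fin n) (hij : i ≠ j) :
    Hf ρ h (Function.update B j (B i)) = 0 := by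
  -- the sequence of midpoints
  set β : ℕ → ℂ := fun k => B i + ((1 / 2 : ℝ) ^ k : ℝ) * (B j - B i) with hβ
  have hβn : ∀ k, ‖β k‖ ≤ ρ := by
    intro k
    have e : β k = (1 - ((1 / 2 : ℝ) ^ k : ℝ)) * B i + ((1 / 2 : ℝ) ^ k : ℝ) * B j := by
      simp only [hβ]; ring
    rw [e]
    have h1 : (0 : ℝ) ≤ (1 / 2) ^ k := by positivity
    have h2 : ((1 : ℝ) / 2) ^ k ≤ 1 := pow_le_one₀ (by norm_num) (by norm_num)
    refine (norm_add_le _ _).trans ?_
    rw [norm_mul, norm_mul]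
    have e1 : ‖(1 - ((1 / 2 : ℝ) ^ k : ℝ) : ℂ)‖ = 1 - (1 / 2) ^ k := by
      rw [← ofReal_one, ← ofReal_sub, norm_real, Real.norm_eq_abs, abs_of_nonneg (by linarith)]
    have e2 : ‖(((1 / 2 : ℝ) ^ k : ℝ) : ℂ)‖ = (1 / 2) ^ k := by
      rw [norm_real, Real.norm_eq_abs, abs_of_nonneg h1]
    rw [e1, e2]
    have := hB i
    have := hB j
    nlinarith
  have hz : ∀ k, Hf ρ h (Function.update B j (β k)) = 0 := by
    intro k
    induction k with
    | zero =>
      have : β 0 = B j := by simp [hβ]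
      rw [this, Function.update_eq_self]
      exact h0
    | succ k ih =>
      set Bk := Function.update B j (β k) with hBk
      have hBkn : ∀ l, ‖Bk l‖ ≤ ρ := by
        intro l
        by_cases hl : l = j
        · subst hl; rw [hBk, Function.update_self]; exact hβn k
        · rw [hBk, Function.update_of_ne hl]; exact hB l
      have hi : Bk i = B i := by rw [hBk, Function.update_of_ne hij]
      have hj : Bk j = β k := by rw [hBk, Function.update_self]
      have hmid := Hf_mid hρ hh Bk hBkn i j hij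
      have hmn : ‖(Bk i + Bk j) / 2‖ ≤ ρ := norm_mid (hBkn i) (hBkn j)
      have p1 := hpos (Function.update Bk j ((Bk i + Bk j) / 2)) (by
        intro l
        by_cases hl : l = j
        · subst hl; rw [Function.update_self]; exact hmn
        · rw [Function.update_of_ne hl]; exact hBkn l)
      have p2 := hpos (Function.update Bk i ((Bk i + Bk j) / 2)) (by
        intro l
        by_cases hl : l = i
        · subst hl; rw [Function.update_self]; exact hmn
        · rw [Function.update_of_ne hl]; exact hBkn l)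
      rw [ih] at hmid
      have p3 : Hf ρ h (Function.update Bk j ((Bk i + Bk j) / 2)) = 0 := by linarith
      have e : Function.update Bk j ((Bk i + Bk j) / 2) = Function.update B j (β (k + 1)) := by
        rw [hi, hj, hBk, Function.update_idem]
        congr 1
        simp only [hβ]
        push_cast
        ring
      rw [← e]; exact p3
  have hcont : Continuous (fun b : ℂ => Hf ρ h (Function.update B j b)) :=
    (Hf_cont hρ hh).comp (continuous_const.update j continuous_id)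
  have hlim : Filter.Tendsto β Filter.atTop (nhds (B i)) := by
    have h1 : Filter.Tendsto (fun k : ℕ => ((1 / 2 : ℝ) ^ k : ℝ)) Filter.atTop (nhds 0) :=
      tendsto_pow_atTop_nhds_zero_of_lt_one (by norm_num) (by norm_num)
    have h2 : Filter.Tendsto (fun k : ℕ => (((1 / 2 : ℝ) ^ k : ℝ) : ℂ)) Filter.atTop (nhds 0) := by
      have := (continuous_ofReal.tendsto 0).comp h1
      rw [ofReal_zero] at this
      exact this
    have h3 := (h2.mul_const (B j - B i)).const_add (B i)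
    simpa [hβ] using h3
  have hl2 := (hcont.tendsto (B i)).comp hlim
  have hl3 : Filter.Tendsto (fun k : ℕ => Hf ρ h (Function.update B j (β k))) Filter.atTop (nhds 0) := by
    simp only [hz]; exact tendsto_const_nhds
  exact tendsto_nhds_unique hl2 hl3

lemma merge_all {n : ℕ} {ρ : ℝ} (hρ : ρ < 1 / 2) {h : ℂ → ℝ} (hh : Continuous h)
    (hpos : ∀ B : Fin n → ℂ, (∀ k, ‖B k‖ ≤ ρ) → 0 ≤ Hf ρ h B)
    (B : Fin n → ℂ) (hB : ∀ k, ‖B k‖ ≤ ρ) (h0 : Hf ρ h B = 0) (i : Fin n) :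
    Hf ρ h (fun _ : Fin n => B i) = 0 := by
  have key : ∀ s : Finset (Fin n), Hf ρ h (fun k => if k ∈ s then B i else B k) = 0 := by
    intro s
    induction s using Finset.induction_on with
    | empty => simpa using h0
    | insert a s ha ih =>
      by_cases hai : a = i
      · have : (fun k => if k ∈ insert a s then B i else B k) = (fun k => if k ∈ s then B i else B k) := by
          ext k
          by_cases hk : k = a
          · subst hk; simp [hai]
          · simp [hk]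
        rw [this]; exact ih
      · have hm := merge_one hρ hh hpos (fun k => if k ∈ s then B i else B k) (by
          intro k
          by_cases hk : k ∈ s
          · simp only [hk, if_true]; exact hB i
          · simp only [hk, if_false]; exact hB k) ih i a (Ne.symm hai)
        have e : Function.update (fun k => if k ∈ s then B i else B k) a (if i ∈ s then B i else B i) =
            (fun k => if k ∈ insert a s then B i else B k) := by
          ext k
          by_cases hk : k = a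
          · subst hk; simp
          · rw [Function.update_of_ne hk]; simp [hk]
        rw [← e]; exact hm
  have := key Finset.univ
  simpa using this

/-- weight in Poincare coordinates -/
lemma wt_poincare {r ρ : ℝ} (hr0 : 0 < r) (hr1 : r < 1) (hρ : ρ = r / (1 + r ^ 2)) (l ζ : ℂ) (hl : ‖l‖ ≤ r)
    (hζ : ‖ζ‖ = 1) :
    ‖l / ((1 + ‖l‖ ^ 2 : ℝ) : ℂ)‖ ≤ ρ ∧
    wt ρ (l / ((1 + ‖l‖ ^ 2 : ℝ) : ℂ)) ζ = (1 + ‖l‖ ^ 2) / ‖ζ - l‖ ^ 2 := by
  have hl0 := norm_nonneg l
  have hpos : (0 : ℝ) < 1 + ‖l‖ ^ 2 := by positivity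
  have hle : ‖l / ((1 + ‖l‖ ^ 2 : ℝ) : ℂ)‖ ≤ ρ := by
    rw [norm_div, norm_real, Real.norm_eq_abs, abs_of_pos hpos, hρ, div_le_div_iff₀ hpos (by positivity)]
    nlinarith [mul_nonneg (sub_nonneg.mpr hl) (by nlinarith : (0 : ℝ) ≤ 1 - ‖l‖ * r)]
  refine ⟨hle, ?_⟩
  rw [wt_eq hle hζ]
  have e1 : ‖ζ - l‖ ^ 2 = 1 + ‖l‖ ^ 2 - 2 * (conj l * ζ).re := by
    rw [← Complex.normSq_eq_norm_sq, Complex.normSq_sub, Complex.normSq_eq_norm_sq,
      Complex.normSq_eq_norm_sq, hζ]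
    rw [mul_comm (conj l) ζ]
    ring
  have e2 : (conj (l / ((1 + ‖l‖ ^ 2 : ℝ) : ℂ)) * ζ).re = (conj l * ζ).re / (1 + ‖l‖ ^ 2) := by
    rw [map_div₀, Complex.conj_ofReal, div_mul_eq_mul_div, Complex.div_ofReal_re]
  rw [e2, e1]
  have h3 : 1 - 2 * ((conj l * ζ).re / (1 + ‖l‖ ^ 2)) = (1 + ‖l‖ ^ 2 - 2 * (conj l * ζ).re) / (1 + ‖l‖ ^ 2) := by
    field_simp
  rw [h3, inv_div]

lemma exists_poincare {r ρ : ℝ} (hr0 : 0 < r) (hr1 : r < 1) (hρ : ρ = r / (1 + r ^ 2)) (β : ℂ)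
    (hβ : ‖β‖ < ρ) : ∃ l : ℂ, ‖l‖ < r ∧ β = l / ((1 + ‖l‖ ^ 2 : ℝ) : ℂ) := by
  have hρ2 : ρ < 1 / 2 := by
    rw [hρ, div_lt_div_iff₀ (by positivity) (by norm_num)]
    nlinarith [sq_nonneg (1 - r), mul_pos (sub_pos.mpr hr1) (sub_pos.mpr hr1)]
  set b := ‖β‖ with hb
  have hb0 : 0 ≤ b := norm_nonneg _
  have hb2 : 0 < 1 - 4 * b ^ 2 := by nlinarith
  set s := Real.sqrt (1 - 4 * b ^ 2) with hs
  have hs0 : 0 ≤ s := Real.sqrt_nonneg _
  have hs2 : s ^ 2 = 1 - 4 * b ^ 2 := Real.sq_sqrt hb2.le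
  have h1s : 0 < 1 + s := by linarith
  set c : ℝ := 2 / (1 + s) with hc
  have hc0 : 0 < c := by positivity
  have hn : ‖(c : ℂ) * β‖ = c * b := by
    rw [norm_mul, norm_real, Real.norm_eq_abs, abs_of_pos hc0]
  have hsq : 1 + (c * b) ^ 2 = c := by
    rw [hc]
    field_simp
    nlinarith
  refine ⟨(c : ℂ) * β, ?_, ?_⟩
  · rw [hn]
    by_contra hcon
    push Not at hcon
    have ht1 : c * b < 1 := by
      rw [hc, div_mul_eq_mul_div, div_lt_one h1s]; linarith
    have hbe : b = (c * b) / (1 + (c * b) ^ 2) := by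
      rw [hsq]; field_simp
    have h2 : b < r / (1 + r ^ 2) := by rw [← hρ]; exact hβ
    rw [hbe, div_lt_div_iff₀ (by positivity) (by positivity)] at h2
    have h3 : 0 < 1 - (c * b) * r := by nlinarith
    nlinarith [mul_nonneg (sub_nonneg.mpr hcon) h3.le]
  · rw [hn, hsq]
    rw [mul_div_cancel_left₀]
    exact_mod_cast hc0.ne'

/-- moving one coordinate to the boundary -/
lemma radial {n : ℕ} {r ρ : ℝ} (hr0 : 0 < r) (hr1 : r < 1) (hρ : ρ = r / (1 + r ^ 2))
    {h : ℂ → ℝ} (hh : Continuous h)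
    (hpos : ∀ B : Fin n → ℂ, (∀ k, ‖B k‖ ≤ ρ) → 0 ≤ Hf ρ h B)
    (B : Fin n → ℂ) (hB : ∀ k, ‖B k‖ ≤ ρ) (h0 : Hf ρ h B = 0) (i : Fin n) (hi : ‖B i‖ < ρ) :
    Hf ρ h (Function.update B i (ρ : ℂ)) = 0 := by
  have hρ2 : ρ < 1 / 2 := by
    rw [hρ, div_lt_div_iff₀ (by positivity) (by norm_num)]
    nlinarith [sq_nonneg (1 - r), mul_pos (sub_pos.mpr hr1) (sub_pos.mpr hr1)]
  obtain ⟨l0, hl0, hl0B⟩ := exists_poincare hr0 hr1 hρ (B i) hi
  set g : ℂ → ℝ := fun ζ => h ζ * ∏ k ∈ Finset.univ.erase i, wt ρ (B k) ζ with hg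
  have hgc : Continuous g := by
    apply hh.mul
    apply continuous_finsetProd
    intro k _
    exact wt_cont1 hρ2 (B k)
  have hgc' : Continuous (fun ζ => (g ζ : ℂ)) := continuous_ofReal.comp hgc
  set K : ℂ → ℂ := fun w => Real.circleAverage (fun ζ => herglotzRieszKernel 0 w ζ • (g ζ : ℂ)) 0 1 with hK
  have hKd : DifferentiableOn ℂ K (ball 0 1) :=
    differentiableOn_circleAverage_herglotzRieszKernel_smul (ci hgc')
  -- relation of K to Hf
  have hrel : ∀ l : ℂ, ‖l‖ ≤ r → Hf ρ h (Function.update B i (l / ((1 + ‖l‖ ^ 2 : ℝ) : ℂ))) =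
      ((1 + ‖l‖ ^ 2) / (1 - ‖l‖ ^ 2)) * (K l).re := by
    intro l hl
    have hl1 : l ∈ ball (0 : ℂ) 1 := by rw [mem_ball_zero_iff]; linarith
    have hln := norm_nonneg l
    have hd : 0 < 1 - ‖l‖ ^ 2 := by nlinarith
    rw [hK]
    simp only
    rw [re_circleAverage_herglotzRieszKernel_smul (ci hgc) hl1]
    unfold Hf av
    rw [← smul_eq_mul, ← Real.circleAverage_fun_smul]
    apply Real.circleAverage_congr_sphere
    intro ζ hζ
    have hζ1 : ‖ζ‖ = 1 := by simpa using hζ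
    have hne : ζ - l ≠ 0 := by
      intro h
      have : ζ = l := by linear_combination h
      rw [this] at hζ1; linarith
    have hne2 : 0 < ‖ζ - l‖ ^ 2 := by positivity
    simp only [smul_eq_mul, Pi.smul_apply', Function.comp_apply]
    rw [W_update, (wt_poincare hr0 hr1 hρ l ζ hl hζ1).2]
    have hp : (herglotzRieszKernel 0 l ζ).re = (1 - ‖l‖ ^ 2) / ‖ζ - l‖ ^ 2 := by
      have := congrFun (poissonKernel_eq_re_herglotzRieszKernel (c := 0) (w := l)) ζ
      rw [Function.comp_apply] at this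
      rw [← this, poissonKernel_def]
      simp [hζ1]
    rw [hp, hg]
    simp only
    field_simp
  have hU0 : ∀ l : ℂ, ‖l‖ ≤ r → 0 ≤ (K l).re := by
    intro l hl
    have hln := norm_nonneg l
    have hd : 0 < 1 - ‖l‖ ^ 2 := by nlinarith
    have h1 := hrel l hl
    have h2 := hpos (Function.update B i (l / ((1 + ‖l‖ ^ 2 : ℝ) : ℂ))) (by
      intro k
      by_cases hk : k = i
      · subst hk; rw [Function.update_self]; exact (wt_poincare hr0 hr1 hρ l 1 hl (by simp)).1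
      · rw [Function.update_of_ne hk]; exact hB k)
    rw [h1] at h2
    exact (mul_nonneg_iff_of_pos_left (by positivity)).mp h2
  have hUl0 : (K l0).re = 0 := by
    have h1 := hrel l0 hl0.le
    rw [← hl0B, Function.update_eq_self, h0] at h1
    have hln := norm_nonneg l0
    have hd : 0 < 1 - ‖l0‖ ^ 2 := by nlinarith
    have h3 : (1 + ‖l0‖ ^ 2) / (1 - ‖l0‖ ^ 2) ≠ 0 := by positivity
    rcases mul_eq_zero.mp h1.symm with h | h
    · exact absurd h h3
    · exact h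
  -- maximum principle
  have hsub : ball (0 : ℂ) r ⊆ ball 0 1 := ball_subset_ball hr1.le
  have hΦ : DifferentiableOn ℂ (fun w => Complex.exp (-K w)) (ball 0 r) :=
    (hKd.mono hsub).neg.cexp
  have hmax : IsMaxOn (norm ∘ fun w => Complex.exp (-K w)) (ball 0 r) l0 := by
    intro w hw
    simp only [Function.comp_apply, Set.mem_ofPred_eq, Complex.norm_exp, neg_re, hUl0]
    apply Real.exp_le_exp.mpr
    have := hU0 w (mem_ball_zero_iff.mp hw).le
    linarith
  have heq := Complex.norm_eqOn_of_isPreconnected_of_isMaxOn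
    (convex_ball (0 : ℂ) r).isPreconnected isOpen_ball hΦ (mem_ball_zero_iff.mpr hl0) hmax
  have hz : Set.EqOn (fun w => (K w).re) (fun _ => 0) (ball 0 r) := by
    intro w hw
    have := heq hw
    simp only [Function.comp_apply, Function.const_apply, Complex.norm_exp, neg_re, hUl0] at this
    have h2 := Real.exp_injective this
    simp only
    linarith
  have hKc : ContinuousOn (fun w => (K w).re) (closedBall 0 r) :=
    continuous_re.comp_continuousOn (hKd.continuousOn.mono (closedBall_subset_ball hr1))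
  have hz2 : Set.EqOn (fun w => (K w).re) (fun _ => 0) (closedBall 0 r) := by
    apply hz.of_subset_closure hKc continuousOn_const ball_subset_closedBall
    rw [closure_ball (0 : ℂ) hr0.ne']
  have hfin := hz2 (show (r : ℂ) ∈ closedBall (0 : ℂ) r by
    rw [mem_closedBall_zero_iff, norm_real, Real.norm_eq_abs, abs_of_pos hr0])
  simp only at hfin
  have h4 := hrel (r : ℂ) (by rw [norm_real, Real.norm_eq_abs, abs_of_pos hr0])
  rw [hfin, mul_zero] at h4
  have e : (r : ℂ) / ((1 + ‖(r : ℂ)‖ ^ 2 : ℝ) : ℂ) = (ρ : ℂ) := by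
    rw [norm_real, Real.norm_eq_abs, abs_of_pos hr0, hρ]
    push_cast
    rfl
  rw [e] at h4
  exact h4

/-- Combination: zero at a constant configuration on the boundary. -/
lemma exists_const {n : ℕ} {r ρ : ℝ} (hr0 : 0 < r) (hr1 : r < 1) (hρ : ρ = r / (1 + r ^ 2))
    {h : ℂ → ℝ} (hh : Continuous h)
    (hpos : ∀ B : Fin n → ℂ, (∀ k, ‖B k‖ ≤ ρ) → 0 ≤ Hf ρ h B)
    (B : Fin n → ℂ) (hB : ∀ k, ‖B k‖ ≤ ρ) (h0 : Hf ρ h B = 0) (i : Fin n) :
    ∃ β : ℂ, ‖β‖ = ρ ∧ Hf ρ h (fun _ : Fin n => β) = 0 := by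
  have hρ2 : ρ < 1 / 2 := by
    rw [hρ, div_lt_div_iff₀ (by positivity) (by norm_num)]
    nlinarith [sq_nonneg (1 - r), mul_pos (sub_pos.mpr hr1) (sub_pos.mpr hr1)]
  have hρ0 : 0 < ρ := by rw [hρ]; positivity
  rcases eq_or_lt_of_le (hB i) with hi | hi
  · exact ⟨B i, hi, merge_all hρ2 hh hpos B hB h0 i⟩
  · have h1 := radial hr0 hr1 hρ hh hpos B hB h0 i hi
    refine ⟨(ρ : ℂ), by rw [norm_real, Real.norm_eq_abs, abs_of_pos hρ0], ?_⟩
    have h2 := merge_all hρ2 hh hpos (Function.update B i (ρ : ℂ)) (by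
      intro k
      by_cases hk : k = i
      · subst hk; rw [Function.update_self, norm_real, Real.norm_eq_abs, abs_of_pos hρ0]
      · rw [Function.update_of_ne hk]; exact hB k) h1 i
    rwa [Function.update_self] at h2

end Pool.Agent.Helper654.Ptak
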