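import Pool.Agent.Helper654.PtakA

set_option autoImplicit false
open Complex Metric Set Polynomial
open scoped ComplexConjugate

namespace Pool.Agent.Helper654.Ptak

/-- polynomial with coefficient vector `u` -/
noncomputable def pol {n : ℕ} (u : Fin n → ℂ) (ζ : ℂ) : ℂ := ∑ j, u j * ζ ^ (j : ℕ)

noncomputable def gq {n : ℕ} (u v : Fin n → ℂ) (ζ : ℂ) : ℝ := (‖pol u ζ‖ ^ 2 + ‖pol v ζ‖ ^ 2) / 2

noncomputable def jq {n : ℕ} (F : ℂ → ℂ) (u v : Fin n → ℂ) (ζ : ℂ) : ℝ :=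
  (F ζ * pol u ζ * conj (pol v ζ)).re

lemma pol_cont {n : ℕ} : Continuous (fun p : (Fin n → ℂ) × ℂ => pol p.1 p.2) := by
  unfold pol
  fun_prop

lemma pol_cont1 {n : ℕ} (u : Fin n → ℂ) : Continuous (fun ζ : ℂ => pol u ζ) := by
  unfold pol
  fun_prop

lemma gq_cont {n : ℕ} :
    Continuous (fun p : ((Fin n → ℂ) × (Fin n → ℂ)) × ℂ => gq p.1.1 p.1.2 p.2) := by
  unfold gq pol
  fun_prop

lemma jq_cont {n : ℕ} {F : ℂ → ℂ} (hF : Continuous F) :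
    Continuous (fun p : ((Fin n → ℂ) × (Fin n → ℂ)) × ℂ => jq F p.1.1 p.1.2 p.2) := by
  unfold jq pol
  fun_prop

lemma gq_cont1 {n : ℕ} (u v : Fin n → ℂ) : Continuous (fun ζ : ℂ => gq u v ζ) := by
  unfold gq pol
  fun_prop

lemma jq_cont1 {n : ℕ} {F : ℂ → ℂ} (hF : Continuous F) (u v : Fin n → ℂ) :
    Continuous (fun ζ : ℂ => jq F u v ζ) := by
  unfold jq pol
  fun_prop

lemma Hf_cont2 {n : ℕ} {ρ : ℝ} (hρ : ρ < 1 / 2) {Y : Type*} [TopologicalSpace Y] {k : Y → ℂ → ℝ}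
    (hk : Continuous (fun p : Y × ℂ => k p.1 p.2)) :
    Continuous (fun p : (Fin n → ℂ) × Y => Hf ρ (k p.2) p.1) := by
  have h1 : Continuous (fun p : ((Fin n → ℂ) × Y) × ℝ => W ρ p.1.1 (circleMap 0 1 p.2)) := by
    have h1 : Continuous fun p : ((Fin n → ℂ) × Y) × ℝ => (p.1.1, circleMap 0 1 p.2) := by fun_prop
    have h2 := (W_cont hρ).comp h1
    exact h2
  have h3 : Continuous (fun p : ((Fin n → ℂ) × Y) × ℝ => k p.1.2 (circleMap 0 1 p.2)) := by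
    have h1 : Continuous fun p : ((Fin n → ℂ) × Y) × ℝ => (p.1.2, circleMap 0 1 p.2) := by fun_prop
    have h2 := hk.comp h1
    exact h2
  have h2 : Continuous (fun p : ((Fin n → ℂ) × Y) × ℝ =>
      k p.1.2 (circleMap 0 1 p.2) * W ρ p.1.1 (circleMap 0 1 p.2)) := h3.mul h1
  have hI : Continuous (fun q : (Fin n → ℂ) × Y =>
      ∫ θ in (0 : ℝ)..(2 * Real.pi), k q.2 (circleMap 0 1 θ) * W ρ q.1 (circleMap 0 1 θ)) :=
    intervalIntegral.continuous_parametric_intervalIntegral_of_continuous'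
      (f := fun (q : (Fin n → ℂ) × Y) (θ : ℝ) => k q.2 (circleMap 0 1 θ) * W ρ q.1 (circleMap 0 1 θ)) h2 _ _
  exact hI.const_smul ((2 * Real.pi)⁻¹)

/-- strict positivity of averages -/
lemma av_pos {k : ℂ → ℝ} (hk : Continuous k) (h0 : ∀ ζ, 0 ≤ k ζ) (ζ0 : ℂ) (hζ : ‖ζ0‖ = 1) (hp : 0 < k ζ0) :
    0 < av k := by
  unfold av Real.circleAverage
  have hpi : 0 < 2 * Real.pi := by positivity
  apply smul_pos (inv_pos.mpr hpi)
  have hc : Continuous fun θ : ℝ => k (circleMap 0 1 θ) := hk.comp (continuous_circleMap 0 1)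
  obtain ⟨θ, hθ, hθ2⟩ : ∃ θ ∈ Set.Ioc (0 : ℝ) (2 * Real.pi), circleMap 0 1 θ = ζ0 := by
    have hmem : ζ0 ∈ sphere (0 : ℂ) |1| := by simp [hζ]
    rw [← image_circleMap_Ioc] at hmem
    exact hmem
  apply intervalIntegral.integral_pos hpi hc.continuousOn
  · intro x _; exact h0 _
  · exact ⟨θ, ⟨hθ.1.le, hθ.2⟩, by rw [hθ2]; exact hp⟩

lemma circle_infinite : (sphere (0 : ℂ) 1).Infinite := by
  have h : Set.InjOn (fun x : ℝ => (x : ℂ) + (Real.sqrt (1 - x ^ 2) : ℂ) * Complex.I) (Set.Icc (-1 : ℝ) 1) := by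
    intro x _ y _ hxy
    have := congrArg Complex.re hxy
    simpa using this
  have h2 := (Set.Icc_infinite (by norm_num : (-1 : ℝ) < 1)).image h
  apply h2.mono
  rintro _ ⟨x, hx, rfl⟩
  rw [mem_sphere_zero_iff_norm]
  have h3 : 0 ≤ 1 - x ^ 2 := by nlinarith [hx.1, hx.2]
  have h4 : ‖(x : ℂ) + (Real.sqrt (1 - x ^ 2) : ℂ) * Complex.I‖ ^ 2 = 1 := by
    rw [Complex.sq_norm, Complex.normSq_add_mul_I, Real.sq_sqrt h3]; ring
  have h5 := norm_nonneg ((x : ℂ) + (Real.sqrt (1 - x ^ 2) : ℂ) * Complex.I)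
  nlinarith

noncomputable def toP {n : ℕ} (u : Fin n → ℂ) : ℂ[X] := ∑ j, C (u j) * X ^ (j : ℕ)

lemma toP_eval {n : ℕ} (u : Fin n → ℂ) (ζ : ℂ) : (toP u).eval ζ = pol u ζ := by
  unfold toP pol
  rw [eval_finsetSum]
  simp

lemma toP_coeff {n : ℕ} (u : Fin n → ℂ) (i : Fin n) : (toP u).coeff i = u i := by
  unfold toP
  rw [finsetSum_coeff, Finset.sum_eq_single i]
  · simp
  · intro j _ hj
    rw [coeff_C_mul, coeff_X_pow, if_neg (fun h => hj (Fin.ext h.symm)), mul_zero]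
  · intro h; exact absurd (Finset.mem_univ i) h

lemma exists_pol_ne {n : ℕ} (u : Fin n → ℂ) (hu : u ≠ 0) : ∃ ζ : ℂ, ‖ζ‖ = 1 ∧ pol u ζ ≠ 0 := by
  by_contra hcon
  push Not at hcon
  apply hu
  have : toP u = 0 := by
    apply Polynomial.eq_zero_of_infinite_isRoot
    apply circle_infinite.mono
    intro ζ hζ
    show (toP u).eval ζ = 0
    rw [toP_eval]
    exact hcon ζ (by simpa using hζ)
  ext i
  rw [← toP_coeff u i, this]
  simp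

lemma G_pos {n : ℕ} {ρ : ℝ} (hρ : ρ < 1 / 2) (B : Fin n → ℂ) (u v : Fin n → ℂ) (h : u ≠ 0 ∨ v ≠ 0) :
    0 < Hf ρ (gq u v) B := by
  have hc : Continuous fun ζ => gq u v ζ * W ρ B ζ := (gq_cont1 u v).mul (W_cont1 hρ B)
  have h0 : ∀ ζ, 0 ≤ gq u v ζ * W ρ B ζ := fun ζ =>
    mul_nonneg (by unfold gq; positivity) (W_pos hρ B ζ).le
  rcases h with h | h
  · obtain ⟨ζ, hζ, hne⟩ := exists_pol_ne u h
    apply av_pos hc h0 ζ hζ
    apply mul_pos _ (W_pos hρ B ζ)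
    unfold gq
    have : 0 < ‖pol u ζ‖ := norm_pos_iff.mpr hne
    positivity
  · obtain ⟨ζ, hζ, hne⟩ := exists_pol_ne v h
    apply av_pos hc h0 ζ hζ
    apply mul_pos _ (W_pos hρ B ζ)
    unfold gq
    have : 0 < ‖pol v ζ‖ := norm_pos_iff.mpr hne
    positivity

lemma Hf_smul {n : ℕ} {ρ : ℝ} (t : ℝ) (k : ℂ → ℝ) (B : Fin n → ℂ) :
    Hf ρ (fun ζ => t * k ζ) B = t * Hf ρ k B := by
  unfold Hf av
  rw [← smul_eq_mul, ← Real.circleAverage_fun_smul]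
  apply Real.circleAverage_congr_sphere
  intro ζ _
  simp only [smul_eq_mul]
  ring

lemma Hf_sub {n : ℕ} {ρ : ℝ} (hρ : ρ < 1 / 2) {k l : ℂ → ℝ} (hk : Continuous k) (hl : Continuous l)
    (B : Fin n → ℂ) :
    Hf ρ (fun ζ => k ζ - l ζ) B = Hf ρ k B - Hf ρ l B := by
  unfold Hf av
  have := Real.circleAverage_fun_sub (c := 0) (R := 1) (f₁ := fun ζ => k ζ * W ρ B ζ)
    (f₂ := fun ζ => l ζ * W ρ B ζ) (ci (hk.mul (W_cont1 hρ B))) (ci (hl.mul (W_cont1 hρ B)))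
  rw [← this]
  apply Real.circleAverage_congr_sphere
  intro ζ _
  simp only
  ring

lemma pol_smul {n : ℕ} (t : ℝ) (u : Fin n → ℂ) (ζ : ℂ) : pol (t • u) ζ = (t : ℂ) * pol u ζ := by
  unfold pol
  rw [Finset.mul_sum]
  apply Finset.sum_congr rfl
  intro j _
  simp
  ring

lemma gq_smul {n : ℕ} (t : ℝ) (u v : Fin n → ℂ) (ζ : ℂ) : gq (t • u) (t • v) ζ = t ^ 2 * gq u v ζ := by
  unfold gq
  rw [pol_smul, pol_smul, norm_mul, norm_mul, norm_real, mul_pow, mul_pow, Real.norm_eq_abs, sq_abs]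
  ring

lemma jq_smul {n : ℕ} (F : ℂ → ℂ) (t : ℝ) (u v : Fin n → ℂ) (ζ : ℂ) :
    jq F (t • u) (t • v) ζ = t ^ 2 * jq F u v ζ := by
  unfold jq
  rw [pol_smul, pol_smul, map_mul, conj_ofReal]
  have : F ζ * ((t : ℂ) * pol u ζ) * ((t : ℂ) * conj (pol v ζ)) =
      ((t ^ 2 : ℝ) : ℂ) * (F ζ * pol u ζ * conj (pol v ζ)) := by push_cast; ring
  rw [this, re_ofReal_mul]

/-- the maximum ratio over the compact parameter set -/
lemma exists_max_ratio {n : ℕ} (hn : 0 < n) {ρ : ℝ} (hρ0 : 0 < ρ) (hρ2 : ρ < 1 / 2)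
    {F : ℂ → ℂ} (hF : Continuous F) :
    ∃ B : Fin n → ℂ, ∃ u v : Fin n → ℂ, (∀ k, ‖B k‖ ≤ ρ) ∧ ‖(u, v)‖ = 1 ∧
      ∀ B' : Fin n → ℂ, ∀ u' v' : Fin n → ℂ, (∀ k, ‖B' k‖ ≤ ρ) → ‖(u', v')‖ = 1 →
        Hf ρ (jq F u' v') B' / Hf ρ (gq u' v') B' ≤ Hf ρ (jq F u v) B / Hf ρ (gq u v) B := by
  set Kset : Set ((Fin n → ℂ) × ((Fin n → ℂ) × (Fin n → ℂ))) :=
    (Set.pi Set.univ (fun _ : Fin n => closedBall (0 : ℂ) ρ)) ×ˢ sphere 0 1 with hKset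
  have hKc : IsCompact Kset :=
    (isCompact_univ_pi (fun _ => isCompact_closedBall _ _)).prod (isCompact_sphere _ _)
  have hne : Nonempty (Fin n) := ⟨⟨0, hn⟩⟩
  have hKne : Kset.Nonempty := by
    refine ⟨(fun _ => 0, (fun _ => 1, 0)), ?_, ?_⟩
    · intro k _
      simp [hρ0.le]
    · rw [mem_sphere_zero_iff_norm, Prod.norm_def]
      simp [Pi.norm_def, Finset.sup_const Finset.univ_nonempty]
  set gg : (Fin n → ℂ) × ((Fin n → ℂ) × (Fin n → ℂ)) → ℝ := fun p => Hf ρ (gq p.2.1 p.2.2) p.1 with hgg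
  set jj : (Fin n → ℂ) × ((Fin n → ℂ) × (Fin n → ℂ)) → ℝ := fun p => Hf ρ (jq F p.2.1 p.2.2) p.1 with hjj
  have hgc : Continuous gg :=
    Hf_cont2 hρ2 (k := fun (y : (Fin n → ℂ) × (Fin n → ℂ)) ζ => gq y.1 y.2 ζ) gq_cont
  have hjc : Continuous jj :=
    Hf_cont2 hρ2 (k := fun (y : (Fin n → ℂ) × (Fin n → ℂ)) ζ => jq F y.1 y.2 ζ) (jq_cont hF)
  have hne0 : ∀ p ∈ Kset, p.2.1 ≠ 0 ∨ p.2.2 ≠ 0 := by
    rintro ⟨B, u, v⟩ ⟨_, hp⟩
    by_contra hcon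
    push Not at hcon
    simp only at hcon
    rw [hcon.1, hcon.2] at hp
    simp at hp
  have hpos : ∀ p ∈ Kset, 0 < gg p := fun p hp => G_pos hρ2 _ _ _ (hne0 p hp)
  have hcont : ContinuousOn (fun p => jj p / gg p) Kset :=
    hjc.continuousOn.div hgc.continuousOn (fun p hp => (hpos p hp).ne')
  obtain ⟨p, hp, hmax⟩ := hKc.exists_isMaxOn hKne hcont
  have hmax' := isMaxOn_iff.mp hmax
  refine ⟨p.1, p.2.1, p.2.2, ?_, ?_, ?_⟩
  · intro k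
    have := hp.1 k (Set.mem_univ k)
    rwa [mem_closedBall_zero_iff] at this
  · have := hp.2
    rwa [mem_sphere_zero_iff_norm] at this
  · intro B' u' v' hB' huv
    have hmem : (B', (u', v')) ∈ Kset :=
      ⟨fun k _ => by rw [mem_closedBall_zero_iff]; exact hB' k, by rw [mem_sphere_zero_iff_norm]; exact huv⟩
    exact hmax' (B', (u', v')) hmem

lemma ne_of_norm {n : ℕ} {u v : Fin n → ℂ} (h : ‖(u, v)‖ = 1) : u ≠ 0 ∨ v ≠ 0 := by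
  by_contra hcon
  push Not at hcon
  rw [hcon.1, hcon.2] at h
  simp at h

lemma zero_case {n : ℕ} {ρ M : ℝ} (F : ℂ → ℂ) (B : Fin n → ℂ) :
    Hf ρ (jq F (0 : Fin n → ℂ) 0) B ≤ M * Hf ρ (gq (0 : Fin n → ℂ) 0) B := by
  have e1 : jq F (0 : Fin n → ℂ) 0 = fun _ => 0 := by
    ext ζ; simp [jq, pol]
  have e2 : gq (0 : Fin n → ℂ) 0 = fun _ => 0 := by
    ext ζ; simp [gq, pol]
  rw [e1, e2]
  unfold Hf av
  simp [Real.circleAverage_const]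

/-- existence of the extremal value -/
theorem exists_M {n : ℕ} (hn : 0 < n) {r ρ : ℝ} (hr0 : 0 < r) (hr1 : r < 1) (hρ : ρ = r / (1 + r ^ 2))
    {F : ℂ → ℂ} (hF : Continuous F) :
    ∃ M : ℝ, (∀ B : Fin n → ℂ, (∀ k, ‖B k‖ ≤ ρ) → ∀ u v : Fin n → ℂ,
        Hf ρ (jq F u v) B ≤ M * Hf ρ (gq u v) B) ∧
      ∃ β : ℂ, ‖β‖ = ρ ∧ ∃ u v : Fin n → ℂ, (u ≠ 0 ∨ v ≠ 0) ∧
        Hf ρ (jq F u v) (fun _ : Fin n => β) = M * Hf ρ (gq u v) (fun _ : Fin n => β) := by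
  have hρ2 : ρ < 1 / 2 := by
    rw [hρ, div_lt_div_iff₀ (by positivity) (by norm_num)]
    nlinarith [sq_nonneg (1 - r), mul_pos (sub_pos.mpr hr1) (sub_pos.mpr hr1)]
  have hρ0 : 0 < ρ := by rw [hρ]; positivity
  obtain ⟨B, u, v, hB, huv, hmax⟩ := exists_max_ratio hn hρ0 hρ2 hF
  have hgu : 0 < Hf ρ (gq u v) B := G_pos hρ2 _ _ _ (ne_of_norm huv)
  obtain ⟨M, hM⟩ : ∃ M : ℝ, M = Hf ρ (jq F u v) B / Hf ρ (gq u v) B := ⟨_, rfl⟩
  rw [← hM] at hmax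
  have hall : ∀ B : Fin n → ℂ, (∀ k, ‖B k‖ ≤ ρ) → ∀ u v : Fin n → ℂ,
        Hf ρ (jq F u v) B ≤ M * Hf ρ (gq u v) B := by
    intro B hB u v
    by_cases huv : (u, v) = (0 : (Fin n → ℂ) × (Fin n → ℂ))
    · have hu : u = 0 := congrArg Prod.fst huv
      have hv : v = 0 := congrArg Prod.snd huv
      subst hu; subst hv
      exact zero_case F B
    · obtain ⟨t, ht⟩ : ∃ t : ℝ, t = ‖(u, v)‖ := ⟨_, rfl⟩
      have ht0 : 0 < t := by rw [ht]; exact norm_pos_iff.mpr huv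
      have hmem : ‖((t⁻¹ • u, t⁻¹ • v) : (Fin n → ℂ) × (Fin n → ℂ))‖ = 1 := by
        have : ((t⁻¹ • u, t⁻¹ • v) : (Fin n → ℂ) × (Fin n → ℂ)) = t⁻¹ • (u, v) := rfl
        rw [this, norm_smul, Real.norm_eq_abs, abs_of_pos (inv_pos.mpr ht0), ← ht]
        exact inv_mul_cancel₀ ht0.ne'
      have h1 := hmax B _ _ hB hmem
      have hg0 : 0 < Hf ρ (gq (t⁻¹ • u) (t⁻¹ • v)) B := G_pos hρ2 _ _ _ (ne_of_norm hmem)
      rw [div_le_iff₀ hg0] at h1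
      have e1 : Hf ρ (jq F (t⁻¹ • u) (t⁻¹ • v)) B = (t⁻¹) ^ 2 * Hf ρ (jq F u v) B := by
        rw [← Hf_smul]
        congr 1
        ext ζ
        rw [jq_smul]
      have e2 : Hf ρ (gq (t⁻¹ • u) (t⁻¹ • v)) B = (t⁻¹) ^ 2 * Hf ρ (gq u v) B := by
        rw [← Hf_smul]
        congr 1
        ext ζ
        rw [gq_smul]
      rw [e1, e2] at h1
      have h2 : (0 : ℝ) < (t⁻¹) ^ 2 := by positivity
      have h3 : (t⁻¹) ^ 2 * Hf ρ (jq F u v) B ≤ (t⁻¹) ^ 2 * (M * Hf ρ (gq u v) B) := by linarith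
      exact le_of_mul_le_mul_left h3 h2
  refine ⟨M, hall, ?_⟩
  have hc1 : Continuous (fun ζ => M * gq u v ζ) := continuous_const.mul (gq_cont1 u v)
  have hsub : ∀ B' : Fin n → ℂ, Hf ρ (fun ζ => M * gq u v ζ - jq F u v ζ) B' =
      M * Hf ρ (gq u v) B' - Hf ρ (jq F u v) B' := by
    intro B'
    rw [Hf_sub hρ2 hc1 (jq_cont1 hF u v), Hf_smul]
  have hzero : Hf ρ (fun ζ => M * gq u v ζ - jq F u v ζ) B = 0 := by
    rw [hsub, hM, div_mul_cancel₀ _ hgu.ne', sub_self]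
  have hpos' : ∀ B' : Fin n → ℂ, (∀ k, ‖B' k‖ ≤ ρ) → 0 ≤ Hf ρ (fun ζ => M * gq u v ζ - jq F u v ζ) B' := by
    intro B' hB'
    rw [hsub]
    have := hall B' hB' u v
    linarith
  have hc2 : Continuous (fun ζ => M * gq u v ζ - jq F u v ζ) := hc1.sub (jq_cont1 hF u v)
  obtain ⟨β, hβ, hβ0⟩ := exists_const hr0 hr1 hρ hc2 hpos' B hB hzero ⟨0, hn⟩
  refine ⟨β, hβ, u, v, ne_of_norm huv, ?_⟩
  rw [hsub] at hβ0
  linarith

end Pool.Agent.Helper654.Ptak
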