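import Pool.Agent.Helper654.PtakB

set_option autoImplicit false
open Complex Metric Set Polynomial
open scoped ComplexConjugate

namespace Pool.Agent.Helper654.Ptak

lemma exists_iso {V : Type*} [AddCommGroup V] [Module ℂ V] [FiniteDimensional ℂ V] {n : ℕ}
    (hn : Module.finrank ℂ V = n) (c : InnerProductSpace.Core ℂ V) :
    ∃ Φ : V ≃ₗ[ℂ] EuclideanSpace ℂ (Fin n), ∀ u v, inner ℂ (Φ u) (Φ v) = c.inner u v := by
  let : NormedAddCommGroup V := c.toNormedAddCommGroup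
  let : InnerProductSpace ℂ V := InnerProductSpace.ofCore c.toCore
  let b := (stdOrthonormalBasis ℂ V).reindex (finCongr hn)
  exact ⟨b.repr.toLinearEquiv, fun u v => b.repr.inner_map_map u v⟩

lemma av_congr {E : Type*} [NormedAddCommGroup E] [NormedSpace ℝ E] {f g : ℂ → E}
    (h : ∀ ζ : ℂ, ‖ζ‖ = 1 → f ζ = g ζ) : av f = av g := by
  unfold av
  apply Real.circleAverage_congr_sphere
  intro ζ hζ
  exact h ζ (by simpa using hζ)

lemma av_add {E : Type*} [NormedAddCommGroup E] [NormedSpace ℝ E] {f g : ℂ → E}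
    (hf : Continuous f) (hg : Continuous g) : av (fun ζ => f ζ + g ζ) = av f + av g :=
  Real.circleAverage_fun_add (ci hf) (ci hg)

lemma av_const_mul (c : ℂ) (f : ℂ → ℂ) : av (fun ζ => c * f ζ) = c * av f := by
  have := Real.circleAverage_fun_smul (a := c) (f := f) (c := 0) (R := 1)
  exact this

lemma av_clm {E F : Type*} [NormedAddCommGroup E] [NormedSpace ℝ E] [NormedAddCommGroup F] [NormedSpace ℝ F]
    [CompleteSpace E] [CompleteSpace F] (L : E →L[ℝ] F)
    {f : ℂ → E} (hf : CircleIntegrable f 0 1) : av (fun ζ => L (f ζ)) = L (av f) :=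
  L.circleAverage_comp_comm hf

lemma av_conj {f : ℂ → ℂ} (hf : Continuous f) : av (fun ζ => conj (f ζ)) = conj (av f) :=
  av_clm (Complex.conjCLE : ℂ →L[ℝ] ℂ) (ci hf)

lemma av_ofReal {f : ℂ → ℝ} (hf : Continuous f) : av (fun ζ => (f ζ : ℂ)) = ((av f : ℝ) : ℂ) :=
  av_clm Complex.ofRealCLM (ci hf)

lemma av_re {f : ℂ → ℂ} (hf : Continuous f) : av (fun ζ => (f ζ).re) = (av f).re :=
  av_clm Complex.reCLM (ci hf)

lemma av_nonneg {f : ℂ → ℝ} (hf : ∀ ζ, 0 ≤ f ζ) : 0 ≤ av f := by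
  unfold av
  exact Real.circleAverage_nonneg_of_nonneg (fun x _ => hf x)

/-- weighted inner product on polynomials -/
noncomputable def ipw (w : ℂ → ℝ) (P Q : ℂ[X]) : ℂ :=
  av (fun ζ => conj (P.eval ζ) * Q.eval ζ * (w ζ : ℂ))

lemma ipw_cont {w : ℂ → ℝ} (hw : Continuous w) (P Q : ℂ[X]) :
    Continuous (fun ζ : ℂ => conj (P.eval ζ) * Q.eval ζ * (w ζ : ℂ)) := by
  have h1 : Continuous fun ζ : ℂ => P.eval ζ := P.continuous
  have h2 : Continuous fun ζ : ℂ => Q.eval ζ := Q.continuous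
  fun_prop

lemma ipw_add_left {w : ℂ → ℝ} (hw : Continuous w) (P Q R : ℂ[X]) :
    ipw w (P + Q) R = ipw w P R + ipw w Q R := by
  unfold ipw
  rw [← av_add (ipw_cont hw P R) (ipw_cont hw Q R)]
  apply av_congr
  intro ζ _
  simp only [eval_add, map_add]
  ring

lemma ipw_add_right {w : ℂ → ℝ} (hw : Continuous w) (P Q R : ℂ[X]) :
    ipw w R (P + Q) = ipw w R P + ipw w R Q := by
  unfold ipw
  rw [← av_add (ipw_cont hw R P) (ipw_cont hw R Q)]
  apply av_congr
  intro ζ _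
  simp only [eval_add]
  ring

lemma ipw_smul_left {w : ℂ → ℝ} (c : ℂ) (P R : ℂ[X]) :
    ipw w (c • P) R = conj c * ipw w P R := by
  unfold ipw
  rw [← av_const_mul]
  apply av_congr
  intro ζ _
  simp only [eval_smul, smul_eq_mul, map_mul]
  ring

lemma ipw_symm {w : ℂ → ℝ} (hw : Continuous w) (P Q : ℂ[X]) : conj (ipw w Q P) = ipw w P Q := by
  unfold ipw
  rw [← av_conj (ipw_cont hw Q P)]
  apply av_congr
  intro ζ _
  simp only [map_mul, Complex.conj_conj, Complex.conj_ofReal]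
  ring

lemma ipw_self {w : ℂ → ℝ} (hw : Continuous w) (P : ℂ[X]) :
    ipw w P P = ((av (fun ζ => ‖P.eval ζ‖ ^ 2 * w ζ) : ℝ) : ℂ) := by
  have h1 : Continuous fun ζ : ℂ => P.eval ζ := P.continuous
  have h2 : Continuous fun ζ : ℂ => ‖P.eval ζ‖ ^ 2 * w ζ := by fun_prop
  unfold ipw
  rw [← av_ofReal h2]
  apply av_congr
  intro ζ _
  push_cast
  rw [← Complex.conj_mul' (P.eval ζ)]

lemma ipw_definite {w : ℂ → ℝ} (hw : Continuous w) (hpos : ∀ ζ, 0 < w ζ) (P : ℂ[X]) (h : ipw w P P = 0) :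
    P = 0 := by
  by_contra hP
  have h1 : Continuous fun ζ : ℂ => P.eval ζ := P.continuous
  have h2 : Continuous fun ζ : ℂ => ‖P.eval ζ‖ ^ 2 * w ζ := by fun_prop
  have hex : ∃ ζ : ℂ, ‖ζ‖ = 1 ∧ P.eval ζ ≠ 0 := by
    by_contra hcon
    push Not at hcon
    apply hP
    apply Polynomial.eq_zero_of_infinite_isRoot
    apply circle_infinite.mono
    intro ζ hζ
    exact hcon ζ (by simpa using hζ)
  obtain ⟨ζ, hζ, hne⟩ := hex
  have h3 : 0 < av (fun ζ => ‖P.eval ζ‖ ^ 2 * w ζ) := by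
    apply av_pos h2 (fun ζ => mul_nonneg (by positivity) (hpos ζ).le) ζ hζ
    exact mul_pos (by have := norm_pos_iff.mpr hne; positivity) (hpos ζ)
  rw [ipw_self hw] at h
  have h4 : av (fun ζ => ‖P.eval ζ‖ ^ 2 * w ζ) = 0 := by exact_mod_cast h
  linarith

/-- the weighted inner product on `AdjoinRoot p` -/
@[instance_reducible]
noncomputable def core (w : ℂ → ℝ) (hw : Continuous w) (hpos : ∀ ζ, 0 < w ζ) (p : ℂ[X]) (hp : p.Monic) :
    InnerProductSpace.Core ℂ (AdjoinRoot p) where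
  inner x y := ipw w (AdjoinRoot.modByMonicHom hp x) (AdjoinRoot.modByMonicHom hp y)
  conj_inner_symm x y := ipw_symm hw _ _
  re_inner_nonneg x := by
    show 0 ≤ (ipw w _ _).re
    rw [ipw_self hw, Complex.ofReal_re]
    exact av_nonneg (fun ζ => mul_nonneg (by positivity) (hpos ζ).le)
  add_left x y z := by
    show ipw w _ _ = ipw w _ _ + ipw w _ _
    rw [map_add, ipw_add_left hw]
  smul_left x y c := by
    show ipw w _ _ = _ * ipw w _ _
    rw [map_smul, ipw_smul_left]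
  definite x h := by
    have h1 : AdjoinRoot.modByMonicHom hp x = 0 := ipw_definite hw hpos _ h
    have h2 := AdjoinRoot.mk_leftInverse hp x
    rw [h1, map_zero] at h2
    exact h2.symm

lemma circle_ne {a ζ : ℂ} (ha : ‖a‖ < 1) (hζ : ‖ζ‖ ≤ 1) : 1 - conj a * ζ ≠ 0 := by
  intro h
  have h1 : conj a * ζ = 1 := by linear_combination -h
  have h2 : ‖conj a * ζ‖ = 1 := by rw [h1, norm_one]
  rw [norm_mul, RCLike.norm_conj] at h2
  have := norm_nonneg a
  have := norm_nonneg ζ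
  nlinarith

lemma circle_inv {ζ : ℂ} (hζ : ‖ζ‖ = 1) : conj ζ * ζ = 1 := by
  rw [Complex.conj_mul', hζ]; norm_num

/-- orthogonality -/
lemma orth {n : ℕ} (a : ℂ) (ha : ‖a‖ < 1) (c : ℝ) {w : ℂ → ℝ}
    (hw : ∀ ζ : ℂ, ‖ζ‖ = 1 → w ζ = c / ‖ζ - a‖ ^ (2 * n)) (Q h : ℂ[X]) (hQ : Q.degree < n) :
    ipw w Q ((X - C a) ^ n * h) = 0 := by
  unfold ipw
  have hform : ∀ ζ : ℂ, ‖ζ‖ = 1 →
      conj (Q.eval ζ) * ((X - C a) ^ n * h).eval ζ * (w ζ : ℂ) =
      (c : ℂ) * (∑ j ∈ Finset.range n, conj (Q.coeff j) * ζ ^ (n - j)) * h.eval ζ * ((1 - conj a * ζ) ^ n)⁻¹ := by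
    intro ζ hζ
    have hζ0 : ζ ≠ 0 := by rintro rfl; simp at hζ
    have hinv : conj ζ = ζ⁻¹ := by
      exact eq_inv_of_mul_eq_one_left (circle_inv hζ)
    have hne : ζ - a ≠ 0 := by
      intro h0
      have : ζ = a := by linear_combination h0
      rw [this] at hζ
      linarith
    have hne2 : 1 - conj a * ζ ≠ 0 := circle_ne ha hζ.le
    have hnorm : (((‖ζ - a‖ ^ (2 * n) : ℝ)) : ℂ) = (ζ - a) ^ n * ((1 - conj a * ζ) * ζ⁻¹) ^ n := by
      rw [pow_mul]
      push_cast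
      rw [← Complex.mul_conj', mul_pow]
      congr 2
      rw [map_sub, hinv]
      field_simp
    have hQe : conj (Q.eval ζ) = (∑ j ∈ Finset.range n, conj (Q.coeff j) * ζ ^ (n - j)) * (ζ ^ n)⁻¹ := by
      have hnat : Q.natDegree < n ∨ Q = 0 := by
        by_cases hQ0 : Q = 0
        · right; exact hQ0
        · left; exact (Polynomial.natDegree_lt_iff_degree_lt hQ0).mpr hQ
      have e1 : Q.eval ζ = ∑ j ∈ Finset.range n, Q.coeff j * ζ ^ j := by
        rcases hnat with h | h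
        · exact Polynomial.eval_eq_sum_range' h ζ
        · subst h; simp
      rw [e1, map_sum, Finset.sum_mul]
      apply Finset.sum_congr rfl
      intro j hj
      have hj' : j < n := Finset.mem_range.mp hj
      rw [map_mul, map_pow, hinv]
      have : ζ ^ (n - j) = ζ ^ n * (ζ ^ j)⁻¹ := by
        rw [pow_sub₀ _ hζ0 hj'.le]
      rw [this, inv_pow]
      field_simp
    rw [hw ζ hζ, hQe]
    push_cast
    have hnorm' : (‖ζ - a‖ : ℂ) ^ (2 * n) = (ζ - a) ^ n * ((1 - conj a * ζ) * ζ⁻¹) ^ n := by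
      rw [← hnorm]; push_cast; rfl
    rw [hnorm']
    simp only [eval_mul, eval_pow, eval_sub, eval_X, eval_C]
    rw [mul_pow, inv_pow]
    have h1 : (ζ - a) ^ n ≠ 0 := pow_ne_zero _ hne
    have h2 : (1 - conj a * ζ) ^ n ≠ 0 := pow_ne_zero _ hne2
    have h3 : ζ ^ n ≠ 0 := pow_ne_zero _ hζ0
    field_simp
  rw [av_congr hform]
  unfold av
  have hd : DiffContOnCl ℂ (fun ζ : ℂ => (c : ℂ) * (∑ j ∈ Finset.range n, conj (Q.coeff j) * ζ ^ (n - j)) *
      h.eval ζ * ((1 - conj a * ζ) ^ n)⁻¹) (ball 0 |1|) := by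
    have hdo : DifferentiableOn ℂ (fun ζ : ℂ => (c : ℂ) * (∑ j ∈ Finset.range n, conj (Q.coeff j) * ζ ^ (n - j)) *
      h.eval ζ * ((1 - conj a * ζ) ^ n)⁻¹) (closedBall 0 |1|) := by
      apply DifferentiableOn.mul
      · apply Differentiable.differentiableOn
        have := h.differentiable
        fun_prop
      · apply DifferentiableOn.inv
        · fun_prop
        · intro ζ hζ
          apply pow_ne_zero
          apply circle_ne ha
          simpa using hζ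
    refine ⟨hdo.mono ball_subset_closedBall, ?_⟩
    rw [closure_ball (0 : ℂ) (by norm_num)]
    exact hdo.continuousOn
  rw [hd.circleAverage]
  have hz : ∑ j ∈ Finset.range n, conj (Q.coeff j) * (0 : ℂ) ^ (n - j) = 0 := by
    apply Finset.sum_eq_zero
    intro j hj
    have hj' : j < n := Finset.mem_range.mp hj
    rw [zero_pow (by omega), mul_zero]
  rw [hz]
  ring

lemma ipw_X {w : ℂ → ℝ} (P Q : ℂ[X]) : ipw w (X * P) (X * Q) = ipw w P Q := by
  unfold ipw
  apply av_congr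
  intro ζ hζ
  simp only [eval_mul, eval_X, map_mul]
  linear_combination (conj (eval ζ P)) * (eval ζ Q) * (w ζ) * circle_inv hζ

theorem exists_op {n : ℕ} (a : ℂ) (ha : ‖a‖ < 1) (c : ℝ) {w : ℂ → ℝ} (hw : Continuous w)
    (hpos : ∀ ζ, 0 < w ζ) (hwf : ∀ ζ : ℂ, ‖ζ‖ = 1 → w ζ = c / ‖ζ - a‖ ^ (2 * n)) :
    ∃ T : EuclideanSpace ℂ (Fin n) →L[ℂ] EuclideanSpace ℂ (Fin n), ‖T‖ ≤ 1 ∧ aeval T ((X - C a) ^ n) = 0 ∧
      ∃ Ψ : ℂ[X] → EuclideanSpace ℂ (Fin n), 
        (∀ P : ℂ[X], P.degree < n → ((‖Ψ P‖ ^ 2 : ℝ) : ℂ) = ipw w P P) ∧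
        ∀ F P Q : ℂ[X], P.degree < n → Q.degree < n → inner ℂ (Ψ Q) (aeval T F (Ψ P)) = ipw w Q (F * P) := by
  set p : ℂ[X] := (X - C a) ^ n with hp
  have hpm : p.Monic := (monic_X_sub_C a).pow n
  have hpd : p.natDegree = n := by rw [hp, natDegree_pow, natDegree_X_sub_C, mul_one]
  have : Module.Finite ℂ (AdjoinRoot p) := hpm.finite_adjoinRoot
  have hfr : Module.finrank ℂ (AdjoinRoot p) = n := by
    rw [(AdjoinRoot.powerBasis' hpm).finrank, AdjoinRoot.powerBasis'_dim, hpd]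
  obtain ⟨Φ, hΦ⟩ := exists_iso hfr (core w hw hpos p hpm)
  have hΦ' : ∀ u v, inner ℂ (Φ u) (Φ v) = ipw w (AdjoinRoot.modByMonicHom hpm u) (AdjoinRoot.modByMonicHom hpm v) := hΦ
  set T₀ : EuclideanSpace ℂ (Fin n) →ₗ[ℂ] EuclideanSpace ℂ (Fin n) :=
    Φ.toLinearMap ∘ₗ (LinearMap.mulLeft ℂ (AdjoinRoot.root p)) ∘ₗ Φ.symm.toLinearMap with hT₀
  set T : EuclideanSpace ℂ (Fin n) →L[ℂ] EuclideanSpace ℂ (Fin n) := LinearMap.toContinuousLinearMap T₀ with hTdef
  have hT : ∀ s : AdjoinRoot p, T (Φ s) = Φ (AdjoinRoot.root p * s) := by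
    intro s
    simp [hTdef, hT₀]
  have hF : ∀ (F : ℂ[X]) (s : AdjoinRoot p), (aeval T F) (Φ s) = Φ (AdjoinRoot.mk p F * s) := by
    intro F
    induction F using Polynomial.induction_on with
    | C c =>
      intro s
      rw [aeval_C, Algebra.algebraMap_eq_smul_one]
      simp only [smul_apply, one_apply_eq_self]
      rw [← map_smul]
      congr 1
      rw [AdjoinRoot.mk_C, Algebra.smul_def, AdjoinRoot.algebraMap_eq]
    | add P Q hP hQ =>
      intro s
      rw [map_add, add_apply, hP, hQ, map_add (AdjoinRoot.mk p), add_mul, map_add Φ]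
    | monomial k c ih =>
      intro s
      rw [pow_succ, ← mul_assoc, map_mul, mul_apply_eq_comp, aeval_X, hT, ih,
        map_mul (AdjoinRoot.mk p) (C c * X ^ k) X, AdjoinRoot.mk_X, mul_assoc]
  have hdeg : ∀ s : AdjoinRoot p, (AdjoinRoot.modByMonicHom hpm s).degree < n := by
    intro s
    obtain ⟨q, rfl⟩ := AdjoinRoot.mk_surjective s
    rw [AdjoinRoot.modByMonicHom_mk]
    have := degree_modByMonic_lt q hpm
    rwa [degree_eq_natDegree hpm.ne_zero, hpd] at this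
  have hself : ∀ s : AdjoinRoot p, ((‖Φ s‖ ^ 2 : ℝ) : ℂ) = ipw w (AdjoinRoot.modByMonicHom hpm s) (AdjoinRoot.modByMonicHom hpm s) := by
    intro s
    rw [← hΦ', inner_self_eq_norm_sq_to_K]
    push_cast
    rfl
  have hmod : ∀ q : ℂ[X], AdjoinRoot.modByMonicHom hpm (AdjoinRoot.mk p q) = q %ₘ p := AdjoinRoot.modByMonicHom_mk hpm
  refine ⟨T, ?_, ?_, fun P => Φ (AdjoinRoot.mk p P), ?_, ?_⟩
  · apply ContinuousLinearMap.opNorm_le_bound _ zero_le_one
    intro z
    obtain ⟨s, rfl⟩ := Φ.surjective z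
    rw [one_mul, hT]
    obtain ⟨P, hP⟩ : ∃ P, P = AdjoinRoot.modByMonicHom hpm s := ⟨_, rfl⟩
    have hs : s = AdjoinRoot.mk p P := by rw [hP]; exact (AdjoinRoot.mk_leftInverse hpm s).symm
    have hPd : P.degree < n := by rw [hP]; exact hdeg s
    have h1 := hself s
    rw [← hP] at h1
    have h2 := hself (AdjoinRoot.root p * s)
    have h3 : AdjoinRoot.modByMonicHom hpm (AdjoinRoot.root p * s) = (X * P) %ₘ p := by
      rw [hs, ← AdjoinRoot.mk_X, ← map_mul, hmod]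
    rw [h3] at h2
    obtain ⟨R, hR⟩ : ∃ R, R = (X * P) %ₘ p := ⟨_, rfl⟩
    obtain ⟨h, hh⟩ : ∃ h, h = (X * P) /ₘ p := ⟨_, rfl⟩
    have hRd : R.degree < n := by
      have := degree_modByMonic_lt (X * P) hpm
      rwa [degree_eq_natDegree hpm.ne_zero, hpd, ← hR] at this
    rw [← hR] at h2
    have h4 : X * P = R + p * h := by
      rw [hR, hh]; exact (modByMonic_add_div (X * P) p).symm
    have h5 : ipw w P P = ipw w R R + ipw w (p * h) (p * h) := by
      rw [← ipw_X, h4, ipw_add_left hw, ipw_add_right hw, ipw_add_right hw]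
      have o1 : ipw w R (p * h) = 0 := orth a ha c hwf R h hRd
      have o2 : ipw w (p * h) R = 0 := by rw [← ipw_symm hw, o1, map_zero]
      rw [o1, o2]; ring
    have h6 : 0 ≤ (ipw w (p * h) (p * h)).re := by
      rw [ipw_self hw, Complex.ofReal_re]
      exact av_nonneg (fun ζ => mul_nonneg (by positivity) (hpos ζ).le)
    have h7 : ‖Φ (AdjoinRoot.root p * s)‖ ^ 2 ≤ ‖Φ s‖ ^ 2 := by
      have e1 := congrArg Complex.re h1
      have e2 := congrArg Complex.re h2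
      have e3 := congrArg Complex.re h5
      rw [Complex.ofReal_re] at e1 e2
      rw [Complex.add_re] at e3
      linarith
    exact (pow_le_pow_iff_left₀ (norm_nonneg _) (norm_nonneg _) (by norm_num)).mp h7
  · ext1 z
    obtain ⟨s, rfl⟩ := Φ.surjective z
    rw [hF, AdjoinRoot.mk_self]
    simp
  · intro P hP
    rw [hself, hmod, (modByMonic_eq_self_iff hpm).mpr]
    rwa [degree_eq_natDegree hpm.ne_zero, hpd]
  · intro F P Q hP hQ
    show inner ℂ (Φ (AdjoinRoot.mk p Q)) (aeval T F (Φ (AdjoinRoot.mk p P))) = _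
    rw [hF, hΦ', ← map_mul, hmod, hmod]
    have hQ' : Q %ₘ p = Q := by
      rw [modByMonic_eq_self_iff hpm]
      rwa [degree_eq_natDegree hpm.ne_zero, hpd]
    rw [hQ']
    have h4 : F * P = (F * P) %ₘ p + p * ((F * P) /ₘ p) := (modByMonic_add_div (F * P) p).symm
    conv_rhs => rw [h4]
    rw [ipw_add_right hw, orth a ha c hwf Q _ hQ, add_zero]

end Pool.Agent.Helper654.Ptak
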