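import Pool.Agent.Helper654.PtakC

set_option autoImplicit false
open Complex Metric Set Polynomial
open scoped ComplexConjugate

namespace Pool.Agent.Helper654.Ptak

lemma toP_degree {n : ℕ} (u : Fin n → ℂ) : (toP u).degree < n := by
  unfold toP
  exact degree_sum_fin_lt u

lemma Hf_gq {n : ℕ} {ρ : ℝ} (hρ : ρ < 1 / 2) (u v : Fin n → ℂ) (B : Fin n → ℂ) :
    ((Hf ρ (gq u v) B : ℝ) : ℂ) = (ipw (W ρ B) (toP u) (toP u) + ipw (W ρ B) (toP v) (toP v)) / 2 := by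
  have hw := W_cont1 hρ B
  rw [ipw_self hw, ipw_self hw]
  have hc : ∀ P : ℂ[X], Continuous fun ζ : ℂ => ‖P.eval ζ‖ ^ 2 * W ρ B ζ := by
    intro P
    have h1 : Continuous fun ζ : ℂ => P.eval ζ := P.continuous
    fun_prop
  have h1 : Hf ρ (gq u v) B = (av (fun ζ => ‖(toP u).eval ζ‖ ^ 2 * W ρ B ζ) +
      av (fun ζ => ‖(toP v).eval ζ‖ ^ 2 * W ρ B ζ)) / 2 := by
    rw [← av_add (hc _) (hc _)]
    have := Real.circleAverage_fun_smul (a := (1 / 2 : ℝ)) (c := 0) (R := 1)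
      (f := fun ζ => ‖(toP u).eval ζ‖ ^ 2 * W ρ B ζ + ‖(toP v).eval ζ‖ ^ 2 * W ρ B ζ)
    unfold av at *
    rw [div_eq_inv_mul, ← one_div, ← smul_eq_mul, ← this]
    unfold Hf av
    congr 1
    ext ζ
    simp only [smul_eq_mul, gq, toP_eval]
    ring
  rw [h1]
  push_cast
  ring

lemma Hf_jq {n : ℕ} {ρ : ℝ} (hρ : ρ < 1 / 2) (F : ℂ[X]) (u v : Fin n → ℂ) (B : Fin n → ℂ) :
    Hf ρ (jq (fun ζ => F.eval ζ) u v) B = (ipw (W ρ B) (toP v) (F * toP u)).re := by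
  have hw := W_cont1 hρ B
  unfold ipw
  rw [← av_re (ipw_cont hw _ _)]
  unfold Hf
  apply av_congr
  intro ζ _
  simp only [jq, toP_eval, eval_mul]
  have : (conj (pol v ζ) * (eval ζ F * pol u ζ) * ((W ρ B ζ : ℝ) : ℂ)) =
    ((W ρ B ζ : ℝ) : ℂ) * (eval ζ F * pol u ζ * conj (pol v ζ)) := by ring
  rw [this, re_ofReal_mul]
  ring

theorem exists_extremal {n : ℕ} {r ρ : ℝ} (hr0 : 0 < r) (hr1 : r < 1) (hρ : ρ = r / (1 + r ^ 2))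
    (F : ℂ[X]) (M : ℝ) (β : ℂ) (hβ : ‖β‖ = ρ) (u v : Fin n → ℂ) (huv : u ≠ 0 ∨ v ≠ 0)
    (h : Hf ρ (jq (fun ζ => F.eval ζ) u v) (fun _ : Fin n => β) = M * Hf ρ (gq u v) (fun _ : Fin n => β)) :
    ∃ a : ℂ, ‖a‖ = r ∧ ∃ T : EuclideanSpace ℂ (Fin n) →L[ℂ] EuclideanSpace ℂ (Fin n), ‖T‖ ≤ 1 ∧
      aeval T ((X - C a) ^ n) = 0 ∧ M ≤ ‖aeval T F‖ := by
  have hρ2 : ρ < 1 / 2 := by
    rw [hρ, div_lt_div_iff₀ (by positivity) (by norm_num)]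
    nlinarith [sq_nonneg (1 - r), mul_pos (sub_pos.mpr hr1) (sub_pos.mpr hr1)]
  have hrr : (0 : ℝ) < 1 + r ^ 2 := by positivity
  set a : ℂ := β * ((1 + r ^ 2 : ℝ) : ℂ) with ha
  have han : ‖a‖ = r := by
    rw [ha, norm_mul, hβ, norm_real, Real.norm_eq_abs, abs_of_pos hrr, hρ]
    field_simp
  have hβa : β = a / ((1 + ‖a‖ ^ 2 : ℝ) : ℂ) := by
    rw [han, ha]
    rw [mul_div_cancel_right₀]
    exact_mod_cast hrr.ne'
  have hwf : ∀ ζ : ℂ, ‖ζ‖ = 1 → W ρ (fun _ : Fin n => β) ζ = (1 + r ^ 2) ^ n / ‖ζ - a‖ ^ (2 * n) := by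
    intro ζ hζ
    have h1 := (wt_poincare hr0 hr1 hρ a ζ han.le hζ).2
    unfold W
    rw [Finset.prod_const, Finset.card_univ, Fintype.card_fin, hβa, h1, han, div_pow, pow_mul]
  obtain ⟨T, hT1, hT2, Ψ, hΨ1, hΨ2⟩ := exists_op (n := n) a (by rw [han]; exact hr1) ((1 + r ^ 2) ^ n)
    (W_cont1 hρ2 _) (W_pos hρ2 _) hwf
  refine ⟨a, han, T, hT1, hT2, ?_⟩
  obtain ⟨x, hx⟩ : ∃ x, x = Ψ (toP u) := ⟨_, rfl⟩
  obtain ⟨y, hy⟩ : ∃ y, y = Ψ (toP v) := ⟨_, rfl⟩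
  have e1 := hΨ1 (toP u) (toP_degree u)
  have e2 := hΨ1 (toP v) (toP_degree v)
  have e3 := hΨ2 F (toP u) (toP v) (toP_degree u) (toP_degree v)
  rw [← hx] at e1 e3
  rw [← hy] at e2 e3
  have e4 := Hf_gq hρ2 u v (fun _ : Fin n => β)
  rw [← e1, ← e2] at e4
  have e5 : Hf ρ (gq u v) (fun _ : Fin n => β) = (‖x‖ ^ 2 + ‖y‖ ^ 2) / 2 := by
    exact_mod_cast e4
  have hg := G_pos hρ2 (fun _ : Fin n => β) u v huv
  rw [Hf_jq hρ2, ← e3, e5] at h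
  rw [e5] at hg
  have e6 : (inner ℂ y ((aeval T F) x)).re ≤ ‖y‖ * (‖aeval T F‖ * ‖x‖) := by
    have h1 : (inner ℂ y ((aeval T F) x)).re ≤ ‖inner ℂ y ((aeval T F) x)‖ := Complex.re_le_norm _
    have h2 := norm_inner_le_norm (𝕜 := ℂ) y ((aeval T F) x)
    have h3 := (aeval T F).le_opNorm x
    have h4 := mul_le_mul_of_nonneg_left h3 (norm_nonneg y)
    linarith
  rw [h] at e6
  have e7 : ‖y‖ * (‖aeval T F‖ * ‖x‖) ≤ ‖aeval T F‖ * ((‖x‖ ^ 2 + ‖y‖ ^ 2) / 2) := by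
    have h1 := norm_nonneg (aeval T F)
    nlinarith [mul_nonneg h1 (sq_nonneg (‖x‖ - ‖y‖))]
  have e8 := e6.trans e7
  exact le_of_mul_le_mul_right e8 hg

end Pool.Agent.Helper654.Ptak
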