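import Pool.Agent.Helper654.PtakD

set_option autoImplicit false
open Complex Metric Set Polynomial
open scoped ComplexConjugate

namespace Pool.Agent.Helper654.Ptak

lemma exists_R {E : Type*} [NormedAddCommGroup E] [NormedSpace ℂ E] (T : E →L[ℂ] E) (x : E) (m : ℕ) :
    ∀ p : ℂ[X], p.natDegree ≤ m + 1 → ∃ v : ℕ → E, v m = p.coeff (m + 1) • x ∧
      ∀ ζ : ℂ, ζ • (∑ j ∈ Finset.range (m + 1), ζ ^ j • v j) - T (∑ j ∈ Finset.range (m + 1), ζ ^ j • v j) =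
        p.eval ζ • x - (aeval T p) x := by
  induction m with
  | zero =>
    intro p hp
    refine ⟨fun _ => p.coeff 1 • x, rfl, ?_⟩
    intro ζ
    have h1 : p = C (p.coeff 1) * X + C (p.coeff 0) := eq_X_add_C_of_natDegree_le_one hp
    have h2 : p.eval ζ = p.coeff 1 * ζ + p.coeff 0 := by
      conv_lhs => rw [h1]
      simp
    have h3 : (aeval T p) x = p.coeff 1 • T x + p.coeff 0 • x := by
      conv_lhs => rw [h1]
      simp [Algebra.algebraMap_eq_smul_one]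
    rw [h2, h3]
    simp only [zero_add, Finset.range_one, Finset.sum_singleton, pow_zero, one_smul, map_smul]
    module
  | succ m ih =>
    intro p hp
    obtain ⟨v, hv1, hv2⟩ := ih (divX p) (by rw [natDegree_divX_eq_natDegree_tsub_one]; omega)
    refine ⟨fun k => Nat.casesOn k ((aeval T (divX p)) x) v, ?_, ?_⟩
    · show v m = _
      rw [hv1, coeff_divX]
    · intro ζ
      have h0 : p = X * divX p + C (p.coeff 0) := by
        conv_lhs => rw [← divX_mul_X_add p]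
        rw [mul_comm]
      have h2 : p.eval ζ = ζ * (divX p).eval ζ + p.coeff 0 := by
        conv_lhs => rw [h0]
        rw [eval_add, eval_mul, eval_X, eval_C]
      have h3 : (aeval T p) x = T ((aeval T (divX p)) x) + p.coeff 0 • x := by
        conv_lhs => rw [h0]
        rw [map_add, map_mul, aeval_X, aeval_C, Algebra.algebraMap_eq_smul_one]
        rfl
      have h4 := hv2 ζ
      rw [Finset.sum_range_succ']
      have h5 : ∀ k, (ζ ^ (k + 1) • (Nat.casesOn (k + 1) ((aeval T (divX p)) x) v : E)) = ζ • (ζ ^ k • v k) := by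
        intro k
        show ζ ^ (k + 1) • v k = _
        rw [smul_smul, pow_succ']
      rw [Finset.sum_congr rfl (fun k _ => h5 k), ← Finset.smul_sum]
      set S := ∑ j ∈ Finset.range (m + 1), ζ ^ j • v j with hS
      have h6 : (ζ ^ 0 • (Nat.casesOn 0 ((aeval T (divX p)) x) v : E)) = (aeval T (divX p)) x := by
        show ζ ^ 0 • (aeval T (divX p)) x = _
        rw [pow_zero, one_smul]
      rw [h6, h2, h3, map_add, map_smul]
      have h7 : T S = ζ • S - (eval ζ p.divX • x - (aeval T p.divX) x) := by rw [← h4]; abel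
      rw [h7]
      module


noncomputable def pz {n : ℕ} (z : Fin n → ℂ) (ζ : ℂ) : ℂ := ∏ j, (ζ - z j)
noncomputable def kap {n : ℕ} (z : Fin n → ℂ) : ℝ := ∏ j, (1 + ‖z j‖ ^ 2)
noncomputable def Bz {n : ℕ} (z : Fin n → ℂ) (j : Fin n) : ℂ := z j / ((1 + ‖z j‖ ^ 2 : ℝ) : ℂ)
noncomputable def iP {n : ℕ} (ρ : ℝ) (z : Fin n → ℂ) (ζ : ℂ) : ℂ :=
  (((kap z)⁻¹ * W ρ (Bz z) ζ : ℝ) : ℂ) * conj (pz z ζ)

lemma kap_pos {n : ℕ} (z : Fin n → ℂ) : 0 < kap z := Finset.prod_pos (fun _ _ => by positivity)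

lemma pz_cont {n : ℕ} (z : Fin n → ℂ) : Continuous (pz z) := by
  unfold pz
  fun_prop

lemma iP_cont {n : ℕ} {ρ : ℝ} (hρ : ρ < 1 / 2) (z : Fin n → ℂ) : Continuous (iP ρ z) := by
  unfold iP
  have h1 := pz_cont z
  have h2 := W_cont1 hρ (Bz z)
  fun_prop

lemma pz_ne {n : ℕ} {r : ℝ} (hr1 : r < 1) (z : Fin n → ℂ) (hz : ∀ j, ‖z j‖ ≤ r) {ζ : ℂ} (hζ : ‖ζ‖ = 1) :
    pz z ζ ≠ 0 := by
  unfold pz
  rw [Finset.prod_ne_zero_iff]
  intro j _ h
  have : ζ = z j := by linear_combination h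
  have h2 := hz j
  rw [← this, hζ] at h2
  linarith

lemma W_Bz {n : ℕ} {r ρ : ℝ} (hr0 : 0 < r) (hr1 : r < 1) (hρ : ρ = r / (1 + r ^ 2)) (z : Fin n → ℂ)
    (hz : ∀ j, ‖z j‖ ≤ r) {ζ : ℂ} (hζ : ‖ζ‖ = 1) :
    (kap z)⁻¹ * W ρ (Bz z) ζ = (‖pz z ζ‖ ^ 2)⁻¹ := by
  unfold kap W pz Bz
  rw [Finset.prod_congr rfl (fun j _ => (wt_poincare hr0 hr1 hρ (z j) ζ (hz j) hζ).2)]
  rw [Finset.prod_div_distrib, norm_prod, ← Finset.prod_pow]
  have : ∏ j, (1 + ‖z j‖ ^ 2) ≠ 0 := (kap_pos z).ne'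
  field_simp

lemma iP_eq {n : ℕ} {r ρ : ℝ} (hr0 : 0 < r) (hr1 : r < 1) (hρ : ρ = r / (1 + r ^ 2)) (z : Fin n → ℂ)
    (hz : ∀ j, ‖z j‖ ≤ r) {ζ : ℂ} (hζ : ‖ζ‖ = 1) : iP ρ z ζ = (pz z ζ)⁻¹ := by
  unfold iP
  rw [W_Bz hr0 hr1 hρ z hz hζ]
  have hne := pz_ne hr1 z hz hζ
  push_cast
  rw [← Complex.mul_conj']
  have h2 : conj (pz z ζ) ≠ 0 := by simpa using hne
  field_simp

lemma iP_normsq {n : ℕ} {r ρ : ℝ} (hr0 : 0 < r) (hr1 : r < 1) (hρ : ρ = r / (1 + r ^ 2)) (z : Fin n → ℂ)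
    (hz : ∀ j, ‖z j‖ ≤ r) {ζ : ℂ} (hζ : ‖ζ‖ = 1) :
    conj (iP ρ z ζ) * iP ρ z ζ = (((kap z)⁻¹ * W ρ (Bz z) ζ : ℝ) : ℂ) := by
  rw [iP_eq hr0 hr1 hρ z hz hζ, W_Bz hr0 hr1 hρ z hz hζ, Complex.conj_mul', norm_inv]
  push_cast
  rw [inv_pow]

section vec
variable {E : Type*} [NormedAddCommGroup E] [NormedSpace ℂ E] [CompleteSpace E]

noncomputable def Sv (m : ℕ) (v : ℕ → E) (ζ : ℂ) : E := ∑ j ∈ Finset.range (m + 1), ζ ^ j • v j

omit [CompleteSpace E] in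
lemma Sv_cont (m : ℕ) (v : ℕ → E) : Continuous (Sv m v) := by
  unfold Sv
  fun_prop

lemma K0 {m : ℕ} {r ρ : ℝ} (hr0 : 0 < r) (hr1 : r < 1) (hρ : ρ = r / (1 + r ^ 2)) (z : Fin (m + 1) → ℂ)
    (hz : ∀ j, ‖z j‖ ≤ r) (v : ℕ → E) (k : ℕ) :
    av (fun ζ : ℂ => (conj ζ) ^ k • (ζ • (iP ρ z ζ • Sv m v ζ))) = (0 : ℂ) ^ k • v m := by
  have hform : ∀ ζ : ℂ, ‖ζ‖ = 1 → (conj ζ) ^ k • (ζ • (iP ρ z ζ • Sv m v ζ)) =
      (fun w : ℂ => w ^ k • ((∏ j, (1 - z j * w))⁻¹ • ∑ j ∈ Finset.range (m + 1), w ^ (m - j) • v j)) (ζ⁻¹) := by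
    intro ζ hζ
    have hζ0 : ζ ≠ 0 := by rintro rfl; simp at hζ
    have hinv : conj ζ = ζ⁻¹ := eq_inv_of_mul_eq_one_left (circle_inv hζ)
    rw [hinv, iP_eq hr0 hr1 hρ z hz hζ]
    simp only
    congr 1
    have h1 : pz z ζ = ζ ^ (m + 1) * ∏ j, (1 - z j * ζ⁻¹) := by
      unfold pz
      have : ζ ^ (m + 1) = ∏ _j : Fin (m + 1), ζ := by
        rw [Finset.prod_const, Finset.card_univ, Fintype.card_fin]
      rw [this, ← Finset.prod_mul_distrib]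
      apply Finset.prod_congr rfl
      intro j _
      field_simp
    have h3 : ∏ j, (1 - z j * ζ⁻¹) ≠ 0 := by
      intro h0
      rw [h0, mul_zero] at h1
      exact pz_ne hr1 z hz hζ h1
    rw [h1]
    unfold Sv
    rw [Finset.smul_sum, Finset.smul_sum, Finset.smul_sum]
    apply Finset.sum_congr rfl
    intro j hj
    have hj' : j ≤ m := Nat.lt_succ_iff.mp (Finset.mem_range.mp hj)
    rw [smul_smul, smul_smul, smul_smul]
    congr 1
    have h4 : ζ ^ (m + 1) = ζ * ζ ^ (m - j) * ζ ^ j := by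
      rw [mul_assoc, ← pow_add, Nat.sub_add_cancel hj', pow_succ']
    rw [h4, inv_pow]
    have h5 : ζ ^ j ≠ 0 := pow_ne_zero _ hζ0
    have h6 : ζ ^ (m - j) ≠ 0 := pow_ne_zero _ hζ0
    field_simp
  rw [av_congr hform]
  unfold av
  rw [Real.circleAverage_zero_one_congr_inv
    (f := fun w : ℂ => w ^ k • ((∏ j, (1 - z j * w))⁻¹ • ∑ j ∈ Finset.range (m + 1), w ^ (m - j) • v j))]
  have hd : DiffContOnCl ℂ (fun w : ℂ => w ^ k • ((∏ j, (1 - z j * w))⁻¹ •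
      ∑ j ∈ Finset.range (m + 1), w ^ (m - j) • v j)) (ball 0 |1|) := by
    have hdo : DifferentiableOn ℂ (fun w : ℂ => w ^ k • ((∏ j, (1 - z j * w))⁻¹ •
      ∑ j ∈ Finset.range (m + 1), w ^ (m - j) • v j)) (closedBall 0 |1|) := by
      apply DifferentiableOn.smul
      · fun_prop
      apply DifferentiableOn.smul
      · apply DifferentiableOn.inv
        · fun_prop
        · intro w hw
          rw [Finset.prod_ne_zero_iff]
          intro j _ h0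
          have hw' : ‖w‖ ≤ 1 := by simpa using hw
          have h1 : z j * w = 1 := by linear_combination -h0
          have h2 : ‖z j * w‖ = 1 := by rw [h1, norm_one]
          rw [norm_mul] at h2
          have h3 := hz j
          have h4 := norm_nonneg (z j)
          have h5 := norm_nonneg w
          nlinarith
      · fun_prop
    refine ⟨hdo.mono ball_subset_closedBall, ?_⟩
    rw [closure_ball (0 : ℂ) (by norm_num)]
    exact hdo.continuousOn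
  rw [hd.circleAverage]
  congr 1
  have h1 : ∑ j ∈ Finset.range (m + 1), (0 : ℂ) ^ (m - j) • v j = v m := by
    rw [Finset.sum_range_succ]
    rw [Finset.sum_eq_zero]
    · simp
    · intro j hj
      have hj' : j < m := Finset.mem_range.mp hj
      rw [zero_pow (by omega), zero_smul]
  rw [h1]
  simp

lemma K1 {m : ℕ} {r ρ : ℝ} (hr0 : 0 < r) (hr1 : r < 1) (hρ : ρ = r / (1 + r ^ 2)) (hρ2 : ρ < 1 / 2)
    (z : Fin (m + 1) → ℂ) (hz : ∀ j, ‖z j‖ ≤ r) (T : E →L[ℂ] E) (x : E) (v : ℕ → E) (hv : v m = x)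
    (hU : ∀ ζ : ℂ, ‖ζ‖ = 1 → ζ • (iP ρ z ζ • Sv m v ζ) - T (iP ρ z ζ • Sv m v ζ) = x) (k : ℕ) :
    av (fun ζ : ℂ => ζ ^ k • (ζ • (iP ρ z ζ • Sv m v ζ))) = (T ^ k) x := by
  have hi := iP_cont hρ2 z
  have hS := Sv_cont m v
  induction k with
  | zero =>
    have := K0 hr0 hr1 hρ z hz v 0
    simp only [pow_zero, one_smul] at this ⊢
    rw [this, hv]
    rfl
  | succ k ih =>
    have h1 : ∀ ζ : ℂ, ‖ζ‖ = 1 → ζ ^ (k + 1) • (ζ • (iP ρ z ζ • Sv m v ζ)) =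
        T (ζ ^ k • (ζ • (iP ρ z ζ • Sv m v ζ))) + ζ ^ (k + 1) • x := by
      intro ζ hζ
      have h2 := hU ζ hζ
      have h3 : ζ • (iP ρ z ζ • Sv m v ζ) = T (iP ρ z ζ • Sv m v ζ) + x := by rw [← h2]; abel
      rw [map_smul, map_smul]
      conv_lhs => rw [h3]
      rw [smul_add, pow_succ, mul_smul]
    have h2 : Continuous fun ζ : ℂ => ζ ^ k • (ζ • (iP ρ z ζ • Sv m v ζ)) := by fun_prop
    have h3 : Continuous fun ζ : ℂ => T (ζ ^ k • (ζ • (iP ρ z ζ • Sv m v ζ))) := by fun_prop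
    have h4 : Continuous fun ζ : ℂ => ζ ^ (k + 1) • x := by fun_prop
    rw [av_congr h1, av_add h3 h4]
    have h5 : av (fun ζ : ℂ => T (ζ ^ k • (ζ • (iP ρ z ζ • Sv m v ζ)))) =
        T (av (fun ζ : ℂ => ζ ^ k • (ζ • (iP ρ z ζ • Sv m v ζ)))) :=
      av_clm (T.restrictScalars ℝ) (ci h2)
    have h6 : av (fun ζ : ℂ => ζ ^ (k + 1) • x) = 0 := by
      unfold av
      have hd : DiffContOnCl ℂ (fun ζ : ℂ => ζ ^ (k + 1) • x) (ball 0 |1|) := by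
        apply Differentiable.diffContOnCl
        fun_prop
      rw [hd.circleAverage, zero_pow (by omega), zero_smul]
    rw [h5, h6, ih, add_zero, pow_succ']
    rfl

end vec

section hilb
variable {E : Type*} [NormedAddCommGroup E] [InnerProductSpace ℂ E] [CompleteSpace E]

noncomputable def Qf (T : E →L[ℂ] E) (a b : ℂ → E) (ζ : ℂ) : ℂ :=
  inner ℂ (b ζ) (a ζ) - inner ℂ (T (b ζ)) (T (a ζ))

omit [CompleteSpace E] in
lemma Qf_cont (T : E →L[ℂ] E) {a b : ℂ → E} (ha : Continuous a) (hb : Continuous b) :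
    Continuous (Qf T a b) := by
  unfold Qf
  exact (hb.inner ha).sub ((T.continuous.comp hb).inner (T.continuous.comp ha))

omit [CompleteSpace E] in
lemma Qf_circle (T : E →L[ℂ] E) {a b : ℂ → E} (x y : E) {ζ : ℂ} (hζ : ‖ζ‖ = 1)
    (ha : ζ • a ζ - T (a ζ) = x) (hb : ζ • b ζ - T (b ζ) = y) :
    Qf T a b ζ = conj ζ * inner ℂ (b ζ) x + ζ * inner ℂ y (a ζ) - inner ℂ y x := by
  unfold Qf
  have h1 : T (a ζ) = ζ • a ζ - x := by rw [← ha]; abel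
  have h2 : T (b ζ) = ζ • b ζ - y := by rw [← hb]; abel
  rw [h1, h2, inner_sub_left, inner_sub_right, inner_sub_right, inner_smul_left, inner_smul_left,
    inner_smul_right, inner_smul_right]
  have := circle_inv hζ
  linear_combination (- inner ℂ (b ζ) (a ζ)) * this

lemma K2 {m : ℕ} {r ρ : ℝ} (hr0 : 0 < r) (hr1 : r < 1) (hρ : ρ = r / (1 + r ^ 2)) (hρ2 : ρ < 1 / 2)
    (z : Fin (m + 1) → ℂ) (hz : ∀ j, ‖z j‖ ≤ r) (T : E →L[ℂ] E) (x y : E) (v u : ℕ → E)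
    (hv : v m = x) (hu : u m = y)
    (hU : ∀ ζ : ℂ, ‖ζ‖ = 1 → ζ • (iP ρ z ζ • Sv m v ζ) - T (iP ρ z ζ • Sv m v ζ) = x)
    (hV : ∀ ζ : ℂ, ‖ζ‖ = 1 → ζ • (iP ρ z ζ • Sv m u ζ) - T (iP ρ z ζ • Sv m u ζ) = y) (k : ℕ) :
    av (fun ζ : ℂ => ζ ^ k * Qf T (fun ζ => iP ρ z ζ • Sv m v ζ) (fun ζ => iP ρ z ζ • Sv m u ζ) ζ) =
      inner ℂ y ((T ^ k) x) := by
  have hi := iP_cont hρ2 z
  have hSv := Sv_cont m v
  have hSu := Sv_cont m u
  have h1 : ∀ ζ : ℂ, ‖ζ‖ = 1 →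
      ζ ^ k * Qf T (fun ζ => iP ρ z ζ • Sv m v ζ) (fun ζ => iP ρ z ζ • Sv m u ζ) ζ =
      (conj (inner ℂ x ((conj ζ) ^ k • (ζ • (iP ρ z ζ • Sv m u ζ)))) +
      inner ℂ y (ζ ^ k • (ζ • (iP ρ z ζ • Sv m v ζ)))) + (-inner ℂ y x) * ζ ^ k := by
    intro ζ hζ
    rw [Qf_circle T x y hζ (hU ζ hζ) (hV ζ hζ)]
    simp only [inner_smul_right, map_mul, map_pow, Complex.conj_conj, inner_smul_left, inner_conj_symm]
    ring
  have c1 : Continuous fun ζ : ℂ => (conj ζ) ^ k • (ζ • (iP ρ z ζ • Sv m u ζ)) := by fun_prop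
  have c2 : Continuous fun ζ : ℂ => ζ ^ k • (ζ • (iP ρ z ζ • Sv m v ζ)) := by fun_prop
  have c3 : Continuous fun ζ : ℂ => inner ℂ x ((conj ζ) ^ k • (ζ • (iP ρ z ζ • Sv m u ζ))) :=
    continuous_const.inner c1
  have c4 : Continuous fun ζ : ℂ => inner ℂ y (ζ ^ k • (ζ • (iP ρ z ζ • Sv m v ζ))) :=
    continuous_const.inner c2
  have c5 : Continuous fun ζ : ℂ => conj (inner ℂ x ((conj ζ) ^ k • (ζ • (iP ρ z ζ • Sv m u ζ)))) :=
    continuous_conj.comp c3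
  have c6 : Continuous fun ζ : ℂ => (-inner ℂ y x) * ζ ^ k := by fun_prop
  have c7 : Continuous fun ζ : ℂ => (conj (inner ℂ x ((conj ζ) ^ k • (ζ • (iP ρ z ζ • Sv m u ζ)))) +
      inner ℂ y (ζ ^ k • (ζ • (iP ρ z ζ • Sv m v ζ)))) := c5.add c4
  rw [av_congr h1, av_add c7 c6, av_add c5 c4, av_conj c3]
  have e1 : av (fun ζ : ℂ => inner ℂ x ((conj ζ) ^ k • (ζ • (iP ρ z ζ • Sv m u ζ)))) =
      inner ℂ x (av (fun ζ : ℂ => (conj ζ) ^ k • (ζ • (iP ρ z ζ • Sv m u ζ)))) :=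
    av_clm ((innerSL ℂ x).restrictScalars ℝ) (ci c1)
  have e2 : av (fun ζ : ℂ => inner ℂ y (ζ ^ k • (ζ • (iP ρ z ζ • Sv m v ζ)))) =
      inner ℂ y (av (fun ζ : ℂ => ζ ^ k • (ζ • (iP ρ z ζ • Sv m v ζ)))) :=
    av_clm ((innerSL ℂ y).restrictScalars ℝ) (ci c2)
  have e3 : av (fun ζ : ℂ => (-inner ℂ y x) * ζ ^ k) = (-inner ℂ y x) * 0 ^ k := by
    unfold av
    have hd : DiffContOnCl ℂ (fun ζ : ℂ => (-inner ℂ y x) * ζ ^ k) (ball 0 |1|) := by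
      apply Differentiable.diffContOnCl
      fun_prop
    rw [hd.circleAverage]
  rw [e1, e2, e3, K0 hr0 hr1 hρ z hz u k, K1 hr0 hr1 hρ hρ2 z hz T x v hv hU k, hu, inner_smul_right,
    map_mul, map_pow, map_zero, inner_conj_symm]
  ring

end hilb

end Pool.Agent.Helper654.Ptak
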