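import Pool.Agent.Helper654.PtakE

set_option autoImplicit false
open Complex Metric Set Polynomial
open scoped ComplexConjugate

namespace Pool.Agent.Helper654.Ptak

section hilb
variable {E : Type*} [NormedAddCommGroup E] [InnerProductSpace ℂ E] [CompleteSpace E]

lemma exists_D (T : E →L[ℂ] E) (hT : ‖T‖ ≤ 1) :
    ∃ D : E →L[ℂ] E, ∀ u v : E, inner ℂ (D v) (D u) = inner ℂ v u - inner ℂ (T v) (T u) := by
  have hpos : 0 ≤ (1 - star T * T : E →L[ℂ] E) := by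
    rw [ContinuousLinearMap.nonneg_iff_isPositive, ContinuousLinearMap.isPositive_iff_complex]
    intro x
    have h1 : inner ℂ ((1 - star T * T : E →L[ℂ] E) x) x = ((‖x‖ ^ 2 - ‖T x‖ ^ 2 : ℝ) : ℂ) := by
      have e1 : (1 - star T * T : E →L[ℂ] E) x = x - (ContinuousLinearMap.adjoint T) (T x) := rfl
      rw [e1, inner_sub_left, ContinuousLinearMap.adjoint_inner_left, inner_self_eq_norm_sq_to_K,
        inner_self_eq_norm_sq_to_K]
      push_cast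
      rfl
    have h2 : ‖T x‖ ≤ ‖x‖ := by
      have := T.le_of_opNorm_le hT x
      simpa using this
    rw [h1]
    refine ⟨?_, ?_⟩
    · rw [RCLike.re_to_complex, Complex.ofReal_re]
    · simp only [RCLike.re_to_complex, Complex.ofReal_re]
      have := norm_nonneg (T x)
      nlinarith
  obtain ⟨D, hD⟩ := CStarAlgebra.nonneg_iff_eq_star_mul_self.mp hpos
  refine ⟨D, fun u v => ?_⟩
  have h1 : inner ℂ (D v) (D u) = inner ℂ v ((star D * D) u) := by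
    show _ = inner ℂ v ((ContinuousLinearMap.adjoint D) (D u))
    rw [ContinuousLinearMap.adjoint_inner_right]
  rw [h1, ← hD]
  have e1 : (1 - star T * T : E →L[ℂ] E) u = u - (ContinuousLinearMap.adjoint T) (T u) := rfl
  rw [e1, inner_sub_right, ContinuousLinearMap.adjoint_inner_right]

lemma K2poly {m : ℕ} {r ρ : ℝ} (hr0 : 0 < r) (hr1 : r < 1) (hρ : ρ = r / (1 + r ^ 2)) (hρ2 : ρ < 1 / 2)
    (z : Fin (m + 1) → ℂ) (hz : ∀ j, ‖z j‖ ≤ r) (T : E →L[ℂ] E) (x y : E) (v u : ℕ → E)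
    (hv : v m = x) (hu : u m = y)
    (hU : ∀ ζ : ℂ, ‖ζ‖ = 1 → ζ • (iP ρ z ζ • Sv m v ζ) - T (iP ρ z ζ • Sv m v ζ) = x)
    (hV : ∀ ζ : ℂ, ‖ζ‖ = 1 → ζ • (iP ρ z ζ • Sv m u ζ) - T (iP ρ z ζ • Sv m u ζ) = y) (F : ℂ[X]) :
    av (fun ζ : ℂ => F.eval ζ * Qf T (fun ζ => iP ρ z ζ • Sv m v ζ) (fun ζ => iP ρ z ζ • Sv m u ζ) ζ) =
      inner ℂ y ((aeval T F) x) := by
  have hi := iP_cont hρ2 z
  have hSv := Sv_cont m v
  have hSu := Sv_cont m u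
  have ca : Continuous (fun ζ => iP ρ z ζ • Sv m v ζ) := by fun_prop
  have cb : Continuous (fun ζ => iP ρ z ζ • Sv m u ζ) := by fun_prop
  have hQ := Qf_cont T ca cb
  induction F using Polynomial.induction_on' with
  | add P Q hP hQ' =>
    have c1 : Continuous fun ζ : ℂ => P.eval ζ * Qf T (fun ζ => iP ρ z ζ • Sv m v ζ) (fun ζ => iP ρ z ζ • Sv m u ζ) ζ :=
      P.continuous.mul hQ
    have c2 : Continuous fun ζ : ℂ => Q.eval ζ * Qf T (fun ζ => iP ρ z ζ • Sv m v ζ) (fun ζ => iP ρ z ζ • Sv m u ζ) ζ :=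
      Q.continuous.mul hQ
    rw [map_add, add_apply, inner_add_right, ← hP, ← hQ', ← av_add c1 c2]
    apply av_congr
    intro ζ _
    rw [eval_add, add_mul]
  | monomial k c =>
    rw [aeval_monomial, Algebra.algebraMap_eq_smul_one, smul_one_mul, smul_apply, inner_smul_right,
      ← K2 hr0 hr1 hρ hρ2 z hz T x y v u hv hu hU hV k, ← av_const_mul]
    apply av_congr
    intro ζ _
    rw [eval_monomial, mul_assoc]

end hilb

lemma av_real_smul (c : ℝ) (f : ℂ → ℝ) : av (fun ζ => c * f ζ) = c * av f := by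
  have := Real.circleAverage_fun_smul (a := c) (f := f) (c := 0) (R := 1)
  exact this

lemma av_sum {ι : Type*} (s : Finset ι) (f : ι → ℂ → ℝ) (hf : ∀ i ∈ s, Continuous (f i)) :
    av (fun ζ => ∑ i ∈ s, f i ζ) = ∑ i ∈ s, av (f i) :=
  Real.circleAverage_fun_sum (fun i hi => ci (hf i hi))

lemma av_sum_W {ι : Type*} [Fintype ι] {n : ℕ} {ρ : ℝ} (hρ : ρ < 1 / 2) (B : Fin n → ℂ) (c : ℝ)
    (k : ι → ℂ → ℝ) (hk : ∀ i, Continuous (k i)) :
    av (fun ζ => c * ∑ i, k i ζ * W ρ B ζ) = c * ∑ i, Hf ρ (k i) B := by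
  have h1 : ∀ i ∈ (Finset.univ : Finset ι), Continuous (fun ζ => k i ζ * W ρ B ζ) := fun i _ =>
    (hk i).mul (W_cont1 hρ B)
  rw [av_real_smul, av_sum Finset.univ (fun i ζ => k i ζ * W ρ B ζ) h1]
  rfl

lemma pol_comp {m : ℕ} {ι : Type*} [Fintype ι] (D : EuclideanSpace ℂ ι →L[ℂ] EuclideanSpace ℂ ι)
    (v : ℕ → EuclideanSpace ℂ ι) (ζ : ℂ) (i : ι) :
    (D (Sv m v ζ)) i = pol (fun j : Fin (m + 1) => (D (v j)) i) ζ := by
  unfold Sv pol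
  rw [map_sum, Finset.sum_range]
  simp [mul_comm]

lemma Qf_expand {m : ℕ} {ι : Type*} [Fintype ι] {r ρ : ℝ} (hr0 : 0 < r) (hr1 : r < 1) (hρ : ρ = r / (1 + r ^ 2))
    (z : Fin (m + 1) → ℂ) (hz : ∀ j, ‖z j‖ ≤ r) (T D : EuclideanSpace ℂ ι →L[ℂ] EuclideanSpace ℂ ι)
    (hD : ∀ u v : EuclideanSpace ℂ ι, inner ℂ (D v) (D u) = inner ℂ v u - inner ℂ (T v) (T u))
    (v u : ℕ → EuclideanSpace ℂ ι) (F : ℂ → ℂ) (ζ : ℂ) (hζ : ‖ζ‖ = 1) :
    (F ζ * Qf T (fun ζ => iP ρ z ζ • Sv m v ζ) (fun ζ => iP ρ z ζ • Sv m u ζ) ζ).re =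
      (kap z)⁻¹ * ∑ i, jq F (fun j : Fin (m + 1) => (D (v j)) i) (fun j : Fin (m + 1) => (D (u j)) i) ζ *
        W ρ (Bz z) ζ := by
  unfold Qf
  rw [← hD, map_smul, map_smul, inner_smul_left, inner_smul_right, PiLp.inner_apply]
  have h1 : ∀ i, inner ℂ ((D (Sv m u ζ)) i) ((D (Sv m v ζ)) i) =
      pol (fun j : Fin (m + 1) => (D (v j)) i) ζ * conj (pol (fun j : Fin (m + 1) => (D (u j)) i) ζ) := by
    intro i
    rw [pol_comp, pol_comp]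
    rfl
  rw [Finset.sum_congr rfl (fun i _ => h1 i)]
  have h2 := iP_normsq hr0 hr1 hρ z hz hζ
  set A := ∑ i, pol (fun j : Fin (m + 1) => (D (v j)) i) ζ * conj (pol (fun j : Fin (m + 1) => (D (u j)) i) ζ)
    with hA
  have h3 : F ζ * (conj (iP ρ z ζ) * (iP ρ z ζ * A)) = (((kap z)⁻¹ * W ρ (Bz z) ζ : ℝ) : ℂ) * (F ζ * A) := by
    rw [← h2]; ring
  rw [h3, re_ofReal_mul, hA, Finset.mul_sum, Complex.re_sum, mul_assoc]
  congr 1
  rw [Finset.mul_sum]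
  apply Finset.sum_congr rfl
  intro i _
  unfold jq
  rw [mul_assoc (F ζ)]
  ring

lemma Qf_cont_mul {E : Type*} [NormedAddCommGroup E] [InnerProductSpace ℂ E] (F : ℂ[X]) (T : E →L[ℂ] E) {a b : ℂ → E}
    (ha : Continuous a) (hb : Continuous b) : Continuous (fun ζ => F.eval ζ * Qf T a b ζ) :=
  F.continuous.mul (Qf_cont T ha hb)

theorem re_inner_le {m : ℕ} {ι : Type*} [Fintype ι] {r ρ : ℝ} (hr0 : 0 < r) (hr1 : r < 1)
    (hρ : ρ = r / (1 + r ^ 2)) (F : ℂ[X]) (M : ℝ)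
    (hM : ∀ B : Fin (m + 1) → ℂ, (∀ k, ‖B k‖ ≤ ρ) → ∀ u v : Fin (m + 1) → ℂ,
      Hf ρ (jq (fun ζ => F.eval ζ) u v) B ≤ M * Hf ρ (gq u v) B)
    (z : Fin (m + 1) → ℂ) (hz : ∀ j, ‖z j‖ ≤ r) (T : EuclideanSpace ℂ ι →L[ℂ] EuclideanSpace ℂ ι)
    (hT : ‖T‖ ≤ 1) (hp : aeval T (∏ j, (X - C (z j))) = 0) (x y : EuclideanSpace ℂ ι) :
    (inner ℂ y ((aeval T F) x)).re ≤ M * ((‖x‖ ^ 2 + ‖y‖ ^ 2) / 2) := by
  have hρ2 : ρ < 1 / 2 := by
    rw [hρ, div_lt_div_iff₀ (by positivity) (by norm_num)]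
    nlinarith [sq_nonneg (1 - r), mul_pos (sub_pos.mpr hr1) (sub_pos.mpr hr1)]
  set p : ℂ[X] := ∏ j, (X - C (z j)) with hpdef
  have hpm : p.Monic := monic_prod_of_monic _ _ (fun j _ => monic_X_sub_C (z j))
  have hpd : p.natDegree = m + 1 := by
    rw [hpdef, natDegree_prod_of_monic _ _ (fun j _ => monic_X_sub_C (z j))]
    simp
  have hpc : p.coeff (m + 1) = 1 := by
    rw [← hpd]; exact hpm.coeff_natDegree
  have hpe : ∀ ζ, p.eval ζ = pz z ζ := by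
    intro ζ
    rw [hpdef, eval_prod]
    simp [pz]
  have key : ∀ x : EuclideanSpace ℂ ι, ∃ v : ℕ → EuclideanSpace ℂ ι, v m = x ∧
      ∀ ζ : ℂ, ‖ζ‖ = 1 → ζ • (iP ρ z ζ • Sv m v ζ) - T (iP ρ z ζ • Sv m v ζ) = x := by
    intro x
    obtain ⟨v, hv1, hv2⟩ := exists_R T x m p hpd.le
    refine ⟨v, by rw [hv1, hpc, one_smul], ?_⟩
    intro ζ hζ
    have h1 := hv2 ζ
    rw [hp, hpe] at h1
    have h2 : ζ • (iP ρ z ζ • Sv m v ζ) - T (iP ρ z ζ • Sv m v ζ) = iP ρ z ζ • (ζ • Sv m v ζ - T (Sv m v ζ)) := by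
      rw [map_smul, smul_sub, smul_comm]
    rw [h2]
    unfold Sv
    rw [h1, iP_eq hr0 hr1 hρ z hz hζ, zero_apply, sub_zero, smul_smul, inv_mul_cancel₀ (pz_ne hr1 z hz hζ), one_smul]
  obtain ⟨D, hD⟩ := exists_D T hT
  obtain ⟨v, hv, hU⟩ := key x
  obtain ⟨u, hu, hV⟩ := key y
  have hB : ∀ k, ‖Bz z k‖ ≤ ρ := fun k => (wt_poincare hr0 hr1 hρ (z k) 1 (hz k) (by simp)).1
  have hi := iP_cont hρ2 z
  have hSv := Sv_cont m v
  have hSu := Sv_cont m u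
  have ca : Continuous (fun ζ => iP ρ z ζ • Sv m v ζ) := by fun_prop
  have cb : Continuous (fun ζ => iP ρ z ζ • Sv m u ζ) := by fun_prop
  have e1 : (inner ℂ y ((aeval T F) x)).re = (kap z)⁻¹ * ∑ i, Hf ρ (jq (fun ζ => F.eval ζ)
      (fun j : Fin (m + 1) => (D (v j)) i) (fun j : Fin (m + 1) => (D (u j)) i)) (Bz z) := by
    rw [← K2poly hr0 hr1 hρ hρ2 z hz T x y v u hv hu hU hV F, ← av_re (Qf_cont_mul F T ca cb),
      ← av_sum_W hρ2 _ _ _ (fun i => jq_cont1 F.continuous _ _)]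
    apply av_congr
    intro ζ hζ
    exact Qf_expand hr0 hr1 hρ z hz T D hD v u (fun ζ => F.eval ζ) ζ hζ
  have e2 : ‖x‖ ^ 2 = (kap z)⁻¹ * ∑ i, Hf ρ (jq (fun _ => 1)
      (fun j : Fin (m + 1) => (D (v j)) i) (fun j : Fin (m + 1) => (D (v j)) i)) (Bz z) := by
    have h0 := K2poly hr0 hr1 hρ hρ2 z hz T x x v v hv hv hU hU 1
    rw [map_one, one_apply_eq_self, inner_self_eq_norm_sq_to_K] at h0
    have h1 : ‖x‖ ^ 2 = (av (fun ζ : ℂ => eval ζ (1 : ℂ[X]) * Qf T (fun ζ => iP ρ z ζ • Sv m v ζ) (fun ζ => iP ρ z ζ • Sv m v ζ) ζ)).re := by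
      rw [h0]
      norm_cast
    rw [h1, ← av_re (Qf_cont_mul 1 T ca ca), 
      ← av_sum_W hρ2 _ _ _ (fun i => jq_cont1 continuous_const _ _)]
    apply av_congr
    intro ζ hζ
    rw [← Qf_expand hr0 hr1 hρ z hz T D hD v v (fun _ => 1) ζ hζ, eval_one]
  have e3 : ‖y‖ ^ 2 = (kap z)⁻¹ * ∑ i, Hf ρ (jq (fun _ => 1)
      (fun j : Fin (m + 1) => (D (u j)) i) (fun j : Fin (m + 1) => (D (u j)) i)) (Bz z) := by
    have h0 := K2poly hr0 hr1 hρ hρ2 z hz T y y u u hu hu hV hV 1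
    rw [map_one, one_apply_eq_self, inner_self_eq_norm_sq_to_K] at h0
    have h1 : ‖y‖ ^ 2 = (av (fun ζ : ℂ => eval ζ (1 : ℂ[X]) * Qf T (fun ζ => iP ρ z ζ • Sv m u ζ) (fun ζ => iP ρ z ζ • Sv m u ζ) ζ)).re := by
      rw [h0]
      norm_cast
    rw [h1, ← av_re (Qf_cont_mul 1 T cb cb), 
      ← av_sum_W hρ2 _ _ _ (fun i => jq_cont1 continuous_const _ _)]
    apply av_congr
    intro ζ hζ
    rw [← Qf_expand hr0 hr1 hρ z hz T D hD u u (fun _ => 1) ζ hζ, eval_one]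
  have e4 : ∀ a b : Fin (m + 1) → ℂ, Hf ρ (gq a b) (Bz z) = (Hf ρ (jq (fun _ => 1) a a) (Bz z) + Hf ρ (jq (fun _ => 1) b b) (Bz z)) / 2 := by
    intro a b
    have hj : ∀ (a : Fin (m + 1) → ℂ) (ζ : ℂ), jq (fun _ => 1) a a ζ = ‖pol a ζ‖ ^ 2 := by
      intro a ζ
      unfold jq
      rw [one_mul, Complex.mul_conj', ← Complex.ofReal_pow, Complex.ofReal_re]
    have c1 : ∀ a : Fin (m + 1) → ℂ, Continuous fun ζ => jq (fun _ => 1) a a ζ * W ρ (Bz z) ζ := fun a =>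
      (jq_cont1 continuous_const a a).mul (W_cont1 hρ2 _)
    unfold Hf
    rw [← av_add (c1 a) (c1 b), div_eq_inv_mul, ← av_real_smul]
    apply av_congr
    intro ζ _
    rw [hj, hj]
    unfold gq
    ring
  rw [e1, e2, e3]
  have e5 : M * (((kap z)⁻¹ * ∑ i, Hf ρ (jq (fun _ => 1)
      (fun j : Fin (m + 1) => (D (v j)) i) (fun j : Fin (m + 1) => (D (v j)) i)) (Bz z) + (kap z)⁻¹ * ∑ i, Hf ρ (jq (fun _ => 1)
      (fun j : Fin (m + 1) => (D (u j)) i) (fun j : Fin (m + 1) => (D (u j)) i)) (Bz z)) / 2) =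
      (kap z)⁻¹ * ∑ i, M * Hf ρ (gq (fun j : Fin (m + 1) => (D (v j)) i) (fun j : Fin (m + 1) => (D (u j)) i)) (Bz z) := by
    rw [← mul_add, ← Finset.sum_add_distrib, ← Finset.mul_sum]
    have : ∑ i, Hf ρ (gq (fun j : Fin (m + 1) => (D (v j)) i) (fun j : Fin (m + 1) => (D (u j)) i)) (Bz z) =
      (∑ i, (Hf ρ (jq (fun _ => 1) (fun j : Fin (m + 1) => (D (v j)) i) (fun j : Fin (m + 1) => (D (v j)) i)) (Bz z) + 
       Hf ρ (jq (fun _ => 1)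
      (fun j : Fin (m + 1) => (D (u j)) i) (fun j : Fin (m + 1) => (D (u j)) i)) (Bz z))) / 2 := by
      rw [Finset.sum_div]
      apply Finset.sum_congr rfl
      intro i _
      rw [e4]
    rw [this]
    ring
  rw [e5]
  apply mul_le_mul_of_nonneg_left _ (inv_nonneg.mpr (kap_pos z).le)
  apply Finset.sum_le_sum
  intro i _
  exact hM (Bz z) hB _ _

end Pool.Agent.Helper654.Ptak
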