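import Pool.Agent.Helper654.PtakF

set_option autoImplicit false
open Complex Metric Set Polynomial
open scoped ComplexConjugate

namespace Pool.Agent.Helper654.Ptak

theorem opNorm_le_of {m : ℕ} {ι : Type*} [Fintype ι] [Nonempty ι] {r ρ : ℝ} (hr0 : 0 < r) (hr1 : r < 1)
    (hρ : ρ = r / (1 + r ^ 2)) (F : ℂ[X]) (M : ℝ)
    (hM : ∀ B : Fin (m + 1) → ℂ, (∀ k, ‖B k‖ ≤ ρ) → ∀ u v : Fin (m + 1) → ℂ,
      Hf ρ (jq (fun ζ => F.eval ζ) u v) B ≤ M * Hf ρ (gq u v) B)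
    (z : Fin (m + 1) → ℂ) (hz : ∀ j, ‖z j‖ ≤ r) (T : EuclideanSpace ℂ ι →L[ℂ] EuclideanSpace ℂ ι)
    (hT : ‖T‖ ≤ 1) (hp : aeval T (∏ j, (X - C (z j))) = 0) : ‖aeval T F‖ ≤ M := by
  have key := re_inner_le hr0 hr1 hρ F M hM z hz T hT hp
  have hM0 : 0 ≤ M := by
    obtain ⟨i⟩ := (inferInstance : Nonempty ι)
    classical
    have h1 := key (EuclideanSpace.single i (1 : ℂ)) 0
    rw [inner_zero_left] at h1
    simp at h1
    linarith
  apply ContinuousLinearMap.opNorm_le_bound _ hM0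
  intro x
  by_cases hx : x = 0
  · subst hx; simp
  have hx0 : 0 < ‖x‖ := norm_pos_iff.mpr hx
  by_cases hF : (aeval T F) x = 0
  · rw [hF, norm_zero]; positivity
  have hF0 : 0 < ‖(aeval T F) x‖ := norm_pos_iff.mpr hF
  have h1 := key x (((‖x‖ / ‖(aeval T F) x‖ : ℝ) : ℂ) • (aeval T F) x)
  have h2 : ‖(((‖x‖ / ‖(aeval T F) x‖ : ℝ) : ℂ) • (aeval T F) x)‖ = ‖x‖ := by
    rw [norm_smul, norm_real, Real.norm_eq_abs, abs_of_pos (div_pos hx0 hF0)]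
    field_simp
  rw [h2, inner_smul_left, Complex.conj_ofReal, re_ofReal_mul, inner_self_eq_norm_sq_to_K] at h1
  have h3 : (((‖(aeval T F) x‖ : ℂ)) ^ 2).re = ‖(aeval T F) x‖ ^ 2 := by
    rw [← Complex.ofReal_pow, Complex.ofReal_re]
  have h4 : ‖x‖ / ‖(aeval T F) x‖ * ‖(aeval T F) x‖ ^ 2 ≤ M * ((‖x‖ ^ 2 + ‖x‖ ^ 2) / 2) := by
    rw [← h3]; exact h1
  have h5 : ‖x‖ / ‖(aeval T F) x‖ * ‖(aeval T F) x‖ ^ 2 = ‖x‖ * ‖(aeval T F) x‖ := by
    field_simp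
  rw [h5] at h4
  have h6 : ‖x‖ * ‖(aeval T F) x‖ ≤ ‖x‖ * (M * ‖x‖) := by nlinarith
  exact le_of_mul_le_mul_left h6 hx0

lemma aeval_coe {E : Type*} [NormedAddCommGroup E] [NormedSpace ℂ E] (T : E →L[ℂ] E) (F : ℂ[X]) :
    ((aeval T F : E →L[ℂ] E) : E →ₗ[ℂ] E) = aeval (T : E →ₗ[ℂ] E) F := by
  induction F using Polynomial.induction_on with
  | C c =>
    rw [aeval_C, aeval_C, Algebra.algebraMap_eq_smul_one, Algebra.algebraMap_eq_smul_one]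
    rfl
  | add P Q hP hQ =>
    rw [map_add, map_add, ← hP, ← hQ]
    rfl
  | monomial k c ih =>
    rw [pow_succ, ← mul_assoc, map_mul (aeval T) (C c * X ^ k) X,
      map_mul (aeval (T : E →ₗ[ℂ] E)) (C c * X ^ k) X, aeval_X, aeval_X, ← ih]
    rfl

lemma exists_roots {n : ℕ} {r : ℝ} (T : EuclideanSpace ℂ (Fin n) →L[ℂ] EuclideanSpace ℂ (Fin n)) (q : ℂ[X])
    (hroots : ∀ z, q.eval z = 0 → ‖z‖ ≤ r) (hT : aeval T q = 0) :
    ∃ z : Fin n → ℂ, (∀ j, ‖z j‖ ≤ r) ∧ aeval T (∏ j, (X - C (z j))) = 0 := by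
  set f : EuclideanSpace ℂ (Fin n) →ₗ[ℂ] EuclideanSpace ℂ (Fin n) := (T : EuclideanSpace ℂ (Fin n) →ₗ[ℂ] EuclideanSpace ℂ (Fin n)) with hf
  have hm : f.charpoly.Monic := LinearMap.charpoly_monic f
  have hd : f.charpoly.natDegree = n := by
    rw [LinearMap.charpoly_natDegree]; simp
  have hs := IsAlgClosed.splits f.charpoly
  have hcard : f.charpoly.roots.card = n := by rw [← hs.natDegree_eq_card_roots, hd]
  have heq := hs.eq_prod_roots_of_monic hm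
  have hev : ∀ μ ∈ f.charpoly.roots, ‖μ‖ ≤ r := by
    intro μ hμ
    have h1 : f.charpoly.IsRoot μ := (mem_roots'.mp hμ).2
    have h2 : Module.End.HasEigenvalue f μ := (Module.End.hasEigenvalue_iff_isRoot_charpoly f μ).mpr h1
    obtain ⟨w, hw⟩ := h2.exists_hasEigenvector
    have h3 := Module.End.aeval_apply_of_hasEigenvector (f := f) (p := q) hw
    have h4 : (aeval f q) w = 0 := by
      rw [hf, ← aeval_coe, hT]; rfl
    rw [h4] at h3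
    have h5 : q.eval μ = 0 := by
      rcases smul_eq_zero.mp h3.symm with h | h
      · exact h
      · exact absurd h hw.2
    exact hroots μ h5
  obtain ⟨l, hl⟩ : ∃ l : List ℂ, (l : Multiset ℂ) = f.charpoly.roots := Quotient.exists_rep _
  have hlen : l.length = n := by rw [← Multiset.coe_card, hl, hcard]
  subst hlen
  refine ⟨fun j => l[j.1], ?_, ?_⟩
  · intro j
    apply hev
    rw [← hl]
    exact Multiset.mem_coe.mpr (List.getElem_mem _)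
  · have h1 : ∏ j : Fin l.length, (X - C (l[j.1])) = f.charpoly := by
      rw [heq, ← hl, Multiset.map_coe, Multiset.prod_coe]
      rw [← Fin.prod_univ_fun_getElem l (fun a => X - C a)]
    rw [h1]
    have h2 := aeval_coe T f.charpoly
    rw [← hf, LinearMap.aeval_self_charpoly] at h2
    ext1 x
    have := congrArg (fun g : EuclideanSpace ℂ (Fin l.length) →ₗ[ℂ] EuclideanSpace ℂ (Fin l.length) => g x) h2
    exact this

/-- Polynomial version of the main theorem. -/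
theorem poly_main {m : ℕ} {r : ℝ} (hr0 : 0 < r) (hr1 : r < 1) (F : ℂ[X]) :
    ∃ a : ℂ, ‖a‖ = r ∧ ∃ T₀ : EuclideanSpace ℂ (Fin (m + 1)) →L[ℂ] EuclideanSpace ℂ (Fin (m + 1)), ‖T₀‖ ≤ 1 ∧
      aeval T₀ ((X - C a) ^ (m + 1)) = 0 ∧
      ∀ T : EuclideanSpace ℂ (Fin (m + 1)) →L[ℂ] EuclideanSpace ℂ (Fin (m + 1)), ‖T‖ ≤ 1 →
        ∀ q : ℂ[X], (∀ z, q.eval z = 0 → ‖z‖ ≤ r) → aeval T q = 0 → ‖aeval T F‖ ≤ ‖aeval T₀ F‖ := by
  obtain ⟨M, hM, β, hβ, u, v, huv, h⟩ := exists_M (Nat.succ_pos m) hr0 hr1 (ρ := r / (1 + r ^ 2)) rfl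
    (F := fun ζ => F.eval ζ) F.continuous
  obtain ⟨a, ha, T₀, hT1, hT2, hT3⟩ := exists_extremal hr0 hr1 rfl F M β hβ u v huv h
  refine ⟨a, ha, T₀, hT1, hT2, ?_⟩
  intro T hT q hq hqT
  obtain ⟨z, hz1, hz2⟩ := exists_roots T q hq hqT
  exact (opNorm_le_of hr0 hr1 rfl F M hM z hz1 T hT hz2).trans hT3

end Pool.Agent.Helper654.Ptak
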