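import Pool.Agent.Helper654.PtakG

set_option autoImplicit false
open Complex Metric Set Polynomial Filter Topology
open scoped ComplexConjugate

namespace Pool.Agent.Helper654.Ptak

/-- the bound on powers -/
noncomputable def bd (n : ℕ) (r : ℝ) (k : ℕ) : ℝ :=
  ∑ j ∈ Finset.range n, (k.choose j : ℝ) * r ^ (k - j) * 2 ^ j

lemma bd_summable {n : ℕ} {r s : ℝ} (hr0 : 0 < r) (hrs : r < s) {c : ℕ → ℂ} {K : ℝ} (hK : ∀ k, ‖c k‖ * s ^ k ≤ K) :
    Summable (fun k => ‖c k‖ * bd n r k) := by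
  have hs0 : 0 < s := hr0.trans hrs
  have hK0 : 0 ≤ K := le_trans (by positivity) (hK 0)
  have h1 : ∀ j, Summable (fun k : ℕ => (k.choose j : ℝ) * (r / s) ^ k) := by
    intro j
    rw [← summable_nat_add_iff j]
    have h := summable_choose_mul_geometric_of_norm_lt_one (R := ℝ) j (r := r / s) (by
      rw [Real.norm_eq_abs, abs_of_pos (div_pos hr0 hs0), div_lt_one hs0]; exact hrs)
    have h2 := h.mul_right ((r / s) ^ j)
    refine h2.congr ?_
    intro k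
    rw [pow_add, mul_assoc]
  have h2 : Summable (fun k : ℕ => ∑ j ∈ Finset.range n, K * ((k.choose j : ℝ) * (r / s) ^ k) * ((r⁻¹) ^ j * 2 ^ j)) := by
    apply summable_sum
    intro j _
    exact ((h1 j).mul_left K).mul_right _
  refine Summable.of_nonneg_of_le (fun k => ?_) (fun k => ?_) h2
  · unfold bd; positivity
  · unfold bd
    rw [Finset.mul_sum]
    apply Finset.sum_le_sum
    intro j _
    by_cases hj : j ≤ k
    · have e1 : r ^ (k - j) = r ^ k * (r⁻¹) ^ j := by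
        rw [inv_pow, pow_sub₀ _ hr0.ne' hj]
      have e2 : ‖c k‖ ≤ K / s ^ k := by
        rw [le_div_iff₀ (by positivity)]; exact hK k
      rw [e1]
      calc ‖c k‖ * (↑(k.choose j) * (r ^ k * r⁻¹ ^ j) * 2 ^ j) 
          ≤ (K / s ^ k) * (↑(k.choose j) * (r ^ k * r⁻¹ ^ j) * 2 ^ j) := by
            apply mul_le_mul_of_nonneg_right e2; positivity
        _ = K * (↑(k.choose j) * (r / s) ^ k) * (r⁻¹ ^ j * 2 ^ j) := by
            rw [div_pow]; ring
    · have : k.choose j = 0 := Nat.choose_eq_zero_of_lt (by omega)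
      rw [this]
      simp

lemma pow_bound {n : ℕ} {r : ℝ} (hr0 : 0 < r) (hr1 : r < 1) {E : Type*} [NormedAddCommGroup E] [NormedSpace ℂ E]
    (T : E →L[ℂ] E) (hT : ‖T‖ ≤ 1) (a : ℂ) (ha : ‖a‖ ≤ r) (h : aeval T ((X - C a) ^ n) = 0) (k : ℕ) :
    ‖T ^ k‖ ≤ bd n r k := by
  obtain ⟨N, hN⟩ : ∃ N : E →L[ℂ] E, N = T - algebraMap ℂ (E →L[ℂ] E) a := ⟨_, rfl⟩
  have hNn : N ^ n = 0 := by
    rw [map_pow, map_sub, aeval_X, aeval_C, ← hN] at h
    exact h
  have hTN : T = N + algebraMap ℂ (E →L[ℂ] E) a := by rw [hN]; abel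
  have hcomm : Commute N (algebraMap ℂ (E →L[ℂ] E) a) := (Algebra.commutes a N).symm
  have hone : ‖(1 : E →L[ℂ] E)‖ ≤ 1 := ContinuousLinearMap.norm_id_le
  have halg : ∀ b : ℂ, ‖algebraMap ℂ (E →L[ℂ] E) b‖ ≤ ‖b‖ := by
    intro b
    rw [Algebra.algebraMap_eq_smul_one]
    refine (norm_smul_le _ _).trans ?_
    have := norm_nonneg b
    nlinarith
  have hN2 : ‖N‖ ≤ 2 := by
    rw [hN]
    refine (norm_sub_le _ _).trans ?_
    have := halg a
    linarith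
  have hNpow : ∀ j, ‖N ^ j‖ ≤ 2 ^ j := by
    intro j
    induction j with
    | zero => simpa using hone
    | succ j ih =>
      rw [pow_succ, pow_succ]
      refine (norm_mul_le _ _).trans ?_
      exact mul_le_mul ih hN2 (norm_nonneg _) (by positivity)
  rw [hTN, hcomm.add_pow]
  have hterm : ∀ m, ‖N ^ m * (algebraMap ℂ (E →L[ℂ] E) a) ^ (k - m) * ((k.choose m : ℕ) : E →L[ℂ] E)‖ ≤
      (k.choose m : ℝ) * r ^ (k - m) * 2 ^ m := by
    intro m
    have e1 : ((k.choose m : ℕ) : E →L[ℂ] E) = algebraMap ℂ (E →L[ℂ] E) ((k.choose m : ℕ) : ℂ) := by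
      rw [map_natCast]
    rw [e1, ← map_pow]
    have e2 := halg (a ^ (k - m))
    have e3 := halg ((k.choose m : ℕ) : ℂ)
    rw [norm_pow] at e2
    rw [Complex.norm_natCast] at e3
    have e4 : ‖a‖ ^ (k - m) ≤ r ^ (k - m) := pow_le_pow_left₀ (norm_nonneg a) ha _
    calc _ ≤ ‖N ^ m‖ * ‖algebraMap ℂ (E →L[ℂ] E) (a ^ (k - m))‖ * ‖algebraMap ℂ (E →L[ℂ] E) ((k.choose m : ℕ) : ℂ)‖ := by
            refine (norm_mul_le _ _).trans ?_
            exact mul_le_mul_of_nonneg_right (norm_mul_le _ _) (norm_nonneg _)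
      _ ≤ 2 ^ m * r ^ (k - m) * (k.choose m : ℝ) := by
            apply mul_le_mul _ e3 (norm_nonneg _) (by positivity)
            exact mul_le_mul (hNpow m) (e2.trans e4) (norm_nonneg _) (by positivity)
      _ = _ := by ring
  refine (norm_sum_le _ _).trans ?_
  unfold bd
  -- split
  have h1 : ∑ m ∈ Finset.range (k + 1), ‖N ^ m * (algebraMap ℂ (E →L[ℂ] E) a) ^ (k - m) * ((k.choose m : ℕ) : E →L[ℂ] E)‖ =
      ∑ m ∈ (Finset.range (k + 1)).filter (fun m => m < n), ‖N ^ m * (algebraMap ℂ (E →L[ℂ] E) a) ^ (k - m) * ((k.choose m : ℕ) : E →L[ℂ] E)‖ := by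
    symm
    apply Finset.sum_subset (Finset.filter_subset _ _)
    intro m hm hm2
    have : n ≤ m := by
      by_contra hcon
      push Not at hcon
      exact hm2 (Finset.mem_filter.mpr ⟨hm, hcon⟩)
    obtain ⟨d, rfl⟩ := Nat.exists_eq_add_of_le this
    rw [pow_add, hNn]
    simp
  rw [h1]
  refine (Finset.sum_le_sum (fun m _ => hterm m)).trans ?_
  apply Finset.sum_le_sum_of_subset_of_nonneg
  · intro m hm
    rw [Finset.mem_filter] at hm
    exact Finset.mem_range.mpr hm.2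
  · intro m _ _
    positivity

lemma cls_pow_bound {m : ℕ} {r : ℝ} (hr0 : 0 < r) (hr1 : r < 1)
    (T : EuclideanSpace ℂ (Fin (m + 1)) →L[ℂ] EuclideanSpace ℂ (Fin (m + 1))) (hT : ‖T‖ ≤ 1)
    (q : ℂ[X]) (hq : ∀ z, q.eval z = 0 → ‖z‖ ≤ r) (hqT : aeval T q = 0) (k : ℕ) : ‖T ^ k‖ ≤ bd (m + 1) r k := by
  obtain ⟨a, ha, T₀, h1, h2, h3⟩ := poly_main (m := m) hr0 hr1 (X ^ k)
  have h4 := h3 T hT q hq hqT
  rw [map_pow, map_pow, aeval_X, aeval_X] at h4
  exact h4.trans (pow_bound hr0 hr1 T₀ h1 a ha.le h2 k)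

/-- truncation -/
lemma trunc_tendsto {m : ℕ} {r s : ℝ} (hr0 : 0 < r) (hrs : r < s) {c : ℕ → ℂ} {K : ℝ}
    (hK : ∀ k, ‖c k‖ * s ^ k ≤ K) (φ : ℕ → ℕ) (hφ : StrictMono φ)
    (T : ℕ → EuclideanSpace ℂ (Fin (m + 1)) →L[ℂ] EuclideanSpace ℂ (Fin (m + 1)))
    (T₀ : EuclideanSpace ℂ (Fin (m + 1)) →L[ℂ] EuclideanSpace ℂ (Fin (m + 1)))
    (hb : ∀ N k, ‖(T N) ^ k‖ ≤ bd (m + 1) r k) (hlim : Tendsto T atTop (𝓝 T₀)) :
    Tendsto (fun N => aeval (T N) (∑ k ∈ Finset.range (φ N), C (c k) * X ^ k)) atTop (𝓝 (∑' k, c k • T₀ ^ k)) := by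
  have h1 : ∀ N, aeval (T N) (∑ k ∈ Finset.range (φ N), C (c k) * X ^ k) =
      ∑' k, (if k < φ N then c k • (T N) ^ k else 0) := by
    intro N
    rw [tsum_eq_sum (s := Finset.range (φ N))]
    · rw [map_sum]
      apply Finset.sum_congr rfl
      intro k hk
      rw [if_pos (Finset.mem_range.mp hk), map_mul, map_pow, aeval_X, aeval_C, Algebra.algebraMap_eq_smul_one,
        smul_one_mul]
    · intro k hk
      rw [if_neg (fun h => hk (Finset.mem_range.mpr h))]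
  simp only [h1]
  apply tendsto_tsum_of_dominated_convergence (bd_summable (n := m + 1) hr0 hrs hK)
  · intro k
    have h2 : Tendsto (fun N => c k • (T N) ^ k) atTop (𝓝 (c k • T₀ ^ k)) := (hlim.pow k).const_smul (c k)
    apply h2.congr'
    filter_upwards [Filter.eventually_gt_atTop k] with N hN
    have : k < φ N := lt_of_lt_of_le hN (hφ.id_le N)
    rw [if_pos this]
  · apply Filter.Eventually.of_forall
    intro N k
    by_cases h : k < φ N
    · rw [if_pos h]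
      exact (norm_smul_le (c k) ((T N) ^ k)).trans (mul_le_mul_of_nonneg_left (hb N k) (norm_nonneg _))
    · rw [if_neg h, norm_zero]
      unfold bd
      positivity

theorem series_main {m : ℕ} {r s : ℝ} (hr0 : 0 < r) (hr1 : r < 1) (hrs : r < s) (c : ℕ → ℂ) (K : ℝ)
    (hK : ∀ k, ‖c k‖ * s ^ k ≤ K) :
    ∃ a : ℂ, ‖a‖ = r ∧ ∃ T₀ : EuclideanSpace ℂ (Fin (m + 1)) →L[ℂ] EuclideanSpace ℂ (Fin (m + 1)), ‖T₀‖ ≤ 1 ∧
      aeval T₀ ((X - C a) ^ (m + 1)) = 0 ∧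
      ∀ T : EuclideanSpace ℂ (Fin (m + 1)) →L[ℂ] EuclideanSpace ℂ (Fin (m + 1)), ‖T‖ ≤ 1 →
        ∀ q : ℂ[X], (∀ z, q.eval z = 0 → ‖z‖ ≤ r) → aeval T q = 0 →
          ‖∑' k, c k • T ^ k‖ ≤ ‖∑' k, c k • T₀ ^ k‖ := by
  choose a ha T hT1 hT2 hT3 using fun N : ℕ => poly_main (m := m) hr0 hr1 (∑ k ∈ Finset.range N, C (c k) * X ^ k)
  set S : Set (ℂ × (EuclideanSpace ℂ (Fin (m + 1)) →L[ℂ] EuclideanSpace ℂ (Fin (m + 1)))) :=
    sphere 0 r ×ˢ closedBall 0 1 with hS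
  have hSc : IsCompact S := (isCompact_sphere _ _).prod (isCompact_closedBall _ _)
  have hmem : ∀ N, (a N, T N) ∈ S := fun N => ⟨by simp [ha N], by simp [hT1 N]⟩
  obtain ⟨⟨a₀, T₀⟩, h0, φ, hφ, hlim⟩ := hSc.tendsto_subseq hmem
  have hla : Tendsto (fun N => a (φ N)) atTop (𝓝 a₀) := (continuous_fst.tendsto _).comp hlim
  have hlT : Tendsto (fun N => T (φ N)) atTop (𝓝 T₀) := (continuous_snd.tendsto _).comp hlim
  have ha0 : ‖a₀‖ = r := by simpa using h0.1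
  have hT0 : ‖T₀‖ ≤ 1 := by simpa using h0.2
  have hT02 : aeval T₀ ((X - C a₀) ^ (m + 1)) = 0 := by
    have h1 : ∀ N, (T (φ N) - (a (φ N)) • (1 : EuclideanSpace ℂ (Fin (m + 1)) →L[ℂ] EuclideanSpace ℂ (Fin (m + 1)))) ^ (m + 1) = 0 := by
      intro N
      have := hT2 (φ N)
      rw [map_pow, map_sub, aeval_X, aeval_C, Algebra.algebraMap_eq_smul_one] at this
      exact this
    have h2 : Tendsto (fun N => (T (φ N) - (a (φ N)) • (1 : EuclideanSpace ℂ (Fin (m + 1)) →L[ℂ] EuclideanSpace ℂ (Fin (m + 1)))) ^ (m + 1)) atTop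
        (𝓝 ((T₀ - a₀ • (1 : EuclideanSpace ℂ (Fin (m + 1)) →L[ℂ] EuclideanSpace ℂ (Fin (m + 1)))) ^ (m + 1))) :=
      (hlT.sub (hla.smul_const _)).pow _
    simp only [h1] at h2
    have h3 := tendsto_nhds_unique h2 tendsto_const_nhds
    rw [map_pow, map_sub, aeval_X, aeval_C, Algebra.algebraMap_eq_smul_one]
    exact h3
  refine ⟨a₀, ha0, T₀, hT0, hT02, ?_⟩
  intro T' hT' q hq hqT
  have hb' := cls_pow_bound hr0 hr1 T' hT' q hq hqT
  have l1 := trunc_tendsto hr0 hrs hK φ hφ (fun _ => T') T' (fun _ => hb') tendsto_const_nhds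
  have l2 := trunc_tendsto hr0 hrs hK φ hφ (fun N => T (φ N)) T₀
    (fun N => pow_bound hr0 hr1 (T (φ N)) (hT1 _) (a (φ N)) (ha _).le (hT2 _)) hlT
  exact le_of_tendsto_of_tendsto' l1.norm l2.norm (fun N => hT3 (φ N) T' hT' q hq hqT)

end Pool.Agent.Helper654.Ptak
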