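import Pool.Agent.Helper654.PtakH

set_option autoImplicit false
open Complex Metric Set Polynomial Filter Topology
open scoped ComplexConjugate

namespace Pool.Agent.Helper654.Ptak

/-- Taylor coefficients at 0 -/
noncomputable def tay (f : ℂ → ℂ) (k : ℕ) : ℂ := iteratedDeriv k f 0 / (k.factorial : ℂ)

lemma tay_bound {f : ℂ → ℂ} {r R : ℝ} (hr0 : 0 < r) (hrR : r < R) (hf : DifferentiableOn ℂ f (ball 0 R)) :
    ∃ s, r < s ∧ s < R ∧ ∃ K, ∀ k, ‖tay f k‖ * s ^ k ≤ K := by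
  obtain ⟨s, hs1, hs2⟩ := exists_between hrR
  have hs0 : 0 < s := hr0.trans hs1
  have hcl : DiffContOnCl ℂ f (ball 0 s) := by
    apply DifferentiableOn.diffContOnCl
    rw [closure_ball (0 : ℂ) hs0.ne']
    exact hf.mono (closedBall_subset_ball hs2)
  have hcont : ContinuousOn f (sphere 0 s) :=
    (hf.continuousOn).mono (sphere_subset_closedBall.trans (closedBall_subset_ball hs2))
  obtain ⟨K, hK⟩ := (isCompact_sphere (0 : ℂ) s).exists_bound_of_continuousOn hcont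
  refine ⟨s, hs1, hs2, K, ?_⟩
  intro k
  have h1 := Complex.norm_iteratedDeriv_le_of_forall_mem_sphere_norm_le k hs0 hcl hK
  unfold tay
  rw [norm_div, Complex.norm_natCast]
  have h2 : (0 : ℝ) < k.factorial := by exact_mod_cast k.factorial_pos
  have h3 : (0 : ℝ) < s ^ k := by positivity
  calc ‖iteratedDeriv k f 0‖ / (k.factorial : ℝ) * s ^ k ≤ (k.factorial * K / s ^ k) / (k.factorial : ℝ) * s ^ k := by
        apply mul_le_mul_of_nonneg_right _ h3.le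
        exact div_le_div_of_nonneg_right h1 h2.le
    _ = K := by field_simp

lemma cls_summable {m : ℕ} {r s : ℝ} (hr0 : 0 < r) (hr1 : r < 1) (hrs : r < s) {c : ℕ → ℂ} {K : ℝ}
    (hK : ∀ k, ‖c k‖ * s ^ k ≤ K) (T : EuclideanSpace ℂ (Fin (m + 1)) →L[ℂ] EuclideanSpace ℂ (Fin (m + 1)))
    (hT : ‖T‖ ≤ 1) (q : ℂ[X]) (hq : ∀ z, q.eval z = 0 → ‖z‖ ≤ r) (hqT : aeval T q = 0) :
    Summable (fun k => c k • T ^ k) := by
  apply Summable.of_norm_bounded (bd_summable (n := m + 1) hr0 hrs hK)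
  intro k
  exact (norm_smul_le (c k) (T ^ k)).trans
    (mul_le_mul_of_nonneg_left (cls_pow_bound hr0 hr1 T hT q hq hqT k) (norm_nonneg _))

/-- the set of contractions annihilated by `p` -/
def An (n : ℕ) (p : ℂ[X]) : Set (EuclideanSpace ℂ (Fin n) →L[ℂ] EuclideanSpace ℂ (Fin n)) :=
  {T | ‖T‖ ≤ 1 ∧ aeval T p = 0}

lemma An_compact (n : ℕ) (p : ℂ[X]) : IsCompact (An n p) := by
  have h1 : An n p = closedBall 0 1 ∩ (fun T => aeval T p) ⁻¹' {0} := by
    ext T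
    simp [An]
  rw [h1]
  have hc : Continuous (fun T : EuclideanSpace ℂ (Fin n) →L[ℂ] EuclideanSpace ℂ (Fin n) => aeval T p) := by
    have : (fun T : EuclideanSpace ℂ (Fin n) →L[ℂ] EuclideanSpace ℂ (Fin n) => aeval T p) =
        fun T => ∑ i ∈ Finset.range (p.natDegree + 1), p.coeff i • T ^ i := by
      ext1 T
      exact Polynomial.aeval_eq_sum_range T
    rw [this]
    fun_prop
  exact (isCompact_closedBall _ _).inter_right (isClosed_singleton.preimage hc)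

lemma An_nonempty {n : ℕ} {p : ℂ[X]} (z : ℂ) (hz : ‖z‖ ≤ 1) (hp : p.eval z = 0) : (An n p).Nonempty := by
  refine ⟨algebraMap ℂ _ z, ?_, ?_⟩
  · rw [Algebra.algebraMap_eq_smul_one]
    refine (norm_smul_le _ _).trans ?_
    have : ‖(1 : EuclideanSpace ℂ (Fin n) →L[ℂ] EuclideanSpace ℂ (Fin n))‖ ≤ 1 := ContinuousLinearMap.norm_id_le
    have := norm_nonneg z
    nlinarith [norm_nonneg (1 : EuclideanSpace ℂ (Fin n) →L[ℂ] EuclideanSpace ℂ (Fin n))]
  · rw [Polynomial.aeval_algebraMap_apply]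
    rw [Polynomial.coe_aeval_eq_eval, hp, map_zero]

lemma attained {m : ℕ} {r s : ℝ} (hr0 : 0 < r) (hr1 : r < 1) (hrs : r < s) {c : ℕ → ℂ} {K : ℝ}
    (hK : ∀ k, ‖c k‖ * s ^ k ≤ K) (p : ℂ[X]) (hp : ∀ z, p.eval z = 0 → ‖z‖ ≤ r) (hne : (An (m + 1) p).Nonempty) :
    ∃ T ∈ An (m + 1) p, ∀ T' ∈ An (m + 1) p, ‖∑' k, c k • T' ^ k‖ ≤ ‖∑' k, c k • T ^ k‖ := by
  have hcont : ContinuousOn (fun T : EuclideanSpace ℂ (Fin (m + 1)) →L[ℂ] EuclideanSpace ℂ (Fin (m + 1)) =>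
      ∑' k, c k • T ^ k) (An (m + 1) p) := by
    apply continuousOn_tsum (u := fun k => ‖c k‖ * bd (m + 1) r k)
    · intro k
      fun_prop
    · exact bd_summable hr0 hrs hK
    · intro k T hT
      exact (norm_smul_le (c k) (T ^ k)).trans
        (mul_le_mul_of_nonneg_left (cls_pow_bound hr0 hr1 T hT.1 p hp hT.2 k) (norm_nonneg _))
  obtain ⟨T, hT, hmax⟩ := (An_compact (m + 1) p).exists_isMaxOn hne hcont.norm
  exact ⟨T, hT, fun T' hT' => hmax hT'⟩

end Pool.Agent.Helper654.Ptak
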