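import Pool.Agent.Helper654.PtakI

set_option autoImplicit false
open Complex Metric Set Polynomial Filter Topology
open scoped ComplexConjugate

namespace Pool.Agent.Helper654.Ptak

/-- Ptak's matrix for `(z-a)^n`. -/
noncomputable def Umat (n : ℕ) (a : ℂ) : Matrix (Fin n) (Fin n) ℂ :=
  Matrix.of fun i j => if i = j then a else if i < j then
    ((1 - ‖a‖ ^ 2 : ℝ) : ℂ) * (-(conj a)) ^ ((j : ℕ) - (i : ℕ) - 1) else 0

def Smat (n : ℕ) : Matrix (Fin n) (Fin n) ℂ := Matrix.of fun i j => if (j : ℕ) = (i : ℕ) + 1 then 1 else 0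

noncomputable def Uop (n : ℕ) (a : ℂ) : EuclideanSpace ℂ (Fin n) →L[ℂ] EuclideanSpace ℂ (Fin n) :=
  Matrix.toEuclideanCLM (𝕜 := ℂ) (Umat n a)

lemma aeval_toCLM {n : ℕ} (M : Matrix (Fin n) (Fin n) ℂ) (p : ℂ[X]) :
    aeval (Matrix.toEuclideanCLM (𝕜 := ℂ) M) p = Matrix.toEuclideanCLM (𝕜 := ℂ) (aeval M p) :=
  Polynomial.aeval_algHom_apply (Matrix.toEuclideanCLM (n := Fin n) (𝕜 := ℂ)).toAlgEquiv.toAlgHom M p

lemma Uop_annih (n : ℕ) (a : ℂ) : aeval (Uop n a) ((X - C a) ^ n) = 0 := by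
  unfold Uop
  rw [aeval_toCLM]
  have h1 : (Umat n a).charpoly = (X - C a) ^ n := by
    rw [Matrix.charpoly_of_isUpperTriangular]
    · simp [Umat]
    · intro i j hij
      have hij' : j < i := hij
      simp only [Umat, Matrix.of_apply]
      rw [if_neg (ne_of_gt hij'), if_neg (not_lt_of_gt hij')]
  rw [← h1, Matrix.aeval_self_charpoly, map_zero]

/-- multiplication by the shift on the left -/
lemma Smat_mul {n : ℕ} (M : Matrix (Fin n) (Fin n) ℂ) (i j : Fin n) :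
    (Smat n * M) i j = if h : (i : ℕ) + 1 < n then M ⟨i + 1, h⟩ j else 0 := by
  rw [Matrix.mul_apply]
  by_cases h : (i : ℕ) + 1 < n
  · rw [dif_pos h, Finset.sum_eq_single ⟨i + 1, h⟩]
    · simp [Smat]
    · intro k _ hk
      have : ¬ ((k : ℕ) = i + 1) := fun h' => hk (Fin.ext h')
      simp [Smat, this]
    · intro h'; exact absurd (Finset.mem_univ _) h'
  · rw [dif_neg h]
    apply Finset.sum_eq_zero
    intro k _
    have : ¬ ((k : ℕ) = i + 1) := by have := k.2; omega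
    simp [Smat, this]

lemma Smat_mulVec {n : ℕ} (x : Fin n → ℂ) (i : Fin n) :
    (Smat n).mulVec x i = if h : (i : ℕ) + 1 < n then x ⟨i + 1, h⟩ else 0 := by
  rw [Matrix.mulVec, dotProduct]
  by_cases h : (i : ℕ) + 1 < n
  · rw [dif_pos h, Finset.sum_eq_single ⟨i + 1, h⟩]
    · simp [Smat]
    · intro k _ hk
      have : ¬ ((k : ℕ) = i + 1) := fun h' => hk (Fin.ext h')
      simp [Smat, this]
    · intro h'; exact absurd (Finset.mem_univ _) h'
  · rw [dif_neg h]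
    apply Finset.sum_eq_zero
    intro k _
    have : ¬ ((k : ℕ) = i + 1) := by have := k.2; omega
    simp [Smat, this]

lemma key_mat (n : ℕ) (a : ℂ) :
    (1 + (conj a) • Smat n) * Umat n a = Smat n + a • (1 : Matrix (Fin n) (Fin n) ℂ) := by
  have hna : ((1 - ‖a‖ ^ 2 : ℝ) : ℂ) = 1 - conj a * a := by
    push_cast
    rw [← Complex.conj_mul']
  ext i j
  rw [add_mul, one_mul, smul_mul_assoc, Matrix.add_apply, Matrix.smul_apply, Smat_mul, Matrix.add_apply,
    Matrix.smul_apply, Matrix.one_apply]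
  simp only [Umat, Smat, Matrix.of_apply, smul_eq_mul]
  rw [hna]
  have hi := i.2
  have hj := j.2
  rcases lt_trichotomy (i : ℕ) (j : ℕ) with h | h | h
  · have h1 : ¬ (i = j) := fun h' => by rw [h'] at h; exact lt_irrefl _ h
    have h2 : i < j := h
    have h3 : (i : ℕ) + 1 < n := by omega
    rw [if_neg h1, if_pos h2, dif_pos h3, if_neg h1]
    by_cases h4 : (j : ℕ) = i + 1
    · have h5 : (⟨(i : ℕ) + 1, h3⟩ : Fin n) = j := Fin.ext h4.symm
      rw [if_pos h5, if_pos h4]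
      have h6 : (j : ℕ) - i - 1 = 0 := by omega
      rw [h6]
      ring
    · have h5 : ¬ ((⟨(i : ℕ) + 1, h3⟩ : Fin n) = j) := fun h' => h4 (congrArg Fin.val h').symm
      have h6 : (⟨(i : ℕ) + 1, h3⟩ : Fin n) < j := by
        rw [Fin.lt_def]; simp only; omega
      rw [if_neg h5, if_pos h6, if_neg h4]
      have h7 : (j : ℕ) - i - 1 = ((j : ℕ) - (i + 1) - 1) + 1 := by omega
      rw [h7]
      ring
  · have h1 : i = j := Fin.ext h
    subst h1
    have h4 : ¬ ((i : ℕ) = i + 1) := by omega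
    rw [if_pos rfl, if_neg h4, if_pos rfl]
    by_cases h3 : (i : ℕ) + 1 < n
    · have h5 : ¬ ((⟨(i : ℕ) + 1, h3⟩ : Fin n) = i) := fun h' => h4 (congrArg Fin.val h').symm
      have h6 : ¬ ((⟨(i : ℕ) + 1, h3⟩ : Fin n) < i) := by
        rw [Fin.lt_def]; simp only; omega
      rw [dif_pos h3, if_neg h5, if_neg h6]
      ring
    · rw [dif_neg h3]
      ring
  · have h1 : ¬ (i = j) := fun h' => by rw [h'] at h; exact lt_irrefl _ h
    have h2 : ¬ (i < j) := by rw [Fin.lt_def]; omega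
    have h4 : ¬ ((j : ℕ) = i + 1) := by omega
    rw [if_neg h1, if_neg h2, if_neg h4, if_neg h1]
    by_cases h3 : (i : ℕ) + 1 < n
    · have h5 : ¬ ((⟨(i : ℕ) + 1, h3⟩ : Fin n) = j) := fun h' => by
        have := congrArg Fin.val h'; simp only at this; omega
      have h6 : ¬ ((⟨(i : ℕ) + 1, h3⟩ : Fin n) < j) := by
        rw [Fin.lt_def]; simp only; omega
      rw [dif_pos h3, if_neg h5, if_neg h6]
      ring
    · rw [dif_neg h3]
      ring

lemma P_isUnit (n : ℕ) (a : ℂ) : IsUnit (1 + (conj a) • Smat n : Matrix (Fin n) (Fin n) ℂ) := by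
  rw [Matrix.isUnit_iff_isUnit_det]
  have h1 : (1 + (conj a) • Smat n : Matrix (Fin n) (Fin n) ℂ).det = 1 := by
    rw [Matrix.det_of_isUpperTriangular]
    · apply Finset.prod_eq_one
      intro i _
      simp [Smat]
    · intro i j hij
      have hij' : j < i := hij
      have h2 : ¬ (i = j) := ne_of_gt hij'
      have h3 : ¬ ((j : ℕ) = i + 1) := by rw [Fin.lt_def] at hij'; omega
      simp [Smat, h2, h3]
  rw [h1]
  exact isUnit_one

lemma key_mat' (n : ℕ) (a : ℂ) :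
    Umat n a * (1 + (conj a) • Smat n) = Smat n + a • (1 : Matrix (Fin n) (Fin n) ℂ) := by
  have hu := P_isUnit n a
  have h1 := key_mat n a
  set P : Matrix (Fin n) (Fin n) ℂ := 1 + (conj a) • Smat n with hP
  have h2 : P * (Umat n a * P) = P * (Smat n + a • (1 : Matrix (Fin n) (Fin n) ℂ)) := by
    rw [← mul_assoc, h1, hP]
    simp only [mul_add, add_mul, mul_one, one_mul, smul_mul_assoc, mul_smul_comm]
    module
  exact hu.mul_left_cancel h2

lemma Smat_norm {n : ℕ} (x : EuclideanSpace ℂ (Fin n)) :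
    ‖Matrix.toEuclideanCLM (𝕜 := ℂ) (Smat n) x‖ ^ 2 ≤ ‖x‖ ^ 2 := by
  rw [EuclideanSpace.norm_sq_eq, EuclideanSpace.norm_sq_eq]
  have h1 : ∀ i, ‖(Matrix.toEuclideanCLM (𝕜 := ℂ) (Smat n) x) i‖ ^ 2 =
      if h : (i : ℕ) + 1 < n then ‖x ⟨i + 1, h⟩‖ ^ 2 else 0 := by
    intro i
    have h2 : (Matrix.toEuclideanCLM (𝕜 := ℂ) (Smat n) x) i = (Smat n).mulVec x.ofLp i := rfl
    rw [h2, Smat_mulVec]
    by_cases h : (i : ℕ) + 1 < n
    · rw [dif_pos h, dif_pos h]
    · rw [dif_neg h, dif_neg h]; simp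
  rw [Finset.sum_congr rfl (fun i _ => h1 i)]
  rcases n with _ | n
  · simp
  · rw [Fin.sum_univ_castSucc]
    have h3 : ¬ (((Fin.last n : Fin (n + 1)) : ℕ) + 1 < n + 1) := by simp
    rw [dif_neg h3, add_zero, Fin.sum_univ_succ (fun i => ‖x i‖ ^ 2)]
    have h4 : ∑ i : Fin n, (if h : ((i.castSucc : Fin (n + 1)) : ℕ) + 1 < n + 1 then
        ‖x ⟨(i.castSucc : Fin (n + 1)) + 1, h⟩‖ ^ 2 else 0) = ∑ i : Fin n, ‖x i.succ‖ ^ 2 := by
      apply Finset.sum_congr rfl
      intro i _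
      have h5 : ((i.castSucc : Fin (n + 1)) : ℕ) + 1 < n + 1 := by
        have := i.2; simp
      rw [dif_pos h5]
      rfl
    rw [h4]
    have := sq_nonneg ‖x 0‖
    linarith

lemma mobius_norm {E : Type*} [NormedAddCommGroup E] [InnerProductSpace ℂ E] (a : ℂ) (ha : ‖a‖ ≤ 1) (x y : E)
    (h : ‖y‖ ^ 2 ≤ ‖x‖ ^ 2) : ‖y + a • x‖ ≤ ‖x + (conj a) • y‖ := by
  have h1 : ‖y + a • x‖ ^ 2 ≤ ‖x + (conj a) • y‖ ^ 2 := by
    rw [@norm_add_sq ℂ, @norm_add_sq ℂ, norm_smul, norm_smul, RCLike.norm_conj, inner_smul_right, inner_smul_right]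
    have e1 : RCLike.re (conj a * inner ℂ x y) = RCLike.re (a * inner ℂ y x) := by
      rw [← inner_conj_symm x y, ← map_mul, RCLike.conj_re]
    rw [e1]
    have h2 : ‖a‖ ^ 2 ≤ 1 := by nlinarith [norm_nonneg a]
    nlinarith
  exact (pow_le_pow_iff_left₀ (norm_nonneg _) (norm_nonneg _) (by norm_num)).mp h1

lemma Uop_norm (n : ℕ) (a : ℂ) (ha : ‖a‖ ≤ 1) : ‖Uop n a‖ ≤ 1 := by
  apply ContinuousLinearMap.opNorm_le_bound _ zero_le_one
  intro y
  rw [one_mul]
  obtain ⟨G, hG⟩ := (P_isUnit n a).exists_right_inv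
  set x := Matrix.toEuclideanCLM (𝕜 := ℂ) G y with hx
  have hy : y = x + (conj a) • Matrix.toEuclideanCLM (𝕜 := ℂ) (Smat n) x := by
    have h1 : Matrix.toEuclideanCLM (𝕜 := ℂ) (1 + (conj a) • Smat n) x = y := by
      rw [hx, ← mul_apply_eq_comp, ← map_mul, hG, map_one]
      rfl
    rw [← h1, map_add, map_one, map_smul]
    rfl
  have hUy : Uop n a y = Matrix.toEuclideanCLM (𝕜 := ℂ) (Smat n) x + a • x := by
    have h1 : Matrix.toEuclideanCLM (𝕜 := ℂ) (1 + (conj a) • Smat n) x = y := by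
      rw [hx, ← mul_apply_eq_comp, ← map_mul, hG, map_one]
      rfl
    rw [← h1]
    unfold Uop
    rw [← mul_apply_eq_comp, ← map_mul, key_mat', map_add, map_smul, map_one]
    rfl
  rw [hUy]
  conv_rhs => rw [hy]
  exact mobius_norm a ha _ _ (Smat_norm x)

/-- operators annihilated by `(z-a)^n` are dominated by the explicit one -/
theorem le_Uop {n : ℕ} {ι : Type*} [Fintype ι] (a : ℂ) (ha : ‖a‖ < 1)
    (T : EuclideanSpace ℂ ι →L[ℂ] EuclideanSpace ℂ ι) (hT : ‖T‖ ≤ 1)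
    (hT2 : aeval T ((X - C a) ^ n) = 0) (F : ℂ[X]) : ‖aeval T F‖ ≤ ‖aeval (Uop n a) F‖ := by
  -- the nilpotent part
  obtain ⟨N, hN⟩ : ∃ N : EuclideanSpace ℂ ι →L[ℂ] EuclideanSpace ℂ ι, N = T - a • 1 := ⟨_, rfl⟩
  have hNn : N ^ n = 0 := by
    rw [map_pow, map_sub, aeval_X, aeval_C, Algebra.algebraMap_eq_smul_one, ← hN] at hT2
    exact hT2
  have hTN : T = N + a • 1 := by rw [hN]; abel
  have hna : (1 - conj a * a : ℂ) ≠ 0 := by
    have h1 : (1 - conj a * a : ℂ) = ((1 - ‖a‖ ^ 2 : ℝ) : ℂ) := by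
      push_cast; rw [← Complex.conj_mul']
    rw [h1]
    have : (0 : ℝ) < 1 - ‖a‖ ^ 2 := by nlinarith [norm_nonneg a]
    exact_mod_cast this.ne'
  -- invertibility of 1 - conj a T
  have hu : IsUnit (1 - (conj a) • T) := by
    have h1 : (1 - (conj a) • T) = (1 - conj a * a : ℂ) • (1 - ((1 - conj a * a)⁻¹ * conj a) • N) := by
      rw [hTN, smul_sub, smul_smul, ← mul_assoc, mul_inv_cancel₀ hna, one_mul]
      module
    rw [h1]
    have h2 : IsNilpotent (((1 - conj a * a)⁻¹ * conj a) • N) := by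
      refine ⟨n, ?_⟩
      rw [_root_.smul_pow, hNn]
      ext1 x
      show (((1 - conj a * a)⁻¹ * conj a) ^ n) • ((0 : EuclideanSpace ℂ ι →L[ℂ] EuclideanSpace ℂ ι) x) = 0
      rw [zero_apply, _root_.smul_zero]
    have h3 := h2.isUnit_one_sub
    have h4 : IsUnit ((1 - conj a * a : ℂ) • (1 : EuclideanSpace ℂ ι →L[ℂ] EuclideanSpace ℂ ι)) :=
      ⟨⟨(1 - conj a * a : ℂ) • 1, (1 - conj a * a : ℂ)⁻¹ • 1, by
        rw [smul_mul_smul_comm, mul_inv_cancel₀ hna, one_smul, one_mul], by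
        rw [smul_mul_smul_comm, inv_mul_cancel₀ hna, one_smul, one_mul]⟩, rfl⟩
    have h5 := h4.mul h3
    rwa [smul_one_mul] at h5
  obtain ⟨u, hu1⟩ := hu
  obtain ⟨G, hG⟩ : ∃ G : EuclideanSpace ℂ ι →L[ℂ] EuclideanSpace ℂ ι, G = ↑u⁻¹ := ⟨_, rfl⟩
  have hG1 : (1 - (conj a) • T) * G = 1 := by rw [← hu1, hG]; exact u.mul_inv
  have hG2 : G * (1 - (conj a) • T) = 1 := by rw [← hu1, hG]; exact u.inv_mul
  have hcT : Commute T (1 - (conj a) • T) := by
    rw [commute_iff_eq, mul_sub, sub_mul, mul_one, one_mul, mul_smul_comm, smul_mul_assoc]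
  have hcTu : Commute T (↑u : EuclideanSpace ℂ ι →L[ℂ] EuclideanSpace ℂ ι) := by rw [hu1]; exact hcT
  have hcG : Commute T G := by rw [hG]; exact hcTu.units_inv_right
  have hcNG : Commute N G := by
    rw [hN]
    exact hcG.sub_left ((Commute.one_left G).smul_left a)
  obtain ⟨S, hS⟩ : ∃ S, S = N * G := ⟨_, rfl⟩
  have hSn : S ^ n = 0 := by rw [hS, hcNG.mul_pow, hNn, zero_mul]
  have hSP : S * (1 - (conj a) • T) = N := by rw [hS, mul_assoc, hG2, mul_one]
  have hTx : ∀ x, ‖T x‖ ≤ ‖x‖ := fun x => by simpa using T.le_of_opNorm_le hT x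
  have hSnorm : ‖S‖ ≤ 1 := by
    apply ContinuousLinearMap.opNorm_le_bound _ zero_le_one
    intro y
    rw [one_mul]
    have h1 : S y = T (G y) + (-a) • (G y) := by
      have e1 : S y = N (G y) := by rw [hS]; rfl
      rw [e1, hN]
      simp [sub_eq_add_neg]
    have h2 : y = G y + (conj (-a)) • T (G y) := by
      have := congrArg (fun A : EuclideanSpace ℂ ι →L[ℂ] EuclideanSpace ℂ ι => A y) hG1
      simp only [mul_apply_eq_comp, one_apply_eq_self, sub_apply, smul_apply] at this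
      conv_lhs => rw [← this]
      rw [map_neg]
      module
    rw [h1]
    conv_rhs => rw [h2]
    apply mobius_norm
    · rw [norm_neg]; exact ha.le
    · exact pow_le_pow_left₀ (norm_nonneg _) (hTx _) 2
  have hTS : (1 + (conj a) • S) * T = S + a • 1 := by
    have h1 : S * (1 - (conj a) • T) = T - a • 1 := by rw [hSP, hN]
    rw [mul_sub, mul_one, mul_smul_comm] at h1
    have h2 : S = T - a • 1 + (conj a) • (S * T) := by rw [← h1]; abel
    rw [add_mul, one_mul, smul_mul_assoc]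
    conv_rhs => rw [h2]
    abel
  obtain ⟨D, hD⟩ := exists_D S hSnorm
  -- the intertwiners
  obtain ⟨V, hV⟩ : ∃ V : ι → EuclideanSpace ℂ ι →ₗ[ℂ] EuclideanSpace ℂ (Fin n),
      ∀ i x k, (V i x) k = (D ((S ^ (k : ℕ)) x)) i := by
    refine ⟨fun i => (WithLp.linearEquiv 2 ℂ (Fin n → ℂ)).symm.toLinearMap ∘ₗ
      LinearMap.pi (fun k : Fin n => (EuclideanSpace.proj i : EuclideanSpace ℂ ι →L[ℂ] ℂ).toLinearMap ∘ₗ
        (D * S ^ (k : ℕ)).toLinearMap), ?_⟩
    intro i x k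
    rfl
  have hVS : ∀ i x, V i (S x) = Matrix.toEuclideanCLM (𝕜 := ℂ) (Smat n) (V i x) := by
    intro i x
    ext k
    rw [hV]
    have h2 : (Matrix.toEuclideanCLM (𝕜 := ℂ) (Smat n) (V i x)) k = (Smat n).mulVec (V i x).ofLp k := rfl
    rw [h2, Smat_mulVec]
    have h3 : (S ^ (k : ℕ)) (S x) = (S ^ ((k : ℕ) + 1)) x := by rw [pow_succ]; rfl
    rw [h3]
    by_cases h : (k : ℕ) + 1 < n
    · rw [dif_pos h]
      exact (hV i x ⟨k + 1, h⟩).symm
    · rw [dif_neg h]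
      have h4 : (k : ℕ) + 1 = n := by have := k.2; omega
      rw [h4, hSn]
      simp
  have hVT : ∀ i x, V i (T x) = Uop n a (V i x) := by
    intro i x
    have h1 : V i (((1 + (conj a) • S) * T) x) = V i ((S + a • 1 : EuclideanSpace ℂ ι →L[ℂ] EuclideanSpace ℂ ι) x) := by rw [hTS]
    have h2 : V i (((1 + (conj a) • S) * T) x) =
        Matrix.toEuclideanCLM (𝕜 := ℂ) (1 + (conj a) • Smat n) (V i (T x)) := by
      rw [mul_apply_eq_comp, add_apply, one_apply_eq_self, smul_apply, map_add, map_smul, hVS, map_add, map_one, map_smul]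
      rfl
    have h3 : V i ((S + a • 1 : EuclideanSpace ℂ ι →L[ℂ] EuclideanSpace ℂ ι) x) =
        Matrix.toEuclideanCLM (𝕜 := ℂ) (Smat n + a • 1) (V i x) := by
      rw [add_apply, smul_apply, one_apply_eq_self, map_add, map_smul, hVS, map_add, map_smul, map_one]
      rfl
    rw [h2, h3, ← key_mat, map_mul] at h1
    obtain ⟨G', hG'⟩ := (P_isUnit n a).exists_left_inv
    have h4 := congrArg (Matrix.toEuclideanCLM (𝕜 := ℂ) G') h1
    rw [mul_apply_eq_comp, ← mul_apply_eq_comp, ← mul_apply_eq_comp, ← map_mul, hG', map_one] at h4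
    exact h4
  have hVF : ∀ i x, V i ((aeval T F) x) = (aeval (Uop n a) F) (V i x) := by
    intro i
    induction F using Polynomial.induction_on with
    | C c =>
      intro x
      rw [aeval_C, aeval_C, Algebra.algebraMap_eq_smul_one, Algebra.algebraMap_eq_smul_one]
      simp
    | add P Q hP hQ =>
      intro x
      rw [map_add, map_add, add_apply, add_apply, map_add, hP, hQ]
    | monomial k c ih =>
      intro x
      rw [pow_succ, ← mul_assoc, map_mul (aeval T) (C c * X ^ k) X,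
        map_mul (aeval (Uop n a)) (C c * X ^ k) X, aeval_X, aeval_X, mul_apply_eq_comp, mul_apply_eq_comp, ih, hVT]
  have hiso : ∀ x, ∑ i, ‖V i x‖ ^ 2 = ‖x‖ ^ 2 := by
    intro x
    have h1 : ∀ i, ‖V i x‖ ^ 2 = ∑ k : Fin n, ‖(D ((S ^ (k : ℕ)) x)) i‖ ^ 2 := by
      intro i
      rw [EuclideanSpace.norm_sq_eq]
      apply Finset.sum_congr rfl
      intro k _
      rw [hV]
    rw [Finset.sum_congr rfl (fun i _ => h1 i), Finset.sum_comm]
    have h2 : ∀ k : Fin n, ∑ i, ‖(D ((S ^ (k : ℕ)) x)) i‖ ^ 2 = ‖(S ^ (k : ℕ)) x‖ ^ 2 - ‖(S ^ ((k : ℕ) + 1)) x‖ ^ 2 := by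
      intro k
      rw [← EuclideanSpace.norm_sq_eq]
      have h3 := hD ((S ^ (k : ℕ)) x) ((S ^ (k : ℕ)) x)
      rw [inner_self_eq_norm_sq_to_K, inner_self_eq_norm_sq_to_K, inner_self_eq_norm_sq_to_K] at h3
      have h4 : (S ^ ((k : ℕ) + 1)) x = S ((S ^ (k : ℕ)) x) := by rw [pow_succ']; rfl
      rw [h4]
      exact_mod_cast h3
    rw [Finset.sum_congr rfl (fun k _ => h2 k),
      Fin.sum_univ_eq_sum_range (fun k => ‖(S ^ k) x‖ ^ 2 - ‖(S ^ (k + 1)) x‖ ^ 2) n, Finset.sum_range_sub']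
    rw [hSn]
    simp
  apply ContinuousLinearMap.opNorm_le_bound _ (norm_nonneg _)
  intro x
  have h1 : ‖(aeval T F) x‖ ^ 2 ≤ (‖aeval (Uop n a) F‖ * ‖x‖) ^ 2 := by
    rw [← hiso, mul_pow, ← hiso x, Finset.mul_sum]
    apply Finset.sum_le_sum
    intro i _
    rw [hVF, ← mul_pow]
    exact pow_le_pow_left₀ (norm_nonneg _) (ContinuousLinearMap.le_opNorm _ _) 2
  exact (pow_le_pow_iff_left₀ (norm_nonneg _) (by positivity) (by norm_num)).mp h1

end Pool.Agent.Helper654.Ptak
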