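import Pool.Agent.Helper654.PtakJ

set_option autoImplicit false
open Complex Metric Set Polynomial Filter Topology
open scoped ComplexConjugate

namespace Pool.Agent.Helper654.Ptak

/-- comparison for functions: operators annihilated by `(z-a)^(m+1)` -/
theorem series_le_Uop {m : ℕ} {r s : ℝ} (hr0 : 0 < r) (hr1 : r < 1) (hrs : r < s) (c : ℕ → ℂ) (K : ℝ)
    (hK : ∀ k, ‖c k‖ * s ^ k ≤ K) (a : ℂ) (ha : ‖a‖ ≤ r)
    (T : EuclideanSpace ℂ (Fin (m + 1)) →L[ℂ] EuclideanSpace ℂ (Fin (m + 1))) (hT : ‖T‖ ≤ 1)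
    (hT2 : aeval T ((X - C a) ^ (m + 1)) = 0) :
    ‖∑' k, c k • T ^ k‖ ≤ ‖∑' k, c k • (Uop (m + 1) a) ^ k‖ := by
  have hb1 : ∀ k, ‖T ^ k‖ ≤ bd (m + 1) r k := pow_bound hr0 hr1 T hT a ha hT2
  have hb2 : ∀ k, ‖(Uop (m + 1) a) ^ k‖ ≤ bd (m + 1) r k :=
    pow_bound hr0 hr1 (Uop (m + 1) a) (Uop_norm (m + 1) a (ha.trans hr1.le)) a ha (Uop_annih (m + 1) a)
  have l1 := trunc_tendsto hr0 hrs hK id strictMono_id (fun _ => T) T (fun _ => hb1) tendsto_const_nhds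
  have l2 := trunc_tendsto hr0 hrs hK id strictMono_id (fun _ => Uop (m + 1) a) (Uop (m + 1) a)
    (fun _ => hb2) tendsto_const_nhds
  exact le_of_tendsto_of_tendsto' l1.norm l2.norm (fun N => le_Uop a (lt_of_le_of_lt ha hr1) T hT hT2 _)

theorem explicit_main {m : ℕ} {r s : ℝ} (hr0 : 0 < r) (hr1 : r < 1) (hrs : r < s) (c : ℕ → ℂ) (K : ℝ)
    (hK : ∀ k, ‖c k‖ * s ^ k ≤ K) :
    ∃ a : ℂ, ‖a‖ = r ∧
      ∀ T : EuclideanSpace ℂ (Fin (m + 1)) →L[ℂ] EuclideanSpace ℂ (Fin (m + 1)), ‖T‖ ≤ 1 →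
        ∀ q : ℂ[X], (∀ z, q.eval z = 0 → ‖z‖ ≤ r) → aeval T q = 0 →
          ‖∑' k, c k • T ^ k‖ ≤ ‖∑' k, c k • (Uop (m + 1) a) ^ k‖ := by
  obtain ⟨a, ha, T₀, h1, h2, h3⟩ := series_main (m := m) hr0 hr1 hrs c K hK
  refine ⟨a, ha, fun T hT q hq hqT => (h3 T hT q hq hqT).trans ?_⟩
  exact series_le_Uop hr0 hr1 hrs c K hK a ha.le T₀ h1 h2

/-- rotation -/
lemma Umat_rot (n : ℕ) (a ω : ℂ) (hω : ‖ω‖ = 1) :
    Umat n (ω * a) = ω • (Matrix.diagonal (fun i : Fin n => ω ^ (i : ℕ)) * Umat n a *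
      Matrix.diagonal (fun i : Fin n => (conj ω) ^ (i : ℕ))) := by
  have hc : conj ω * ω = 1 := circle_inv hω
  have hc' : ω * conj ω = 1 := by rw [mul_comm]; exact hc
  ext i j
  rw [Matrix.smul_apply, Matrix.mul_diagonal, Matrix.diagonal_mul]
  simp only [Umat, Matrix.of_apply, smul_eq_mul]
  by_cases h1 : i = j
  · subst h1
    rw [if_pos rfl, if_pos rfl]
    have : ω ^ (i : ℕ) * (conj ω) ^ (i : ℕ) = 1 := by rw [← mul_pow, hc', one_pow]
    linear_combination (-(ω * a)) * this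
  · rw [if_neg h1, if_neg h1]
    by_cases h2 : i < j
    · rw [if_pos h2, if_pos h2, norm_mul, hω, one_mul, map_mul]
      have h3 : (i : ℕ) < j := h2
      obtain ⟨d, hd⟩ : ∃ d, (j : ℕ) = i + d + 1 := ⟨j - i - 1, by omega⟩
      have h4 : (j : ℕ) - i - 1 = d := by omega
      rw [h4, hd]
      have h5 : ω ^ (i : ℕ) * (conj ω) ^ (i : ℕ) = 1 := by rw [← mul_pow, hc', one_pow]
      have h6 : (-(conj ω * conj a)) ^ d = (conj ω) ^ d * (-(conj a)) ^ d := by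
        rw [← mul_pow]; congr 1; ring
      rw [h6, pow_add, pow_add, pow_one]
      linear_combination (-(((1 - ‖a‖ ^ 2 : ℝ) : ℂ) * (conj ω) ^ d * (-(conj a)) ^ d)) * h5 *
        1 + (-(((1 - ‖a‖ ^ 2 : ℝ) : ℂ) * (conj ω) ^ d * (-(conj a)) ^ d)) * (ω ^ (i : ℕ) * (conj ω) ^ (i : ℕ)) * hc' 
    · rw [if_neg h2, if_neg h2]
      ring

lemma diag_norm {n : ℕ} (d : Fin n → ℂ) (hd : ∀ i, ‖d i‖ ≤ 1) :
    ‖Matrix.toEuclideanCLM (𝕜 := ℂ) (Matrix.diagonal d)‖ ≤ 1 := by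
  apply ContinuousLinearMap.opNorm_le_bound _ zero_le_one
  intro x
  rw [one_mul]
  have h1 : ‖Matrix.toEuclideanCLM (𝕜 := ℂ) (Matrix.diagonal d) x‖ ^ 2 ≤ ‖x‖ ^ 2 := by
    rw [EuclideanSpace.norm_sq_eq, EuclideanSpace.norm_sq_eq]
    apply Finset.sum_le_sum
    intro i _
    have h2 : (Matrix.toEuclideanCLM (𝕜 := ℂ) (Matrix.diagonal d) x) i = (Matrix.diagonal d).mulVec x.ofLp i := rfl
    rw [h2, Matrix.mulVec_diagonal, norm_mul, mul_pow]
    have h3 : ‖d i‖ ^ 2 ≤ 1 := by nlinarith [hd i, norm_nonneg (d i)]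
    nlinarith [sq_nonneg ‖x i‖]
  exact (pow_le_pow_iff_left₀ (norm_nonneg _) (norm_nonneg _) (by norm_num)).mp h1

lemma Uop_rot_pow_le {n : ℕ} (a ω : ℂ) (hω : ‖ω‖ = 1) (k : ℕ) : ‖(Uop n (ω * a)) ^ k‖ ≤ ‖(Uop n a) ^ k‖ := by
  obtain ⟨A, hA⟩ : ∃ A, A = Matrix.diagonal (fun i : Fin n => ω ^ (i : ℕ)) := ⟨_, rfl⟩
  obtain ⟨B, hB⟩ : ∃ B, B = Matrix.diagonal (fun i : Fin n => (conj ω) ^ (i : ℕ)) := ⟨_, rfl⟩
  have hBA : B * A = 1 := by
    rw [hA, hB, Matrix.diagonal_mul_diagonal]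
    have : (fun i : Fin n => (conj ω) ^ (i : ℕ) * ω ^ (i : ℕ)) = fun _ => 1 := by
      ext i
      rw [← mul_pow, circle_inv hω, one_pow]
    rw [this, Matrix.diagonal_one]
  have hpow : ∀ k, (A * Umat n a * B) ^ k * A = A * (Umat n a) ^ k := by
    intro k
    induction k with
    | zero => simp
    | succ k ih =>
      rw [pow_succ, mul_assoc, mul_assoc (A * Umat n a), hBA, mul_one, ← mul_assoc, ih, mul_assoc, ← pow_succ]
  have hAB : A * B = 1 := by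
    rw [hA, hB, Matrix.diagonal_mul_diagonal]
    have : (fun i : Fin n => ω ^ (i : ℕ) * (conj ω) ^ (i : ℕ)) = fun _ => 1 := by
      ext i
      rw [← mul_pow, mul_comm, circle_inv hω, one_pow]
    rw [this, Matrix.diagonal_one]
  have hpow2 : (A * Umat n a * B) ^ k = A * (Umat n a) ^ k * B := by
    have := congrArg (fun M => M * B) (hpow k)
    rwa [mul_assoc, hAB, mul_one] at this
  have h1 : (Uop n (ω * a)) ^ k = ω ^ k • (Matrix.toEuclideanCLM (𝕜 := ℂ) A * (Uop n a) ^ k * Matrix.toEuclideanCLM (𝕜 := ℂ) B) := by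
    unfold Uop
    rw [← map_pow, Umat_rot n a ω hω, ← hA, ← hB, _root_.smul_pow, hpow2, map_smul, map_mul, map_mul, map_pow]
  rw [h1]
  have hA1 : ‖Matrix.toEuclideanCLM (𝕜 := ℂ) A‖ ≤ 1 := by
    rw [hA]; exact diag_norm _ (fun i => by rw [norm_pow, hω, one_pow])
  have hB1 : ‖Matrix.toEuclideanCLM (𝕜 := ℂ) B‖ ≤ 1 := by
    rw [hB]; exact diag_norm _ (fun i => by rw [norm_pow, RCLike.norm_conj, hω, one_pow])
  have h2 := norm_smul_le (ω ^ k) (Matrix.toEuclideanCLM (𝕜 := ℂ) A * (Uop n a) ^ k * Matrix.toEuclideanCLM (𝕜 := ℂ) B)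
  rw [norm_pow, hω, one_pow, one_mul] at h2
  refine h2.trans ((norm_mul_le _ _).trans ?_)
  have h3 := norm_mul_le (Matrix.toEuclideanCLM (𝕜 := ℂ) A) ((Uop n a) ^ k)
  have h4 := norm_nonneg ((Uop n a) ^ k)
  have h5 := norm_nonneg (Matrix.toEuclideanCLM (𝕜 := ℂ) A * (Uop n a) ^ k)
  have h6 := norm_nonneg (Matrix.toEuclideanCLM (𝕜 := ℂ) B)
  have h7 := norm_nonneg (Matrix.toEuclideanCLM (𝕜 := ℂ) A)
  nlinarith

lemma Uop_pow_circle {n : ℕ} {r : ℝ} (hr0 : 0 < r) (a : ℂ) (ha : ‖a‖ = r) (k : ℕ) :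
    ‖(Uop n a) ^ k‖ = ‖(Uop n (r : ℂ)) ^ k‖ := by
  have hr : (r : ℂ) ≠ 0 := by exact_mod_cast hr0.ne'
  have ha0 : a ≠ 0 := by
    intro h; rw [h, norm_zero] at ha; linarith
  have hrn : ‖(r : ℂ)‖ = r := by rw [norm_real, Real.norm_eq_abs, abs_of_pos hr0]
  apply le_antisymm
  · have := Uop_rot_pow_le (n := n) (r : ℂ) (a / r) (by rw [norm_div, ha, hrn, div_self hr0.ne']) k
    rwa [div_mul_cancel₀ _ hr] at this
  · have := Uop_rot_pow_le (n := n) a (r / a) (by rw [norm_div, ha, hrn, div_self hr0.ne']) k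
    rwa [div_mul_cancel₀ _ ha0] at this

lemma tay_poly (q : ℂ[X]) (k : ℕ) : tay (fun z => q.eval z) k = q.coeff k := by
  have h1 : ∀ k, iteratedDeriv k (fun z => q.eval z) = fun z => (derivative^[k] q).eval z := by
    intro k
    induction k with
    | zero => simp
    | succ k ih =>
      rw [iteratedDeriv_succ, ih, Function.iterate_succ_apply']
      ext z
      exact Polynomial.deriv _
  unfold tay
  rw [h1]
  simp only
  rw [← coeff_zero_eq_eval_zero, coeff_iterate_derivative, zero_add, Nat.descFactorial_self, nsmul_eq_mul,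
    mul_div_cancel_left₀]
  exact_mod_cast k.factorial_ne_zero

lemma fc_poly {E : Type*} [NormedAddCommGroup E] [NormedSpace ℂ E] (q : ℂ[X]) (T : E →L[ℂ] E) :
    ∑' k, tay (fun z => q.eval z) k • T ^ k = aeval T q := by
  simp only [tay_poly]
  rw [tsum_eq_sum (s := Finset.range (q.natDegree + 1)), aeval_eq_sum_range]
  intro k hk
  rw [Finset.mem_range, not_lt] at hk
  rw [coeff_eq_zero_of_natDegree_lt (by omega), zero_smul]

lemma fc_pow {E : Type*} [NormedAddCommGroup E] [NormedSpace ℂ E] (m : ℕ) (T : E →L[ℂ] E) :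
    ∑' k, tay (fun z => z ^ m) k • T ^ k = T ^ m := by
  have h := fc_poly (X ^ m) T
  simp only [eval_pow, eval_X] at h
  rw [h, map_pow, aeval_X]

lemma exists_radius {p : ℝ} (hp : 0 < p) {U : Set ℂ} (hU : IsOpen U) (h : closedBall (0 : ℂ) p ⊆ U) :
    ∃ R, p < R ∧ ball (0 : ℂ) R ⊆ U := by
  obtain ⟨δ, hδ, h2⟩ := (isCompact_closedBall (0 : ℂ) p).exists_thickening_subset_open hU h
  refine ⟨p + δ, by linarith, ?_⟩
  rw [thickening_closedBall hδ hp.le, add_comm] at h2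
  exact h2

end Pool.Agent.Helper654.Ptak
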