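import Pool.Agent.Helper654.PtakK

set_option autoImplicit false
open Complex Metric Set Polynomial Filter Topology
open scoped ComplexConjugate

namespace Pool.Agent.Helper654.Ptak

lemma av_mono {f g : ℂ → ℝ} (hf : Continuous f) (hg : Continuous g) (h : ∀ ζ : ℂ, ‖ζ‖ = 1 → f ζ ≤ g ζ) :
    av f ≤ av g := by
  unfold av
  exact Real.circleAverage_mono (ci hf) (ci hg) (fun ζ hζ => h ζ (by simpa using hζ))

/-- von Neumann inequality, polynomial version -/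
theorem vN_poly {m : ℕ} {ι : Type*} [Fintype ι] [Nonempty ι] {r : ℝ} (hr0 : 0 < r) (hr1 : r < 1)
    (z : Fin (m + 1) → ℂ) (hz : ∀ j, ‖z j‖ ≤ r) (T : EuclideanSpace ℂ ι →L[ℂ] EuclideanSpace ℂ ι)
    (hT : ‖T‖ ≤ 1) (hp : aeval T (∏ j, (X - C (z j))) = 0) (F : ℂ[X]) (M : ℝ)
    (hF : ∀ ζ : ℂ, ‖ζ‖ = 1 → ‖F.eval ζ‖ ≤ M) : ‖aeval T F‖ ≤ M := by
  have hρ2 : r / (1 + r ^ 2) < 1 / 2 := by
    rw [div_lt_div_iff₀ (by positivity) (by norm_num)]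
    nlinarith [sq_nonneg (1 - r), mul_pos (sub_pos.mpr hr1) (sub_pos.mpr hr1)]
  apply opNorm_le_of hr0 hr1 rfl F M _ z hz T hT hp
  intro B _ u v
  rw [← Hf_smul]
  unfold Hf
  have c1 : Continuous fun ζ => jq (fun ζ => F.eval ζ) u v ζ * W (r / (1 + r ^ 2)) B ζ :=
    (jq_cont1 F.continuous u v).mul (W_cont1 hρ2 B)
  have c2 : Continuous fun ζ => M * gq u v ζ * W (r / (1 + r ^ 2)) B ζ :=
    (continuous_const.mul (gq_cont1 u v)).mul (W_cont1 hρ2 B)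
  apply av_mono c1 c2
  intro ζ hζ
  apply mul_le_mul_of_nonneg_right _ (W_pos hρ2 B ζ).le
  unfold jq gq
  have h1 : (eval ζ F * pol u ζ * conj (pol v ζ)).re ≤ ‖eval ζ F‖ * ‖pol u ζ‖ * ‖pol v ζ‖ := by
    refine (Complex.re_le_norm _).trans ?_
    rw [norm_mul, norm_mul, RCLike.norm_conj]
  have h2 := hF ζ hζ
  have h3 := norm_nonneg (eval ζ F)
  have h4 := norm_nonneg (pol u ζ)
  have h5 := norm_nonneg (pol v ζ)
  have h6 : ‖pol u ζ‖ * ‖pol v ζ‖ ≤ (‖pol u ζ‖ ^ 2 + ‖pol v ζ‖ ^ 2) / 2 := by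
    nlinarith [sq_nonneg (‖pol u ζ‖ - ‖pol v ζ‖)]
  calc (eval ζ F * pol u ζ * conj (pol v ζ)).re ≤ ‖eval ζ F‖ * (‖pol u ζ‖ * ‖pol v ζ‖) := by
        rw [← mul_assoc]; exact h1
    _ ≤ M * (‖pol u ζ‖ * ‖pol v ζ‖) := mul_le_mul_of_nonneg_right h2 (by positivity)
    _ ≤ M * ((‖pol u ζ‖ ^ 2 + ‖pol v ζ‖ ^ 2) / 2) := mul_le_mul_of_nonneg_left h6 (h3.trans h2)

/-- truncated and dilated Taylor polynomial -/
noncomputable def trN (f : ℂ → ℂ) (ρ : ℝ) (N : ℕ) : ℂ[X] :=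
  ∑ k ∈ Finset.range N, C (tay f k * (ρ : ℂ) ^ k) * X ^ k

lemma tay_summable {f : ℂ → ℂ} (hf : DifferentiableOn ℂ f (ball 0 1)) {ρ : ℝ} (h0 : 0 < ρ) (h1 : ρ < 1) :
    Summable (fun k => ‖tay f k‖ * ρ ^ k) := by
  obtain ⟨s, hs1, _, K, hK⟩ := tay_bound h0 h1 hf
  have hs0 : 0 < s := h0.trans hs1
  have hg : Summable (fun k : ℕ => K * (ρ / s) ^ k) :=
    (summable_geometric_of_lt_one (by positivity) ((div_lt_one hs0).mpr hs1)).mul_left K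
  refine Summable.of_nonneg_of_le (fun k => by positivity) (fun k => ?_) hg
  have h2 := hK k
  have h3 : ‖tay f k‖ ≤ K / s ^ k := by rw [le_div_iff₀ (by positivity)]; exact h2
  calc ‖tay f k‖ * ρ ^ k ≤ K / s ^ k * ρ ^ k := mul_le_mul_of_nonneg_right h3 (by positivity)
    _ = K * (ρ / s) ^ k := by rw [div_pow]; ring

lemma tay_hasSum {f : ℂ → ℂ} (hf : DifferentiableOn ℂ f (ball 0 1)) {z : ℂ} (hz : ‖z‖ < 1) :
    HasSum (fun k => tay f k * z ^ k) (f z) := by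
  have h := hasSum_taylorSeries_on_ball hf (z := z) (by rwa [mem_ball_zero_iff])
  have e : (fun k => tay f k * z ^ k) =
      (fun n : ℕ ↦ ((n.factorial : ℂ))⁻¹ • (z - 0) ^ n • iteratedDeriv n f 0) := by
    funext k
    unfold tay
    simp only [smul_eq_mul, sub_zero]
    ring
  rw [e]
  exact h

lemma trN_close {f : ℂ → ℂ} (hf : DifferentiableOn ℂ f (ball 0 1)) {ρ : ℝ} (h0 : 0 < ρ) (h1 : ρ < 1)
    (N : ℕ) (ζ : ℂ) (hζ : ‖ζ‖ = 1) :
    ‖(trN f ρ N).eval ζ - f (ρ * ζ)‖ ≤ ∑' k, ‖tay f (k + N)‖ * ρ ^ (k + N) := by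
  have hρn : ‖(ρ : ℂ) * ζ‖ = ρ := by
    rw [norm_mul, hζ, mul_one, norm_real, Real.norm_eq_abs, abs_of_pos h0]
  have hs := tay_hasSum hf (z := ρ * ζ) (by rw [hρn]; exact h1)
  have hsum := tay_summable hf h0 h1
  have he : (trN f ρ N).eval ζ = ∑ k ∈ Finset.range N, tay f k * (ρ * ζ) ^ k := by
    unfold trN
    rw [eval_finsetSum]
    apply Finset.sum_congr rfl
    intro k _
    rw [eval_mul, eval_C, eval_pow, eval_X, mul_pow]
    ring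
  have h2 := hs.summable.sum_add_tsum_nat_add N
  rw [hs.tsum_eq] at h2
  rw [he, ← h2]
  have h3 : ∑ k ∈ Finset.range N, tay f k * (↑ρ * ζ) ^ k -
      (∑ i ∈ Finset.range N, tay f i * (↑ρ * ζ) ^ i + ∑' (i : ℕ), tay f (i + N) * (↑ρ * ζ) ^ (i + N)) =
      - ∑' (i : ℕ), tay f (i + N) * (↑ρ * ζ) ^ (i + N) := by ring
  rw [h3, norm_neg]
  have h4 : ∀ k, ‖tay f (k + N) * (↑ρ * ζ) ^ (k + N)‖ = ‖tay f (k + N)‖ * ρ ^ (k + N) := by
    intro k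
    rw [norm_mul, norm_pow, hρn]
  have h5 : Summable (fun k => ‖tay f (k + N)‖ * ρ ^ (k + N)) := (summable_nat_add_iff N).mpr hsum
  have h6 : Summable (fun k => ‖tay f (k + N) * (↑ρ * ζ) ^ (k + N)‖) := by
    simp only [h4]; exact h5
  refine (norm_tsum_le_tsum_norm h6).trans ?_
  simp only [h4]
  exact le_refl _

lemma tail_tendsto (f : ℂ → ℂ) (ρ : ℝ) :
    Tendsto (fun N => ∑' k, ‖tay f (k + N)‖ * ρ ^ (k + N)) atTop (𝓝 0) :=
  tendsto_sum_nat_add (fun k => ‖tay f k‖ * ρ ^ k)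

lemma comp_eval (q : ℂ[X]) (ρ : ℝ) (ζ : ℂ) : (q.comp (C (ρ : ℂ) * X)).eval ζ = q.eval (ρ * ζ) := by
  rw [eval_comp]; simp

lemma comp_aeval {E : Type*} [NormedAddCommGroup E] [NormedSpace ℂ E] (q : ℂ[X]) (ρ : ℝ) (T : E →L[ℂ] E) :
    aeval T (q.comp (C (ρ : ℂ) * X)) = aeval ((ρ : ℂ) • T) q := by
  rw [aeval_comp]
  congr 1
  rw [map_mul, aeval_X, aeval_C, Algebra.algebraMap_eq_smul_one, smul_one_mul]

lemma trN_tendsto {m : ℕ} {r : ℝ} (hr0 : 0 < r) (hr1 : r < 1) {f : ℂ → ℂ}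
    (hf : DifferentiableOn ℂ f (ball 0 1)) {ρ : ℝ} (h0 : 0 < ρ) (h1 : ρ < 1)
    (T : EuclideanSpace ℂ (Fin (m + 1)) →L[ℂ] EuclideanSpace ℂ (Fin (m + 1)))
    (hb : ∀ k, ‖T ^ k‖ ≤ bd (m + 1) r k) :
    Tendsto (fun N => aeval T (trN f ρ N)) atTop (𝓝 (∑' k, (tay f k * (ρ : ℂ) ^ k) • T ^ k)) := by
  obtain ⟨s, hrs, _, K, hK⟩ := tay_bound hr0 hr1 hf
  have hs0 : 0 < s := hr0.trans hrs
  have hK' : ∀ k, ‖tay f k * (ρ : ℂ) ^ k‖ * s ^ k ≤ K := by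
    intro k
    rw [norm_mul, norm_pow, norm_real, Real.norm_eq_abs, abs_of_pos h0]
    have h2 : ρ ^ k ≤ 1 := pow_le_one₀ h0.le h1.le
    have h3 := hK k
    have h4 : 0 ≤ ‖tay f k‖ * s ^ k := by positivity
    calc ‖tay f k‖ * ρ ^ k * s ^ k = (‖tay f k‖ * s ^ k) * ρ ^ k := by ring
      _ ≤ (‖tay f k‖ * s ^ k) * 1 := mul_le_mul_of_nonneg_left h2 h4
      _ ≤ K := by rw [mul_one]; exact h3
  exact trunc_tendsto hr0 hrs hK' id strictMono_id (fun _ => T) T (fun _ => hb) tendsto_const_nhds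

lemma dil_tendsto {m : ℕ} {r : ℝ} (hr0 : 0 < r) (hr1 : r < 1) {f : ℂ → ℂ}
    (hf : DifferentiableOn ℂ f (ball 0 1)) (ρ : ℕ → ℝ) (h0 : ∀ i, 0 < ρ i) (h1 : ∀ i, ρ i < 1)
    (hlim : Tendsto ρ atTop (𝓝 1))
    (T : EuclideanSpace ℂ (Fin (m + 1)) →L[ℂ] EuclideanSpace ℂ (Fin (m + 1)))
    (hb : ∀ k, ‖T ^ k‖ ≤ bd (m + 1) r k) :
    Tendsto (fun i => ∑' k, (tay f k * (ρ i : ℂ) ^ k) • T ^ k) atTop (𝓝 (∑' k, tay f k • T ^ k)) := by
  obtain ⟨s, hrs, _, K, hK⟩ := tay_bound hr0 hr1 hf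
  apply tendsto_tsum_of_dominated_convergence (bd_summable (n := m + 1) hr0 hrs hK)
  · intro k
    have h3 : Tendsto (fun i => ((ρ i : ℝ) : ℂ)) atTop (𝓝 1) := by
      have h4 := (continuous_ofReal.tendsto 1).comp hlim
      rw [ofReal_one] at h4
      exact h4
    have h2 : Tendsto (fun i => tay f k * (ρ i : ℂ) ^ k) atTop (𝓝 (tay f k)) := by
      have h4 := (h3.pow k).const_mul (tay f k)
      rw [one_pow, mul_one] at h4
      exact h4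
    exact h2.smul_const (T ^ k)
  · apply Filter.Eventually.of_forall
    intro i k
    have h3 := norm_smul_le (tay f k * (ρ i : ℂ) ^ k) (T ^ k)
    refine h3.trans ?_
    rw [norm_mul, norm_pow, norm_real, Real.norm_eq_abs, abs_of_pos (h0 i)]
    have h4 : ρ i ^ k ≤ 1 := pow_le_one₀ (h0 i).le (h1 i).le
    have h5 := hb k
    have h6 := norm_nonneg (T ^ k)
    have h7 := norm_nonneg (tay f k)
    have h8 : ‖tay f k‖ * ρ i ^ k ≤ ‖tay f k‖ * 1 := mul_le_mul_of_nonneg_left h4 h7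
    have h9 : ‖tay f k‖ * ρ i ^ k * ‖T ^ k‖ ≤ ‖tay f k‖ * 1 * ‖T ^ k‖ := mul_le_mul_of_nonneg_right h8 h6
    rw [mul_one] at h9
    exact h9.trans (mul_le_mul_of_nonneg_left h5 h7)

/-- The key estimate (von Neumann inequality modulo an annihilating polynomial). -/
theorem lemmaE {m : ℕ} {r : ℝ} (hr0 : 0 < r) (hr1 : r < 1) {f g : ℂ → ℂ}
    (hf : DifferentiableOn ℂ f (ball 0 1)) (hg : DifferentiableOn ℂ g (ball 0 1)) (p q : ℂ[X])
    (T : EuclideanSpace ℂ (Fin (m + 1)) →L[ℂ] EuclideanSpace ℂ (Fin (m + 1))) (hT : ‖T‖ ≤ 1)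
    (hp : ∀ z, p.eval z = 0 → ‖z‖ ≤ r) (hpT : aeval T p = 0) (γ : ℝ)
    (h : ∀ z : ℂ, ‖z‖ < 1 → ‖f z - q.eval z - p.eval z * g z‖ ≤ γ) :
    ‖(∑' k, tay f k • T ^ k) - aeval T q‖ ≤ γ := by
  have hb : ∀ k, ‖T ^ k‖ ≤ bd (m + 1) r k := cls_pow_bound hr0 hr1 T hT p hp hpT
  obtain ⟨z, hz1, hz2⟩ := exists_roots T p hp hpT
  -- step 1
  have step1 : ∀ ρ : ℝ, 0 < ρ → ρ < 1 →
      ‖(∑' k, (tay f k * (ρ : ℂ) ^ k) • T ^ k) - aeval ((ρ : ℂ) • T) q -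
        aeval ((ρ : ℂ) • T) p * ∑' k, (tay g k * (ρ : ℂ) ^ k) • T ^ k‖ ≤ γ := by
    intro ρ h0 h1
    obtain ⟨P, hP⟩ := (isCompact_closedBall (0 : ℂ) 1).exists_bound_of_continuousOn
      (f := fun z => p.eval z) p.continuous.continuousOn
    have hP' : ∀ ζ : ℂ, ‖ζ‖ = 1 → ‖p.eval (ρ * ζ)‖ ≤ |P| := by
      intro ζ hζ
      refine (hP (ρ * ζ) ?_).trans (le_abs_self P)
      rw [mem_closedBall_zero_iff, norm_mul, hζ, mul_one, norm_real, Real.norm_eq_abs, abs_of_pos h0]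
      exact h1.le
    have hN : ∀ N, ‖aeval T (trN f ρ N) - aeval ((ρ : ℂ) • T) q - aeval ((ρ : ℂ) • T) p * aeval T (trN g ρ N)‖ ≤
        γ + (∑' k, ‖tay f (k + N)‖ * ρ ^ (k + N)) + |P| * (∑' k, ‖tay g (k + N)‖ * ρ ^ (k + N)) := by
      intro N
      have h2 : aeval T (trN f ρ N) - aeval ((ρ : ℂ) • T) q - aeval ((ρ : ℂ) • T) p * aeval T (trN g ρ N) =
          aeval T (trN f ρ N - q.comp (C (ρ : ℂ) * X) - p.comp (C (ρ : ℂ) * X) * trN g ρ N) := by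
        rw [map_sub, map_sub, map_mul, comp_aeval, comp_aeval]
      rw [h2]
      apply vN_poly hr0 hr1 z hz1 T hT hz2
      intro ζ hζ
      rw [eval_sub, eval_sub, eval_mul, comp_eval, comp_eval]
      have h3 := trN_close hf h0 h1 N ζ hζ
      have h4 := trN_close hg h0 h1 N ζ hζ
      have h5 := h (ρ * ζ) (by rw [norm_mul, hζ, mul_one, norm_real, Real.norm_eq_abs, abs_of_pos h0]; exact h1)
      have h6 := hP' ζ hζ
      have e : eval ζ (trN f ρ N) - eval (↑ρ * ζ) q - eval (↑ρ * ζ) p * eval ζ (trN g ρ N) =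
          (f (ρ * ζ) - eval (↑ρ * ζ) q - eval (↑ρ * ζ) p * g (ρ * ζ)) +
          (eval ζ (trN f ρ N) - f (ρ * ζ)) - eval (↑ρ * ζ) p * (eval ζ (trN g ρ N) - g (ρ * ζ)) := by ring
      rw [e]
      refine (norm_sub_le _ _).trans ?_
      refine add_le_add ((norm_add_le _ _).trans (add_le_add h5 h3)) ?_
      rw [norm_mul]
      exact mul_le_mul h6 h4 (norm_nonneg _) (abs_nonneg _)
    have l1 := trN_tendsto hr0 hr1 hf h0 h1 T hb
    have l2 := trN_tendsto hr0 hr1 hg h0 h1 T hb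
    have l3 : Tendsto (fun N => ‖aeval T (trN f ρ N) - aeval ((ρ : ℂ) • T) q - aeval ((ρ : ℂ) • T) p * aeval T (trN g ρ N)‖) atTop
        (𝓝 ‖(∑' k, (tay f k * (ρ : ℂ) ^ k) • T ^ k) - aeval ((ρ : ℂ) • T) q -
        aeval ((ρ : ℂ) • T) p * ∑' k, (tay g k * (ρ : ℂ) ^ k) • T ^ k‖) :=
      ((l1.sub_const _).sub (l2.const_mul _)).norm
    have l4 : Tendsto (fun N => γ + (∑' k, ‖tay f (k + N)‖ * ρ ^ (k + N)) + |P| * (∑' k, ‖tay g (k + N)‖ * ρ ^ (k + N)))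
        atTop (𝓝 (γ + 0 + |P| * 0)) :=
      ((tail_tendsto f ρ).const_add γ).add ((tail_tendsto g ρ).const_mul |P|)
    have l5 := le_of_tendsto_of_tendsto' l3 l4 hN
    simpa using l5
  -- step 2
  set ρ : ℕ → ℝ := fun i => 1 - 1 / ((i : ℝ) + 2) with hρ
  have hρ0 : ∀ i, 0 < ρ i := by
    intro i
    have h1 : (0 : ℝ) ≤ i := Nat.cast_nonneg i
    have h2 : 1 / ((i : ℝ) + 2) < 1 := by rw [div_lt_one (by linarith)]; linarith
    simp only [hρ]; linarith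
  have hρ1 : ∀ i, ρ i < 1 := by
    intro i
    have h1 : (0 : ℝ) ≤ i := Nat.cast_nonneg i
    have h2 : 0 < 1 / ((i : ℝ) + 2) := by positivity
    simp only [hρ]; linarith
  have hρl : Tendsto ρ atTop (𝓝 1) := by
    have h1 : Tendsto (fun i : ℕ => 1 / ((i : ℝ) + 2)) atTop (𝓝 0) := by
      apply Tendsto.div_atTop tendsto_const_nhds
      exact tendsto_atTop_add_const_right _ _ tendsto_natCast_atTop_atTop
    have h2 := h1.const_sub 1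
    rw [sub_zero] at h2
    exact h2
  have l1 := dil_tendsto hr0 hr1 hf ρ hρ0 hρ1 hρl T hb
  have l2 := dil_tendsto hr0 hr1 hg ρ hρ0 hρ1 hρl T hb
  have hcontpoly : ∀ q : ℂ[X], Tendsto (fun i => aeval ((ρ i : ℂ) • T) q) atTop (𝓝 (aeval T q)) := by
    intro q
    have h1 : ∀ S : EuclideanSpace ℂ (Fin (m + 1)) →L[ℂ] EuclideanSpace ℂ (Fin (m + 1)),
        aeval S q = ∑ i ∈ Finset.range (q.natDegree + 1), q.coeff i • S ^ i := fun S => aeval_eq_sum_range S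
    simp only [h1]
    apply tendsto_finsetSum
    intro k _
    apply Tendsto.const_smul
    apply Tendsto.pow
    have h3 : Tendsto (fun i => ((ρ i : ℝ) : ℂ)) atTop (𝓝 1) := by
      have h4 := (continuous_ofReal.tendsto 1).comp hρl
      rw [ofReal_one] at h4
      exact h4
    have h2 := h3.smul_const T
    rw [one_smul] at h2
    exact h2
  have l3 := ((l1.sub (hcontpoly q)).sub ((hcontpoly p).mul l2)).norm
  rw [hpT, zero_mul, sub_zero] at l3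
  exact le_of_tendsto' l3 (fun i => step1 (ρ i) (hρ0 i) (hρ1 i))

end Pool.Agent.Helper654.Ptak
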