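import Pool.Agent.Helper654.PtakL

set_option autoImplicit false
open Complex Metric Set Polynomial Filter Topology
open scoped ComplexConjugate

namespace Pool.Agent.Helper654.Ptak

section dil
variable {E : Type} [NormedAddCommGroup E] [InnerProductSpace ℂ E] [CompleteSpace E]

lemma row_contr (T' D₀ : E →L[ℂ] E)
    (hD : ∀ w : E, ‖D₀ w‖ ^ 2 = ‖w‖ ^ 2 - ‖(ContinuousLinearMap.adjoint T') w‖ ^ 2) (u v : E) :
    ‖T' u + (ContinuousLinearMap.adjoint D₀) v‖ ^ 2 ≤ ‖u‖ ^ 2 + ‖v‖ ^ 2 := by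
  obtain ⟨w, hw⟩ : ∃ w, w = T' u + (ContinuousLinearMap.adjoint D₀) v := ⟨_, rfl⟩
  rw [← hw]
  have h1 : ‖w‖ ^ 2 ≤ ‖(ContinuousLinearMap.adjoint T') w‖ * ‖u‖ + ‖D₀ w‖ * ‖v‖ := by
    have e1 : ((‖w‖ ^ 2 : ℝ) : ℂ) = inner ℂ ((ContinuousLinearMap.adjoint T') w) u + inner ℂ (D₀ w) v := by
      rw [ContinuousLinearMap.adjoint_inner_left, ← ContinuousLinearMap.adjoint_inner_right, ← inner_add_right, ← hw,
        inner_self_eq_norm_sq_to_K]
      push_cast
      rfl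
    have e2 := congrArg Complex.re e1
    rw [Complex.ofReal_re, Complex.add_re] at e2
    have e3 : (inner ℂ ((ContinuousLinearMap.adjoint T') w) u).re ≤ ‖(ContinuousLinearMap.adjoint T') w‖ * ‖u‖ :=
      (Complex.re_le_norm _).trans (norm_inner_le_norm _ _)
    have e4 : (inner ℂ (D₀ w) v).re ≤ ‖D₀ w‖ * ‖v‖ :=
      (Complex.re_le_norm _).trans (norm_inner_le_norm _ _)
    linarith
  have h2 := hD w
  have a1 := norm_nonneg ((ContinuousLinearMap.adjoint T') w)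
  have a2 := norm_nonneg (D₀ w)
  have a3 := norm_nonneg u
  have a4 := norm_nonneg v
  have a5 := norm_nonneg w
  generalize ‖(ContinuousLinearMap.adjoint T') w‖ = A at *
  generalize ‖D₀ w‖ = B at *
  generalize ‖u‖ = x at *
  generalize ‖v‖ = y at *
  generalize ‖w‖ = n at *
  by_contra hcon
  push Not at hcon
  have hn : 0 < n ^ 2 := by nlinarith [sq_nonneg x, sq_nonneg y]
  have h3 : (A * x + B * y) ^ 2 ≤ (A ^ 2 + B ^ 2) * (x ^ 2 + y ^ 2) := by nlinarith [sq_nonneg (A * y - B * x)]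
  have h4 : A ^ 2 + B ^ 2 = n ^ 2 := by linarith
  rw [h4] at h3
  have h5 : (n ^ 2) ^ 2 ≤ (A * x + B * y) ^ 2 := pow_le_pow_left₀ hn.le h1 2
  nlinarith

lemma dilate (T' : E →L[ℂ] E) (hT' : ‖T'‖ ≤ 1) (z1 : ℂ) (hz : ‖z1‖ < 1) :
    ∃ T : WithLp 2 (E × E) →L[ℂ] WithLp 2 (E × E), ‖T‖ ≤ 1 ∧
      ∃ ι : E →ₗ[ℂ] WithLp 2 (E × E), (∀ x, ‖ι x‖ = ‖x‖) ∧ (∀ x, T (ι x) = ι (T' x)) ∧
        (∀ w, ∃ y, T w - z1 • w = ι y) ∧
        ∀ x, ∃ j, ‖j‖ = ‖x‖ ∧ T j - z1 • j = ι (x - conj z1 • T' x) := by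
  obtain ⟨S, hS⟩ : ∃ S, S = ContinuousLinearMap.adjoint T' := ⟨_, rfl⟩
  have hSn : ‖S‖ ≤ 1 := by rw [hS, LinearIsometryEquiv.norm_map]; exact hT'
  obtain ⟨D₀, hD₀⟩ := exists_D S hSn
  have hDn : ∀ w : E, ‖D₀ w‖ ^ 2 = ‖w‖ ^ 2 - ‖S w‖ ^ 2 := by
    intro w
    have h := hD₀ w w
    rw [inner_self_eq_norm_sq_to_K, inner_self_eq_norm_sq_to_K, inner_self_eq_norm_sq_to_K] at h
    exact_mod_cast h
  obtain ⟨Cc, hCc⟩ : ∃ Cc, Cc = ContinuousLinearMap.adjoint D₀ := ⟨_, rfl⟩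
  have hCD : ∀ x, Cc (D₀ x) = x - T' (S x) := by
    intro x
    apply ext_inner_left ℂ
    intro v
    rw [hCc, ContinuousLinearMap.adjoint_inner_right, hD₀, inner_sub_right, hS, ContinuousLinearMap.adjoint_inner_left]
  have hk : 0 ≤ 1 - ‖z1‖ ^ 2 := by nlinarith [norm_nonneg z1]
  obtain ⟨κ, hκ⟩ : ∃ κ : ℝ, κ = Real.sqrt (1 - ‖z1‖ ^ 2) := ⟨_, rfl⟩
  have hκ2 : κ ^ 2 = 1 - ‖z1‖ ^ 2 := by rw [hκ]; exact Real.sq_sqrt hk
  have hκC : (κ : ℂ) * κ = 1 - conj z1 * z1 := by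
    rw [Complex.conj_mul', ← ofReal_pow, ← ofReal_one, ← ofReal_sub, ← hκ2]
    push_cast; ring
  set T₀ : WithLp 2 (E × E) →ₗ[ℂ] WithLp 2 (E × E) :=
    (WithLp.linearEquiv 2 ℂ (E × E)).symm.toLinearMap ∘ₗ
      (LinearMap.prod (T'.toLinearMap ∘ₗ LinearMap.fst ℂ E E + (κ : ℂ) • (Cc.toLinearMap ∘ₗ LinearMap.snd ℂ E E))
        (z1 • LinearMap.snd ℂ E E)) ∘ₗ (WithLp.linearEquiv 2 ℂ (E × E)).toLinearMap with hT₀
  have hfst : ∀ w, (T₀ w).fst = T' w.fst + (κ : ℂ) • Cc w.snd := fun w => rfl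
  have hsnd : ∀ w, (T₀ w).snd = z1 • w.snd := fun w => rfl
  have hbound : ∀ w, ‖T₀ w‖ ≤ 1 * ‖w‖ := by
    intro w
    rw [one_mul]
    have h1 : ‖T₀ w‖ ^ 2 ≤ ‖w‖ ^ 2 := by
      rw [WithLp.prod_norm_sq_eq_of_L2, WithLp.prod_norm_sq_eq_of_L2, hfst, hsnd]
      have h2 := row_contr T' D₀ (by rw [← hS]; exact hDn) w.fst ((κ : ℂ) • w.snd)
      rw [map_smul, ← hCc, norm_smul (κ : ℂ), norm_real, Real.norm_eq_abs, mul_pow, sq_abs, hκ2] at h2
      rw [norm_smul z1, mul_pow]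
      nlinarith
    exact (pow_le_pow_iff_left₀ (norm_nonneg _) (norm_nonneg _) (by norm_num)).mp h1
  set T : WithLp 2 (E × E) →L[ℂ] WithLp 2 (E × E) := T₀.mkContinuous 1 hbound with hT
  have hfst' : ∀ w, (T w).fst = T' w.fst + (κ : ℂ) • Cc w.snd := fun w => rfl
  have hsnd' : ∀ w, (T w).snd = z1 • w.snd := fun w => rfl
  have hTn : ‖T‖ ≤ 1 := T₀.mkContinuous_norm_le zero_le_one hbound
  refine ⟨T, hTn, (WithLp.linearEquiv 2 ℂ (E × E)).symm.toLinearMap ∘ₗ LinearMap.inl ℂ E E, ?_, ?_, ?_, ?_⟩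
  · intro x
    have h1 : ‖(((WithLp.linearEquiv 2 ℂ (E × E)).symm.toLinearMap ∘ₗ LinearMap.inl ℂ E E) x)‖ ^ 2 = ‖x‖ ^ 2 := by
      rw [WithLp.prod_norm_sq_eq_of_L2]
      show ‖x‖ ^ 2 + ‖(0 : E)‖ ^ 2 = ‖x‖ ^ 2
      rw [norm_zero]; ring
    exact (pow_left_inj₀ (norm_nonneg _) (norm_nonneg _) (by norm_num)).mp h1
  · intro x
    apply WithLp.ofLp_injective
    apply Prod.ext
    · show T' x + (κ : ℂ) • Cc (0 : E) = T' x
      rw [map_zero, smul_zero, add_zero]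
    · show z1 • (0 : E) = 0
      rw [smul_zero]
  · intro w
    refine ⟨T' w.fst + (κ : ℂ) • Cc w.snd - z1 • w.fst, ?_⟩
    apply WithLp.ofLp_injective
    apply Prod.ext
    · rfl
    · show z1 • w.snd - z1 • w.snd = 0
      rw [sub_self]
  · intro x
    have hu : ‖z1 • S‖ < 1 := by
      refine (norm_smul_le _ _).trans_lt ?_
      have := norm_nonneg z1
      nlinarith [norm_nonneg S]
    obtain ⟨x', hx'⟩ : ∃ x', x' = (((Units.oneSub (z1 • S) hu)⁻¹ : (E →L[ℂ] E)ˣ) : E →L[ℂ] E) x := ⟨_, rfl⟩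
    have hx : x = x' - z1 • S x' := by
      have h1 := (Units.oneSub (z1 • S) hu).mul_inv
      have h2 := congrArg (fun A : E →L[ℂ] E => A x) h1
      simp only [mul_apply_eq_comp, one_apply_eq_self, Units.val_oneSub] at h2
      rw [← hx'] at h2
      rw [← h2]
      rfl
    refine ⟨WithLp.toLp 2 (S x' - conj z1 • x', (κ : ℂ) • D₀ x'), ?_, ?_⟩
    · have h1 : ‖WithLp.toLp 2 (S x' - conj z1 • x', (κ : ℂ) • D₀ x')‖ ^ 2 = ‖x‖ ^ 2 := by
        rw [WithLp.prod_norm_sq_eq_of_L2]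
        show ‖S x' - conj z1 • x'‖ ^ 2 + ‖(κ : ℂ) • D₀ x'‖ ^ 2 = ‖x‖ ^ 2
        rw [norm_smul (κ : ℂ), norm_real, Real.norm_eq_abs, mul_pow, sq_abs, hκ2, hDn, hx]
        rw [@norm_sub_sq ℂ, @norm_sub_sq ℂ, norm_smul, norm_smul, RCLike.norm_conj, inner_smul_right, inner_smul_right]
        have e1 : RCLike.re (conj z1 * inner ℂ (S x') x') = RCLike.re (z1 * inner ℂ x' (S x')) := by
          rw [← inner_conj_symm (S x') x', ← map_mul, RCLike.conj_re]
        rw [e1]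
        ring
      exact (pow_left_inj₀ (norm_nonneg _) (norm_nonneg _) (by norm_num)).mp h1
    · apply WithLp.ofLp_injective
      apply Prod.ext
      · show (T' (S x' - conj z1 • x') + (κ : ℂ) • Cc ((κ : ℂ) • D₀ x')) - z1 • (S x' - conj z1 • x') =
          x - conj z1 • T' x
        rw [map_smul, hCD, hx, smul_smul, hκC]
        simp only [map_sub, map_smul]
        module
      · show z1 • ((κ : ℂ) • D₀ x') - z1 • ((κ : ℂ) • D₀ x') = 0
        rw [sub_self]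

lemma mobius_strict {F : Type*} [NormedAddCommGroup F] [InnerProductSpace ℂ F] (c : ℂ) (hc : ‖c‖ < 1) (x y : F)
    (h : ‖y‖ < ‖x‖) : ‖y - c • x‖ < ‖x - conj c • y‖ := by
  have h1 : ‖y - c • x‖ ^ 2 < ‖x - conj c • y‖ ^ 2 := by
    rw [@norm_sub_sq ℂ, @norm_sub_sq ℂ, norm_smul, norm_smul, RCLike.norm_conj, inner_smul_right, inner_smul_right]
    have e1 : RCLike.re (conj c * inner ℂ x y) = RCLike.re (c * inner ℂ y x) := by
      rw [← inner_conj_symm x y, ← map_mul, RCLike.conj_re]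
    rw [e1]
    have h2 : ‖c‖ ^ 2 < 1 := by nlinarith [norm_nonneg c]
    have h3 : ‖y‖ ^ 2 < ‖x‖ ^ 2 := by nlinarith [norm_nonneg y]
    nlinarith
  exact (pow_lt_pow_iff_left₀ (norm_nonneg _) (norm_nonneg _) (by norm_num)).mp h1

end dil

/-- strict contractivity of `h(T)` for all contractions with `p(T) = 0` on finite dimensional spaces -/
def StrictOn (p h : ℂ[X]) : Prop :=
  ∀ (E : Type) [NormedAddCommGroup E] [InnerProductSpace ℂ E] [FiniteDimensional ℂ E] (T : E →L[ℂ] E),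
    ‖T‖ ≤ 1 → aeval T p = 0 → ∀ x : E, x ≠ 0 → ‖(aeval T h) x‖ < ‖x‖

lemma strict_root {p h : ℂ[X]} (hs : StrictOn p h) (μ : ℂ) (hμ : ‖μ‖ ≤ 1) (hp : p.eval μ = 0) : ‖h.eval μ‖ < 1 := by
  have h1 : ∀ q : ℂ[X], aeval (algebraMap ℂ (ℂ →L[ℂ] ℂ) μ) q = algebraMap ℂ (ℂ →L[ℂ] ℂ) (q.eval μ) := by
    intro q
    rw [Polynomial.aeval_algebraMap_apply, Polynomial.coe_aeval_eq_eval]
  have h2 := hs ℂ (algebraMap ℂ (ℂ →L[ℂ] ℂ) μ) (by
    rw [Algebra.algebraMap_eq_smul_one]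
    refine (norm_smul_le _ _).trans ?_
    have : ‖(1 : ℂ →L[ℂ] ℂ)‖ ≤ 1 := ContinuousLinearMap.norm_id_le
    nlinarith [norm_nonneg μ, norm_nonneg (1 : ℂ →L[ℂ] ℂ)]) (by rw [h1, hp, map_zero]) 1 one_ne_zero
  rw [h1, Algebra.algebraMap_eq_smul_one] at h2
  simpa using h2

lemma intertwine {E F : Type*} [NormedAddCommGroup E] [NormedSpace ℂ E] [NormedAddCommGroup F] [NormedSpace ℂ F]
    (T : F →L[ℂ] F) (T' : E →L[ℂ] E) (ι : E →ₗ[ℂ] F) (h : ∀ x, T (ι x) = ι (T' x)) (q : ℂ[X]) (x : E) :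
    (aeval T q) (ι x) = ι ((aeval T' q) x) := by
  induction q using Polynomial.induction_on generalizing x with
  | C c =>
    rw [aeval_C, aeval_C, Algebra.algebraMap_eq_smul_one, Algebra.algebraMap_eq_smul_one]
    simp
  | add P Q hP hQ =>
    rw [map_add, map_add, add_apply, add_apply, map_add, hP, hQ]
  | monomial k c ih =>
    rw [pow_succ, ← mul_assoc, map_mul (aeval T) (C c * X ^ k) X,
      map_mul (aeval T') (C c * X ^ k) X, aeval_X, aeval_X, mul_apply_eq_comp, mul_apply_eq_comp, h, ih]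

/-- the Schur step on the operator side -/
lemma schur_step {p' h e u g1 : ℂ[X]} {z1 c : ℂ} (hz1 : ‖z1‖ < 1) (hc : ‖c‖ < 1)
    (hs : StrictOn ((X - C z1) * p') h)
    (he : u * ((X - C z1) * p') + e * (1 - C (conj c) * h) = 1)
    (hg : (h - C c) * e = (X - C z1) * g1) :
    StrictOn p' ((1 - C (conj z1) * X) * g1) := by
  intro E _ _ _ T' hT' hpT' x hx
  have : CompleteSpace E := FiniteDimensional.complete ℂ E
  obtain ⟨T, hT, ι, hι1, hι2, hι3, hι4⟩ := dilate T' hT' z1 hz1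
  have hint := intertwine T T' ι hι2
  have hzero : ∀ w, (aeval T ((X - C z1) * p')) w = 0 := by
    intro w
    obtain ⟨y, hy⟩ := hι3 w
    rw [mul_comm, map_mul, mul_apply_eq_comp, map_sub, aeval_X, aeval_C, Algebra.algebraMap_eq_smul_one]
    have h1 : (T - z1 • (1 : WithLp 2 (E × E) →L[ℂ] WithLp 2 (E × E))) w = ι y := by
      rw [sub_apply, smul_apply, one_apply_eq_self]; exact hy
    rw [h1, hint, hpT']
    simp
  have hpT : aeval T ((X - C z1) * p') = 0 := by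
    ext1 w; rw [hzero w]; rfl
  obtain ⟨j, hj1, hj2⟩ := hι4 x
  have hj0 : j ≠ 0 := by
    intro h0
    rw [h0, norm_zero] at hj1
    exact hx (norm_eq_zero.mp hj1.symm)
  -- g(T) j
  have hgj : (aeval T ((h - C c) * e)) j = ι ((aeval T' ((1 - C (conj z1) * X) * g1)) x) := by
    rw [hg, mul_comm, map_mul, mul_apply_eq_comp]
    have h1 : (aeval T (X - C z1)) j = T j - z1 • j := by
      rw [map_sub, aeval_X, aeval_C, Algebra.algebraMap_eq_smul_one, sub_apply, smul_apply, one_apply_eq_self]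
    rw [h1, hj2, hint]
    congr 1
    rw [mul_comm, map_mul, mul_apply_eq_comp]
    congr 1
    rw [map_sub, map_one, map_mul, aeval_X, aeval_C, Algebra.algebraMap_eq_smul_one, smul_one_mul, sub_apply,
      smul_apply, one_apply_eq_self]
  obtain ⟨k, hk⟩ : ∃ k, k = (aeval T e) j := ⟨_, rfl⟩
  have hjk : j = k - conj c • (aeval T h) k := by
    have h1 : (aeval T (u * ((X - C z1) * p') + e * (1 - C (conj c) * h))) j = j := by
      rw [he, map_one]; rfl
    rw [map_add, add_apply, map_mul (aeval T) u, mul_apply_eq_comp, hzero, map_zero, zero_add, mul_comm e,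
      map_mul (aeval T) (1 - C (conj c) * h) e, mul_apply_eq_comp, ← hk, map_sub, map_one, map_mul, aeval_C,
      Algebra.algebraMap_eq_smul_one, smul_one_mul, sub_apply, smul_apply, one_apply_eq_self] at h1
    exact h1.symm
  have hgk : (aeval T ((h - C c) * e)) j = (aeval T h) k - c • k := by
    rw [map_mul, mul_apply_eq_comp, ← hk, map_sub, aeval_C, Algebra.algebraMap_eq_smul_one, sub_apply, smul_apply,
      one_apply_eq_self]
  have hk0 : k ≠ 0 := by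
    intro h0
    rw [h0, map_zero, smul_zero, sub_zero] at hjk
    exact hj0 hjk
  have h2 := hs (WithLp 2 (E × E)) T hT hpT k hk0
  have h3 := mobius_strict c hc k ((aeval T h) k) h2
  rw [← hjk, ← hgk, hgj, hι1, hj1] at h3
  exact h3

/-- the Schur step on the function side -/
lemma schur_fun {p' h e u g1 : ℂ[X]} {z1 c : ℂ} (hz1 : ‖z1‖ < 1) (hc : ‖c‖ < 1)
    (he : u * ((X - C z1) * p') + e * (1 - C (conj c) * h) = 1)
    (hg : (h - C c) * e = (X - C z1) * g1) (G1 k1 : ℂ → ℂ) (hG1 : DifferentiableOn ℂ G1 (ball 0 1))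
    (hk1 : DifferentiableOn ℂ k1 (ball 0 1)) (hGb : ∀ z ∈ ball (0 : ℂ) 1, ‖G1 z‖ ≤ 1)
    (hGk : ∀ z ∈ ball (0 : ℂ) 1, G1 z - ((1 - C (conj z1) * X) * g1).eval z = p'.eval z * k1 z) :
    ∃ G k : ℂ → ℂ, DifferentiableOn ℂ G (ball 0 1) ∧ DifferentiableOn ℂ k (ball 0 1) ∧
      (∀ z ∈ ball (0 : ℂ) 1, ‖G z‖ ≤ 1) ∧
      ∀ z ∈ ball (0 : ℂ) 1, G z - h.eval z = ((X - C z1) * p').eval z * k z := by
  have hne1 : ∀ z ∈ ball (0 : ℂ) 1, 1 - conj z1 * z ≠ 0 := fun z hz =>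
    circle_ne hz1 (by simpa using (mem_ball_zero_iff.mp hz).le)
  obtain ⟨b, hb⟩ : ∃ b : ℂ → ℂ, b = fun z => (z - z1) / (1 - conj z1 * z) := ⟨_, rfl⟩
  have hbd : DifferentiableOn ℂ b (ball 0 1) := by
    rw [hb]
    apply DifferentiableOn.div
    · fun_prop
    · fun_prop
    · exact hne1
  have hbn : ∀ z ∈ ball (0 : ℂ) 1, ‖b z‖ < 1 := by
    intro z hz
    have hz' : ‖z‖ < 1 := mem_ball_zero_iff.mp hz
    rw [hb]
    simp only
    rw [norm_div, div_lt_one (norm_pos_iff.mpr (hne1 z hz))]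
    have h1 := mobius_strict z1 hz1 (1 : ℂ) z (by simpa using hz')
    simpa using h1
  have hbG : ∀ z ∈ ball (0 : ℂ) 1, ‖b z * G1 z‖ < 1 := by
    intro z hz
    rw [norm_mul]
    have h1 := hbn z hz
    have h2 := hGb z hz
    nlinarith [norm_nonneg (b z), norm_nonneg (G1 z)]
  have hden : ∀ z ∈ ball (0 : ℂ) 1, 1 + conj c * (b z * G1 z) ≠ 0 := by
    intro z hz h0
    have h1 : conj c * (b z * G1 z) = -1 := by linear_combination h0
    have h2 : ‖conj c * (b z * G1 z)‖ = 1 := by rw [h1]; simp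
    rw [norm_mul, RCLike.norm_conj] at h2
    have h3 := hbG z hz
    nlinarith [norm_nonneg c, norm_nonneg (b z * G1 z)]
  obtain ⟨G, hG⟩ : ∃ G : ℂ → ℂ, G = fun z => (c + b z * G1 z) / (1 + conj c * (b z * G1 z)) := ⟨_, rfl⟩
  have hGd : DifferentiableOn ℂ G (ball 0 1) := by
    rw [hG]
    apply DifferentiableOn.div
    · exact (hbd.mul hG1).const_add c
    · exact ((hbd.mul hG1).const_mul (conj c)).const_add 1
    · exact hden
  have hGn : ∀ z ∈ ball (0 : ℂ) 1, ‖G z‖ ≤ 1 := by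
    intro z hz
    rw [hG]
    simp only
    rw [norm_div, div_le_one (norm_pos_iff.mpr (hden z hz))]
    have h1 := mobius_strict (-c) (by rwa [norm_neg]) (1 : ℂ) (b z * G1 z) (by simpa using hbG z hz)
    have e1 : b z * G1 z - (-c) • (1 : ℂ) = c + b z * G1 z := by simp; ring
    have e2 : (1 : ℂ) - conj (-c) • (b z * G1 z) = 1 + conj c * (b z * G1 z) := by
      rw [map_neg, smul_eq_mul]; ring
    rw [e1, e2] at h1
    exact h1.le
  -- the relation (G - c)(1 - z̄₁ z) = (z - z₁) G₁ (1 - c̄ G)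
  have hrel : ∀ z ∈ ball (0 : ℂ) 1, (G z - c) * (1 - conj z1 * z) = (z - z1) * G1 z * (1 - conj c * G z) := by
    intro z hz
    have h1 : G z * (1 + conj c * (b z * G1 z)) = c + b z * G1 z := by
      rw [hG]; simp only; rw [div_mul_cancel₀ _ (hden z hz)]
    have h2 : b z * (1 - conj z1 * z) = z - z1 := by
      rw [hb]; simp only; rw [div_mul_cancel₀ _ (hne1 z hz)]
    linear_combination (1 - conj z1 * z) * h1 + (G1 z - G z * conj c * G1 z) * h2
  have hcn : (1 - conj c * c : ℂ) ≠ 0 := circle_ne hc hc.le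
  -- the quotient
  refine ⟨G, fun z => ((k1 z * (1 - conj c * G z) - u.eval z * (h.eval z - c) * (1 - conj z1 * z)) *
      (1 - conj c * h.eval z) + conj c * (G z - h.eval z) * (1 - conj z1 * z) *
      (u.eval z * (h.eval z - c))) / ((1 - conj z1 * z) * (1 - conj c * c)), hGd, ?_, hGn, ?_⟩
  · have hu := u.differentiable.differentiableOn (s := ball (0 : ℂ) 1)
    have hh := h.differentiable.differentiableOn (s := ball (0 : ℂ) 1)
    apply DifferentiableOn.div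
    · fun_prop
    · fun_prop
    · intro z hz
      exact mul_ne_zero (hne1 z hz) hcn
  · intro z hz
    have hne : (1 - conj z1 * z) * (1 - conj c * c) ≠ 0 := mul_ne_zero (hne1 z hz) hcn
    rw [mul_div_assoc', eq_div_iff hne]
    have e1 := hrel z hz
    have e2 := hGk z hz
    have e3 := congrArg (eval z) he
    have e4 := congrArg (eval z) hg
    simp only [eval_add, eval_mul, eval_sub, eval_one, eval_C, eval_X] at e2 e3 e4 ⊢
    linear_combination (1 - conj c * eval z h) * e1 +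
      (1 - conj c * eval z h) * (z - z1) * (1 - conj c * G z) * e2 +
      ((1 - conj c * eval z h) * (eval z h - c) * (1 - conj z1 * z) -
        conj c * (G z - eval z h) * (1 - conj z1 * z) * (eval z h - c)) * e3 +
      (-(1 - conj c * eval z h) * (1 - conj z1 * z) * (1 - conj c * eval z h) +
        conj c * (G z - eval z h) * (1 - conj z1 * z) * (1 - conj c * eval z h)) * e4

noncomputable def lp (l : List ℂ) : ℂ[X] := (l.map (fun z => X - C z)).prod

lemma lp_cons (z : ℂ) (l : List ℂ) : lp (z :: l) = (X - C z) * lp l := by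
  simp [lp]

lemma lp_root {l : List ℂ} {μ : ℂ} (h : (lp l).eval μ = 0) : μ ∈ l := by
  induction l with
  | nil => simp [lp] at h
  | cons a l ih =>
    rw [lp_cons, eval_mul, eval_sub, eval_X, eval_C] at h
    rcases mul_eq_zero.mp h with h | h
    · have : μ = a := by linear_combination h
      rw [this]; exact List.mem_cons_self
    · exact List.mem_cons_of_mem _ (ih h)

/-- Schur / Nevanlinna-Pick interpolation, operator form -/
theorem schur_np (l : List ℂ) : (∀ z ∈ l, ‖z‖ < 1) → ∀ h : ℂ[X], StrictOn (lp l) h →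
    ∃ G k : ℂ → ℂ, DifferentiableOn ℂ G (ball 0 1) ∧ DifferentiableOn ℂ k (ball 0 1) ∧
      (∀ z ∈ ball (0 : ℂ) 1, ‖G z‖ ≤ 1) ∧
      ∀ z ∈ ball (0 : ℂ) 1, G z - h.eval z = (lp l).eval z * k z := by
  induction l with
  | nil =>
    intro _ h _
    refine ⟨fun _ => 0, fun z => -h.eval z, by fun_prop, ?_, by simp, ?_⟩
    · exact h.differentiable.neg.differentiableOn
    · intro z _
      simp [lp]
  | cons z1 l ih =>
    intro hl h hs
    have hz1 : ‖z1‖ < 1 := hl z1 List.mem_cons_self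
    have hroots : ∀ μ, (lp (z1 :: l)).eval μ = 0 → ‖h.eval μ‖ < 1 := fun μ hμ =>
      strict_root hs μ (hl μ (lp_root hμ)).le hμ
    obtain ⟨c, hc⟩ : ∃ c, c = h.eval z1 := ⟨_, rfl⟩
    have hc1 : ‖c‖ < 1 := by
      rw [hc]; apply hroots; rw [lp_cons]; simp
    have hcop : IsCoprime (lp (z1 :: l)) (1 - C (conj c) * h) := by
      rw [Polynomial.isCoprime_iff_aeval_ne_zero_of_isAlgClosed ℂ ℂ]
      intro μ
      by_cases hμ : (lp (z1 :: l)).eval μ = 0
      · right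
        have h1 := hroots μ hμ
        rw [Polynomial.coe_aeval_eq_eval, eval_sub, eval_one, eval_mul, eval_C]
        intro h0
        have h2 : conj c * h.eval μ = 1 := by linear_combination -h0
        have h3 : ‖conj c * h.eval μ‖ = 1 := by rw [h2, norm_one]
        rw [norm_mul, RCLike.norm_conj] at h3
        nlinarith [norm_nonneg c, norm_nonneg (h.eval μ)]
      · left
        rw [Polynomial.coe_aeval_eq_eval]; exact hμ
    obtain ⟨u, e, hue⟩ := hcop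
    rw [lp_cons] at hue hs
    have hdiv : (X - C z1) ∣ (h - C c) * e := by
      apply Dvd.dvd.mul_right
      rw [dvd_iff_isRoot]
      simp [hc]
    obtain ⟨g1, hg1⟩ := hdiv
    have hs1 := schur_step hz1 hc1 hs hue hg1
    obtain ⟨G1, k1, a1, a2, a3, a4⟩ := ih (fun z hz => hl z (List.mem_cons_of_mem _ hz)) _ hs1
    rw [lp_cons]
    exact schur_fun hz1 hc1 hue hg1 G1 k1 a1 a2 a3 a4

end Pool.Agent.Helper654.Ptak
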