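import Pool.Agent.Helper654.PtakM

set_option autoImplicit false
open Complex Metric Set Polynomial Filter Topology
open scoped ComplexConjugate

namespace Pool.Agent.Helper654.Ptak

section gen

/-- polynomial comparison for operators on arbitrary finite dimensional spaces -/
theorem poly_gen {m : ℕ} {r : ℝ} (hr0 : 0 < r) (hr1 : r < 1) (F : ℂ[X]) :
    ∃ a : ℂ, ‖a‖ = r ∧ ∀ (E : Type) [NormedAddCommGroup E] [InnerProductSpace ℂ E] [FiniteDimensional ℂ E]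
      (T : E →L[ℂ] E), ‖T‖ ≤ 1 → ∀ z : Fin (m + 1) → ℂ, (∀ j, ‖z j‖ ≤ r) → aeval T (∏ j, (X - C (z j))) = 0 →
        ‖aeval T F‖ ≤ ‖aeval (Uop (m + 1) a) F‖ := by
  obtain ⟨M, hM, β, hβ, u, v, huv, h⟩ := exists_M (Nat.succ_pos m) hr0 hr1 (ρ := r / (1 + r ^ 2)) rfl
    (F := fun ζ => F.eval ζ) F.continuous
  obtain ⟨a, ha, T₀, hT1, hT2, hT3⟩ := exists_extremal hr0 hr1 rfl F M β hβ u v huv h
  refine ⟨a, ha, ?_⟩
  intro E _ _ _ T hT z hz hp
  have hU := le_Uop a (by rw [ha]; exact hr1) T₀ hT1 hT2 F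
  rcases subsingleton_or_nontrivial E with hE | hE
  · have : aeval T F = 0 := by
      ext1 x
      exact Subsingleton.elim _ _
    rw [this, norm_zero]
    exact norm_nonneg _
  · have hd : 0 < Module.finrank ℂ E := Module.finrank_pos
    have hne : Nonempty (Fin (Module.finrank ℂ E)) := ⟨⟨0, hd⟩⟩
    obtain ⟨Φ⟩ : Nonempty (E ≃ₗᵢ[ℂ] EuclideanSpace ℂ (Fin (Module.finrank ℂ E))) :=
      ⟨(stdOrthonormalBasis ℂ E).repr⟩
    obtain ⟨T', hT'⟩ : ∃ T' : EuclideanSpace ℂ (Fin (Module.finrank ℂ E)) →L[ℂ] EuclideanSpace ℂ (Fin (Module.finrank ℂ E)),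
        ∀ y, T' y = Φ (T (Φ.symm y)) :=
      ⟨(Φ.toContinuousLinearEquiv : E →L[ℂ] _) ∘L T ∘L (Φ.symm.toContinuousLinearEquiv : _ →L[ℂ] E), fun y => rfl⟩
    have hT'n : ‖T'‖ ≤ 1 := by
      apply ContinuousLinearMap.opNorm_le_bound _ zero_le_one
      intro y
      rw [hT', LinearIsometryEquiv.norm_map, one_mul]
      refine (T.le_of_opNorm_le hT _).trans ?_
      rw [one_mul, LinearIsometryEquiv.norm_map]
    have hint := intertwine T' T Φ.toLinearEquiv.toLinearMap (fun x => by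
      show T' (Φ x) = Φ (T x)
      rw [hT', LinearIsometryEquiv.symm_apply_apply])
    have hp' : aeval T' (∏ j, (X - C (z j))) = 0 := by
      ext1 y
      have h1 := hint (∏ j, (X - C (z j))) (Φ.symm y)
      rw [hp] at h1
      have h2 : Φ.toLinearEquiv.toLinearMap (Φ.symm y) = y := Φ.apply_symm_apply y
      rw [h2] at h1
      rw [h1]
      show Φ ((0 : E →L[ℂ] E) (Φ.symm y)) = 0
      rw [zero_apply, map_zero]
    have h3 := opNorm_le_of hr0 hr1 rfl F M hM z hz T' hT'n hp'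
    have h4 : ‖aeval T F‖ ≤ ‖aeval T' F‖ := by
      apply ContinuousLinearMap.opNorm_le_bound _ (norm_nonneg _)
      intro x
      have h1 : (aeval T' F) (Φ x) = Φ ((aeval T F) x) := hint F x
      rw [← LinearIsometryEquiv.norm_map Φ ((aeval T F) x), ← h1]
      refine ((aeval T' F).le_opNorm _).trans ?_
      rw [LinearIsometryEquiv.norm_map]
    exact h4.trans (h3.trans (hT3.trans hU))

variable {E : Type} [NormedAddCommGroup E] [InnerProductSpace ℂ E] [FiniteDimensional ℂ E]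

lemma pow_bound_gen {m : ℕ} {r : ℝ} (hr0 : 0 < r) (hr1 : r < 1) (T : E →L[ℂ] E) (hT : ‖T‖ ≤ 1)
    (z : Fin (m + 1) → ℂ) (hz : ∀ j, ‖z j‖ ≤ r) (hp : aeval T (∏ j, (X - C (z j))) = 0) (k : ℕ) :
    ‖T ^ k‖ ≤ bd (m + 1) r k := by
  obtain ⟨a, ha, h⟩ := poly_gen (m := m) hr0 hr1 (X ^ k)
  have h1 := h E T hT z hz hp
  rw [map_pow, map_pow, aeval_X, aeval_X] at h1
  exact h1.trans (pow_bound hr0 hr1 (Uop (m + 1) a) (Uop_norm (m + 1) a (ha.le.trans hr1.le)) a ha.le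
    (Uop_annih (m + 1) a) k)

theorem vN_gen {m : ℕ} {r : ℝ} (hr0 : 0 < r) (hr1 : r < 1) (T : E →L[ℂ] E) (hT : ‖T‖ ≤ 1)
    (z : Fin (m + 1) → ℂ) (hz : ∀ j, ‖z j‖ ≤ r) (hp : aeval T (∏ j, (X - C (z j))) = 0) (F : ℂ[X]) (M : ℝ)
    (hF : ∀ ζ : ℂ, ‖ζ‖ = 1 → ‖F.eval ζ‖ ≤ M) : ‖aeval T F‖ ≤ M := by
  obtain ⟨a, ha, h⟩ := poly_gen (m := m) hr0 hr1 F
  refine (h E T hT z hz hp).trans ?_
  apply vN_poly hr0 hr1 (fun _ : Fin (m + 1) => a) (fun _ => ha.le) (Uop (m + 1) a)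
    (Uop_norm (m + 1) a (ha.le.trans hr1.le)) _ F M hF
  rw [Finset.prod_const, Finset.card_univ, Fintype.card_fin]
  exact Uop_annih (m + 1) a

variable [CompleteSpace E]

lemma trunc_gen {m : ℕ} {r s : ℝ} (hr0 : 0 < r) (hrs : r < s) {c : ℕ → ℂ} {K : ℝ}
    (hK : ∀ k, ‖c k‖ * s ^ k ≤ K) (φ : ℕ → ℕ) (hφ : StrictMono φ)
    (T : ℕ → E →L[ℂ] E) (T₀ : E →L[ℂ] E)
    (hb : ∀ N k, ‖(T N) ^ k‖ ≤ bd (m + 1) r k) (hlim : Tendsto T atTop (𝓝 T₀)) :
    Tendsto (fun N => aeval (T N) (∑ k ∈ Finset.range (φ N), C (c k) * X ^ k)) atTop (𝓝 (∑' k, c k • T₀ ^ k)) := by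
  have h1 : ∀ N, aeval (T N) (∑ k ∈ Finset.range (φ N), C (c k) * X ^ k) =
      ∑' k, (if k < φ N then c k • (T N) ^ k else 0) := by
    intro N
    rw [tsum_eq_sum (s := Finset.range (φ N))]
    · rw [map_sum]
      apply Finset.sum_congr rfl
      intro k hk
      rw [if_pos (Finset.mem_range.mp hk), map_mul, map_pow, aeval_X, aeval_C, Algebra.algebraMap_eq_smul_one,
        smul_one_mul]
    · intro k hk
      rw [if_neg (fun h => hk (Finset.mem_range.mpr h))]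
  simp only [h1]
  apply tendsto_tsum_of_dominated_convergence (bd_summable (n := m + 1) hr0 hrs hK)
  · intro k
    have h2 : Tendsto (fun N => c k • (T N) ^ k) atTop (𝓝 (c k • T₀ ^ k)) := (hlim.pow k).const_smul (c k)
    apply h2.congr'
    filter_upwards [Filter.eventually_gt_atTop k] with N hN
    have : k < φ N := lt_of_lt_of_le hN (hφ.id_le N)
    rw [if_pos this]
  · apply Filter.Eventually.of_forall
    intro N k
    by_cases h : k < φ N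
    · rw [if_pos h]
      exact (norm_smul_le (c k) ((T N) ^ k)).trans (mul_le_mul_of_nonneg_left (hb N k) (norm_nonneg _))
    · rw [if_neg h, norm_zero]
      unfold bd
      positivity

lemma trN_gen {m : ℕ} {r : ℝ} (hr0 : 0 < r) (hr1 : r < 1) {f : ℂ → ℂ}
    (hf : DifferentiableOn ℂ f (ball 0 1)) {ρ : ℝ} (h0 : 0 < ρ) (h1 : ρ < 1)
    (T : E →L[ℂ] E)
    (hb : ∀ k, ‖T ^ k‖ ≤ bd (m + 1) r k) :
    Tendsto (fun N => aeval T (trN f ρ N)) atTop (𝓝 (∑' k, (tay f k * (ρ : ℂ) ^ k) • T ^ k)) := by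
  obtain ⟨s, hrs, _, K, hK⟩ := tay_bound hr0 hr1 hf
  have hs0 : 0 < s := hr0.trans hrs
  have hK' : ∀ k, ‖tay f k * (ρ : ℂ) ^ k‖ * s ^ k ≤ K := by
    intro k
    rw [norm_mul, norm_pow, norm_real, Real.norm_eq_abs, abs_of_pos h0]
    have h2 : ρ ^ k ≤ 1 := pow_le_one₀ h0.le h1.le
    have h3 := hK k
    have h4 : 0 ≤ ‖tay f k‖ * s ^ k := by positivity
    calc ‖tay f k‖ * ρ ^ k * s ^ k = (‖tay f k‖ * s ^ k) * ρ ^ k := by ring
      _ ≤ (‖tay f k‖ * s ^ k) * 1 := mul_le_mul_of_nonneg_left h2 h4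
      _ ≤ K := by rw [mul_one]; exact h3
  exact trunc_gen hr0 hrs hK' id strictMono_id (fun _ => T) T (fun _ => hb) tendsto_const_nhds

lemma dil_gen {m : ℕ} {r : ℝ} (hr0 : 0 < r) (hr1 : r < 1) {f : ℂ → ℂ}
    (hf : DifferentiableOn ℂ f (ball 0 1)) (ρ : ℕ → ℝ) (h0 : ∀ i, 0 < ρ i) (h1 : ∀ i, ρ i < 1)
    (hlim : Tendsto ρ atTop (𝓝 1))
    (T : E →L[ℂ] E)
    (hb : ∀ k, ‖T ^ k‖ ≤ bd (m + 1) r k) :
    Tendsto (fun i => ∑' k, (tay f k * (ρ i : ℂ) ^ k) • T ^ k) atTop (𝓝 (∑' k, tay f k • T ^ k)) := by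
  obtain ⟨s, hrs, _, K, hK⟩ := tay_bound hr0 hr1 hf
  apply tendsto_tsum_of_dominated_convergence (bd_summable (n := m + 1) hr0 hrs hK)
  · intro k
    have h3 : Tendsto (fun i => ((ρ i : ℝ) : ℂ)) atTop (𝓝 1) := by
      have h4 := (continuous_ofReal.tendsto 1).comp hlim
      rw [ofReal_one] at h4
      exact h4
    have h2 : Tendsto (fun i => tay f k * (ρ i : ℂ) ^ k) atTop (𝓝 (tay f k)) := by
      have h4 := (h3.pow k).const_mul (tay f k)
      rw [one_pow, mul_one] at h4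
      exact h4
    exact h2.smul_const (T ^ k)
  · apply Filter.Eventually.of_forall
    intro i k
    have h3 := norm_smul_le (tay f k * (ρ i : ℂ) ^ k) (T ^ k)
    refine h3.trans ?_
    rw [norm_mul, norm_pow, norm_real, Real.norm_eq_abs, abs_of_pos (h0 i)]
    have h4 : ρ i ^ k ≤ 1 := pow_le_one₀ (h0 i).le (h1 i).le
    have h5 := hb k
    have h6 := norm_nonneg (T ^ k)
    have h7 := norm_nonneg (tay f k)
    have h8 : ‖tay f k‖ * ρ i ^ k ≤ ‖tay f k‖ * 1 := mul_le_mul_of_nonneg_left h4 h7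
    have h9 : ‖tay f k‖ * ρ i ^ k * ‖T ^ k‖ ≤ ‖tay f k‖ * 1 * ‖T ^ k‖ := mul_le_mul_of_nonneg_right h8 h6
    rw [mul_one] at h9
    exact h9.trans (mul_le_mul_of_nonneg_left h5 h7)

/-- The key estimate (von Neumann inequality modulo an annihilating polynomial). -/
theorem lemmaE_gen {m : ℕ} {r : ℝ} (hr0 : 0 < r) (hr1 : r < 1) {f g : ℂ → ℂ}
    (hf : DifferentiableOn ℂ f (ball 0 1)) (hg : DifferentiableOn ℂ g (ball 0 1)) (p q : ℂ[X])
    (T : E →L[ℂ] E) (hT : ‖T‖ ≤ 1)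
    (z : Fin (m + 1) → ℂ) (hz1 : ∀ j, ‖z j‖ ≤ r) (hz2 : aeval T (∏ j, (X - C (z j))) = 0)
    (hpT : aeval T p = 0) (γ : ℝ)
    (h : ∀ z : ℂ, ‖z‖ < 1 → ‖f z - q.eval z - p.eval z * g z‖ ≤ γ) :
    ‖(∑' k, tay f k • T ^ k) - aeval T q‖ ≤ γ := by
  have hb : ∀ k, ‖T ^ k‖ ≤ bd (m + 1) r k := pow_bound_gen hr0 hr1 T hT z hz1 hz2
  -- step 1
  have step1 : ∀ ρ : ℝ, 0 < ρ → ρ < 1 →
      ‖(∑' k, (tay f k * (ρ : ℂ) ^ k) • T ^ k) - aeval ((ρ : ℂ) • T) q -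
        aeval ((ρ : ℂ) • T) p * ∑' k, (tay g k * (ρ : ℂ) ^ k) • T ^ k‖ ≤ γ := by
    intro ρ h0 h1
    obtain ⟨P, hP⟩ := (isCompact_closedBall (0 : ℂ) 1).exists_bound_of_continuousOn
      (f := fun z => p.eval z) p.continuous.continuousOn
    have hP' : ∀ ζ : ℂ, ‖ζ‖ = 1 → ‖p.eval (ρ * ζ)‖ ≤ |P| := by
      intro ζ hζ
      refine (hP (ρ * ζ) ?_).trans (le_abs_self P)
      rw [mem_closedBall_zero_iff, norm_mul, hζ, mul_one, norm_real, Real.norm_eq_abs, abs_of_pos h0]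
      exact h1.le
    have hN : ∀ N, ‖aeval T (trN f ρ N) - aeval ((ρ : ℂ) • T) q - aeval ((ρ : ℂ) • T) p * aeval T (trN g ρ N)‖ ≤
        γ + (∑' k, ‖tay f (k + N)‖ * ρ ^ (k + N)) + |P| * (∑' k, ‖tay g (k + N)‖ * ρ ^ (k + N)) := by
      intro N
      have h2 : aeval T (trN f ρ N) - aeval ((ρ : ℂ) • T) q - aeval ((ρ : ℂ) • T) p * aeval T (trN g ρ N) =
          aeval T (trN f ρ N - q.comp (C (ρ : ℂ) * X) - p.comp (C (ρ : ℂ) * X) * trN g ρ N) := by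
        rw [map_sub, map_sub, map_mul, comp_aeval, comp_aeval]
      rw [h2]
      apply vN_gen hr0 hr1 T hT z hz1 hz2
      intro ζ hζ
      rw [eval_sub, eval_sub, eval_mul, comp_eval, comp_eval]
      have h3 := trN_close hf h0 h1 N ζ hζ
      have h4 := trN_close hg h0 h1 N ζ hζ
      have h5 := h (ρ * ζ) (by rw [norm_mul, hζ, mul_one, norm_real, Real.norm_eq_abs, abs_of_pos h0]; exact h1)
      have h6 := hP' ζ hζ
      have e : eval ζ (trN f ρ N) - eval (↑ρ * ζ) q - eval (↑ρ * ζ) p * eval ζ (trN g ρ N) =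
          (f (ρ * ζ) - eval (↑ρ * ζ) q - eval (↑ρ * ζ) p * g (ρ * ζ)) +
          (eval ζ (trN f ρ N) - f (ρ * ζ)) - eval (↑ρ * ζ) p * (eval ζ (trN g ρ N) - g (ρ * ζ)) := by ring
      rw [e]
      refine (norm_sub_le _ _).trans ?_
      refine add_le_add ((norm_add_le _ _).trans (add_le_add h5 h3)) ?_
      rw [norm_mul]
      exact mul_le_mul h6 h4 (norm_nonneg _) (abs_nonneg _)
    have l1 := trN_gen hr0 hr1 hf h0 h1 T hb
    have l2 := trN_gen hr0 hr1 hg h0 h1 T hb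
    have l3 : Tendsto (fun N => ‖aeval T (trN f ρ N) - aeval ((ρ : ℂ) • T) q - aeval ((ρ : ℂ) • T) p * aeval T (trN g ρ N)‖) atTop
        (𝓝 ‖(∑' k, (tay f k * (ρ : ℂ) ^ k) • T ^ k) - aeval ((ρ : ℂ) • T) q -
        aeval ((ρ : ℂ) • T) p * ∑' k, (tay g k * (ρ : ℂ) ^ k) • T ^ k‖) :=
      ((l1.sub_const _).sub (l2.const_mul _)).norm
    have l4 : Tendsto (fun N => γ + (∑' k, ‖tay f (k + N)‖ * ρ ^ (k + N)) + |P| * (∑' k, ‖tay g (k + N)‖ * ρ ^ (k + N)))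
        atTop (𝓝 (γ + 0 + |P| * 0)) :=
      ((tail_tendsto f ρ).const_add γ).add ((tail_tendsto g ρ).const_mul |P|)
    have l5 := le_of_tendsto_of_tendsto' l3 l4 hN
    simpa using l5
  -- step 2
  set ρ : ℕ → ℝ := fun i => 1 - 1 / ((i : ℝ) + 2) with hρ
  have hρ0 : ∀ i, 0 < ρ i := by
    intro i
    have h1 : (0 : ℝ) ≤ i := Nat.cast_nonneg i
    have h2 : 1 / ((i : ℝ) + 2) < 1 := by rw [div_lt_one (by linarith)]; linarith
    simp only [hρ]; linarith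
  have hρ1 : ∀ i, ρ i < 1 := by
    intro i
    have h1 : (0 : ℝ) ≤ i := Nat.cast_nonneg i
    have h2 : 0 < 1 / ((i : ℝ) + 2) := by positivity
    simp only [hρ]; linarith
  have hρl : Tendsto ρ atTop (𝓝 1) := by
    have h1 : Tendsto (fun i : ℕ => 1 / ((i : ℝ) + 2)) atTop (𝓝 0) := by
      apply Tendsto.div_atTop tendsto_const_nhds
      exact tendsto_atTop_add_const_right _ _ tendsto_natCast_atTop_atTop
    have h2 := h1.const_sub 1
    rw [sub_zero] at h2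
    exact h2
  have l1 := dil_gen hr0 hr1 hf ρ hρ0 hρ1 hρl T hb
  have l2 := dil_gen hr0 hr1 hg ρ hρ0 hρ1 hρl T hb
  have hcontpoly : ∀ q : ℂ[X], Tendsto (fun i => aeval ((ρ i : ℂ) • T) q) atTop (𝓝 (aeval T q)) := by
    intro q
    have h1 : ∀ S : E →L[ℂ] E,
        aeval S q = ∑ i ∈ Finset.range (q.natDegree + 1), q.coeff i • S ^ i := fun S => aeval_eq_sum_range S
    simp only [h1]
    apply tendsto_finsetSum
    intro k _
    apply Tendsto.const_smul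
    apply Tendsto.pow
    have h3 : Tendsto (fun i => ((ρ i : ℝ) : ℂ)) atTop (𝓝 1) := by
      have h4 := (continuous_ofReal.tendsto 1).comp hρl
      rw [ofReal_one] at h4
      exact h4
    have h2 := h3.smul_const T
    rw [one_smul] at h2
    exact h2
  have l3 := ((l1.sub (hcontpoly q)).sub ((hcontpoly p).mul l2)).norm
  rw [hpT, zero_mul, sub_zero] at l3
  exact le_of_tendsto' l3 (fun i => step1 (ρ i) (hρ0 i) (hρ1 i))

end gen

theorem series_gen {m : ℕ} {r s : ℝ} (hr0 : 0 < r) (hr1 : r < 1) (hrs : r < s) (c : ℕ → ℂ) (K : ℝ)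
    (hK : ∀ k, ‖c k‖ * s ^ k ≤ K) :
    ∃ a : ℂ, ‖a‖ = r ∧ ∀ (E : Type) [NormedAddCommGroup E] [InnerProductSpace ℂ E] [FiniteDimensional ℂ E]
      (T : E →L[ℂ] E), ‖T‖ ≤ 1 → ∀ z : Fin (m + 1) → ℂ, (∀ j, ‖z j‖ ≤ r) → aeval T (∏ j, (X - C (z j))) = 0 →
        ‖∑' k, c k • T ^ k‖ ≤ ‖∑' k, c k • (Uop (m + 1) a) ^ k‖ := by
  choose a ha hT3 using fun N : ℕ => poly_gen (m := m) hr0 hr1 (∑ k ∈ Finset.range N, C (c k) * X ^ k)
  set T : ℕ → EuclideanSpace ℂ (Fin (m + 1)) →L[ℂ] EuclideanSpace ℂ (Fin (m + 1)) := fun N => Uop (m + 1) (a N) with hTdef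
  have hT1 : ∀ N, ‖T N‖ ≤ 1 := fun N => Uop_norm (m + 1) (a N) ((ha N).le.trans hr1.le)
  have hT2 : ∀ N, aeval (T N) ((X - C (a N)) ^ (m + 1)) = 0 := fun N => Uop_annih (m + 1) (a N)
  set S : Set (ℂ × (EuclideanSpace ℂ (Fin (m + 1)) →L[ℂ] EuclideanSpace ℂ (Fin (m + 1)))) :=
    sphere 0 r ×ˢ closedBall 0 1 with hS
  have hSc : IsCompact S := (isCompact_sphere _ _).prod (isCompact_closedBall _ _)
  have hmem : ∀ N, (a N, T N) ∈ S := fun N => ⟨by simp [ha N], by simpa using hT1 N⟩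
  obtain ⟨⟨a₀, T₀⟩, h0, φ, hφ, hlim⟩ := hSc.tendsto_subseq hmem
  have hla : Tendsto (fun N => a (φ N)) atTop (𝓝 a₀) := (continuous_fst.tendsto _).comp hlim
  have hlT : Tendsto (fun N => T (φ N)) atTop (𝓝 T₀) := (continuous_snd.tendsto _).comp hlim
  have ha0 : ‖a₀‖ = r := by simpa using h0.1
  have hT0 : ‖T₀‖ ≤ 1 := by simpa using h0.2
  have hT02 : aeval T₀ ((X - C a₀) ^ (m + 1)) = 0 := by
    have h1 : ∀ N, (T (φ N) - (a (φ N)) • (1 : EuclideanSpace ℂ (Fin (m + 1)) →L[ℂ] EuclideanSpace ℂ (Fin (m + 1)))) ^ (m + 1) = 0 := by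
      intro N
      have := hT2 (φ N)
      rw [map_pow, map_sub, aeval_X, aeval_C, Algebra.algebraMap_eq_smul_one] at this
      exact this
    have h2 : Tendsto (fun N => (T (φ N) - (a (φ N)) • (1 : EuclideanSpace ℂ (Fin (m + 1)) →L[ℂ] EuclideanSpace ℂ (Fin (m + 1)))) ^ (m + 1)) atTop
        (𝓝 ((T₀ - a₀ • (1 : EuclideanSpace ℂ (Fin (m + 1)) →L[ℂ] EuclideanSpace ℂ (Fin (m + 1)))) ^ (m + 1))) :=
      (hlT.sub (hla.smul_const _)).pow _
    simp only [h1] at h2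
    have h3 := tendsto_nhds_unique h2 tendsto_const_nhds
    rw [map_pow, map_sub, aeval_X, aeval_C, Algebra.algebraMap_eq_smul_one]
    exact h3
  refine ⟨a₀, ha0, ?_⟩
  intro E _ _ _ T' hT' z hz hp
  have : CompleteSpace E := FiniteDimensional.complete ℂ E
  have hb' := pow_bound_gen hr0 hr1 T' hT' z hz hp
  have l1 := trunc_gen hr0 hrs hK φ hφ (fun _ => T') T' (fun _ => hb') tendsto_const_nhds
  have l2 := trunc_tendsto hr0 hrs hK φ hφ (fun N => T (φ N)) T₀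
    (fun N => pow_bound hr0 hr1 (T (φ N)) (hT1 _) (a (φ N)) (ha _).le (hT2 _)) hlT
  exact (le_of_tendsto_of_tendsto' l1.norm l2.norm (fun N => hT3 (φ N) E T' hT' z hz hp)).trans
    (series_le_Uop hr0 hr1 hrs c K hK a₀ ha0.le T₀ hT0 hT02)

/-- Hermite interpolation by a polynomial -/
lemma interp (l : List ℂ) : (∀ z ∈ l, ‖z‖ < 1) → ∀ h : ℂ → ℂ, DifferentiableOn ℂ h (ball 0 1) →
    ∃ (q : ℂ[X]) (g : ℂ → ℂ), DifferentiableOn ℂ g (ball 0 1) ∧
      ∀ z ∈ ball (0 : ℂ) 1, h z = q.eval z + (lp l).eval z * g z := by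
  induction l with
  | nil =>
    intro _ h hh
    exact ⟨0, h, hh, fun z _ => by simp [lp]⟩
  | cons z1 l ih =>
    intro hl h hh
    have hz1 : z1 ∈ ball (0 : ℂ) 1 := mem_ball_zero_iff.mpr (hl z1 List.mem_cons_self)
    have hd : DifferentiableOn ℂ (dslope h z1) (ball 0 1) :=
      (Complex.differentiableOn_dslope (isOpen_ball.mem_nhds hz1)).mpr hh
    obtain ⟨q, g, hg, hq⟩ := ih (fun z hz => hl z (List.mem_cons_of_mem _ hz)) _ hd
    refine ⟨C (h z1) + (X - C z1) * q, g, hg, ?_⟩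
    intro z hz
    have h1 : (z - z1) • dslope h z1 z = h z - h z1 := sub_smul_dslope h z1 z
    have h2 := hq z hz
    rw [lp_cons]
    simp only [eval_add, eval_mul, eval_sub, eval_X, eval_C, smul_eq_mul] at h1 ⊢
    rw [h2] at h1
    linear_combination -h1

/-- the hard direction -/
theorem hard {m : ℕ} {r : ℝ} (hr0 : 0 < r) (hr1 : r < 1) {h : ℂ → ℂ} (hh : DifferentiableOn ℂ h (ball 0 1)) :
    ∃ a : ℂ, ‖a‖ = r ∧ ∀ l : List ℂ, l.length = m + 1 → (∀ z ∈ l, ‖z‖ ≤ r) → ∀ γ : ℝ,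
      ‖∑' k, tay h k • (Uop (m + 1) a) ^ k‖ < γ →
      ∃ g : ℂ → ℂ, DifferentiableOn ℂ g (ball 0 1) ∧ ∀ z ∈ ball (0 : ℂ) 1, ‖h z - (lp l).eval z * g z‖ ≤ γ := by
  obtain ⟨s, hrs, _, K, hK⟩ := tay_bound hr0 hr1 hh
  obtain ⟨a, ha, hmain⟩ := series_gen (m := m) hr0 hr1 hrs (tay h) K hK
  refine ⟨a, ha, ?_⟩
  intro l hlen hl γ hγ
  have hγ0 : 0 < γ := lt_of_le_of_lt (norm_nonneg _) hγ
  obtain ⟨q, g, hg, hq⟩ := interp l (fun z hz => (hl z hz).trans_lt hr1) h hh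
  have hprod : ∏ j : Fin (m + 1), (X - C (l[(j : ℕ)]'(by rw [hlen]; exact j.2))) = lp l := by
    subst_vars
    have h1 := Fin.prod_univ_fun_getElem l (fun a => X - C a)
    unfold lp
    rw [← h1]
    exact Fintype.prod_equiv (finCongr hlen.symm) _ _ (fun j => rfl)
  have hstrict : StrictOn (lp l) (C ((γ : ℂ)⁻¹) * q) := by
    intro E _ _ _ T hT hpT x hx
    have : CompleteSpace E := FiniteDimensional.complete ℂ E
    have hzr : ∀ j : Fin (m + 1), ‖(l[(j : ℕ)]'(by rw [hlen]; exact j.2))‖ ≤ r := fun j => hl _ (List.getElem_mem _)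
    have hz2 : aeval T (∏ j : Fin (m + 1), (X - C (l[(j : ℕ)]'(by rw [hlen]; exact j.2)))) = 0 := by
      rw [hprod]; exact hpT
    have h1 := lemmaE_gen hr0 hr1 hh hg (lp l) q T hT _ hzr hz2 hpT 0 (fun z hz => by
      have := hq z (mem_ball_zero_iff.mpr hz)
      rw [this]
      have e : eval z q + eval z (lp l) * g z - eval z q - eval z (lp l) * g z = 0 := by ring
      rw [e, norm_zero])
    have h2 : ∑' k, tay h k • T ^ k = aeval T q := by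
      have h3 := le_antisymm h1 (norm_nonneg _)
      exact sub_eq_zero.mp (norm_eq_zero.mp h3)
    have h3 := hmain E T hT _ hzr hz2
    rw [h2] at h3
    have h4 : ‖(aeval T (C ((γ : ℂ)⁻¹) * q)) x‖ = γ⁻¹ * ‖(aeval T q) x‖ := by
      rw [map_mul, aeval_C, Algebra.algebraMap_eq_smul_one, smul_one_mul, smul_apply, norm_smul, norm_inv, norm_real,
        Real.norm_eq_abs, abs_of_pos hγ0]
    rw [h4]
    have hx0 : 0 < ‖x‖ := norm_pos_iff.mpr hx
    have h5 : ‖(aeval T q) x‖ ≤ ‖aeval T q‖ * ‖x‖ := (aeval T q).le_opNorm x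
    have h6 : ‖(aeval T q) x‖ < γ * ‖x‖ := by
      refine h5.trans_lt ?_
      exact mul_lt_mul_of_pos_right (h3.trans_lt hγ) hx0
    calc γ⁻¹ * ‖(aeval T q) x‖ < γ⁻¹ * (γ * ‖x‖) := mul_lt_mul_of_pos_left h6 (inv_pos.mpr hγ0)
      _ = ‖x‖ := by field_simp
  obtain ⟨G, k, hG, hk, hGb, hGk⟩ := schur_np l (fun z hz => (hl z hz).trans_lt hr1) _ hstrict
  refine ⟨fun z => g z - γ * k z, hg.sub (hk.const_mul _), ?_⟩
  intro z hz
  have h1 := hGk z hz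
  have h2 := hq z hz
  rw [eval_mul, eval_C] at h1
  have hγc : (γ : ℂ) ≠ 0 := by exact_mod_cast hγ0.ne'
  have h3 : h z - eval z (lp l) * (g z - γ * k z) = γ * G z := by
    have h4 : γ * G z = eval z q + γ * (eval z (lp l) * k z) := by
      rw [← h1]
      field_simp
      ring
    rw [h4, h2]
    ring
  rw [h3, norm_mul, norm_real, Real.norm_eq_abs, abs_of_pos hγ0]
  have := hGb z hz
  nlinarith

end Pool.Agent.Helper654.Ptak
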